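import Pool.Agent.H63.CUBE.Cmp1

set_option autoImplicit false
set_option linter.unusedSectionVars false

/-!
# MP_47888e_al, block E, part 10: comparison of the value `chi''(h''(h'(w)))`, two levels

The value does not depend on the choices and is compatible with a base change `j : E → E₂`
combined with the scaling `s ↦ a s`, `λ ↦ a λ`.
-/

open Matrix Pool.CM Pool.H93.Cube

namespace Pool.CM.EG

variable {E E₂ : Type} [Field E] [Field E₂]

theorem nabF_scR (j : E →+* E₂) {a : E₂} (ha : a ≠ 0) (x : RatFunc E) :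
    nabF E₂ (scR j ha x) = scR j ha (nabF E x) := by
  apply ex_injective E₂
  rw [ex_nabF, ex_scR, scL_nab, ex_scR, ex_nabF]

theorem ex_C (a : E) : ex E (algebraMap (Polynomial E) (RatFunc E) (Polynomial.C a)) =
    HahnSeries.C a := by
  rw [ex_algebraMap]
  ext k
  rcases lt_or_ge k 0 with hk | hk
  · rw [exP_coeff_neg _ _ hk, HahnSeries.C_apply, HahnSeries.coeff_single_of_ne hk.ne]
  · obtain ⟨n, rfl⟩ := Int.eq_ofNat_of_zero_le hk
    rw [exP_coeff_nat, Polynomial.coeff_C, HahnSeries.C_apply]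
    by_cases hn : n = 0
    · subst hn
      simp
    · rw [if_neg hn, HahnSeries.coeff_single_of_ne (by exact_mod_cast hn)]

/-- constants in `E(x)` -/
noncomputable def cst (a : E) : RatFunc E :=
  algebraMap (Polynomial E) (RatFunc E) (Polynomial.C a)

theorem nabF_cst (a : E) : nabF E (cst a) = 0 := by
  apply ex_injective E
  rw [ex_nabF, cst, ex_C, nab_C, map_zero]

theorem cst_ne {a : E} (ha : a ≠ 0) : cst a ≠ 0 := by
  intro h
  have h1 := congrArg (ex E) h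
  rw [cst, ex_C, map_zero] at h1
  exact ha (HahnSeries.C_injective (h1.trans (map_zero _).symm))

/-- the substitution on two levels: `s ↦ a s`, `λ ↦ a λ` -/
noncomputable def scR2 (j : E →+* E₂) {a : E₂} (ha : a ≠ 0) :
    RatFunc (RatFunc E) →+* RatFunc (RatFunc E₂) := scR (scR j ha) (cst_ne ha)

/-- the value -/
noncomputable def val2 {m u₁ u₂ : Type} [Fintype m] [DecidableEq m] [Fintype u₁]
    [DecidableEq u₁] [Fintype u₂] [DecidableEq u₂] {G : Matrix m m (RatFunc (RatFunc E))}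
    {G' : Matrix u₁ u₁ (RatFunc E)} (d₁ : LD0 G u₁) (d₂ : LD0 G' u₂)
    (chi w : m → RatFunc (RatFunc E)) : E :=
  hcL d₂ (hcL d₁ chi) ⬝ᵥ hvL d₂ (hvL d₁ w)

section
variable {X X₂ : Idx} (A : PF X E) (A₂ : PF X₂ E₂)
variable {m u₁ u₂ n v₁ v₂ : Type} [Fintype m] [DecidableEq m] [Fintype u₁] [DecidableEq u₁]
  [Fintype u₂] [DecidableEq u₂] [Fintype n] [DecidableEq n] [Fintype v₁] [DecidableEq v₁]
  [Fintype v₂] [DecidableEq v₂]

/-- **Comparison.** `m, u₁, u₂, G, Gs, Gs'` : the limit data over `E`; `n, v₁, v₂, H, Hs, Hs'`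
over `E₂`. -/
theorem cmp2 (j : E →+* E₂) {a : E₂} (ha : a ≠ 0)
    {G Gs : Matrix m m (RatFunc (RatFunc E))} {Gs' : Matrix u₁ u₁ (RatFunc E)}
    (d₁ : LD0 G u₁) (hs : d₁.Z.map (cD (nabF E)) + Gs.map (ex (RatFunc E)) * d₁.Z =
      d₁.Z * cM Gs') (d₂ : LD0 Gs' u₂)
    {H Hs : Matrix n n (RatFunc (RatFunc E₂))} {Hs' : Matrix v₁ v₁ (RatFunc E₂)}
    (e₁ : LD0 H v₁) (ht : e₁.Z.map (cD (nabF E₂)) + Hs.map (ex (RatFunc E₂)) * e₁.Z =
      e₁.Z * cM Hs') (e₂ : LD0 Hs' v₂)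
    (R : Matrix n m (RatFunc (RatFunc E₂)))
    (hR : R.map (nabF (RatFunc E₂)) + H * R = R * G.map (scR2 j ha))
    (hRs : R.map (A₂.ext.ext.D (some none)) + Hs * R = R * Gs.map (scR2 j ha))
    (chi w : m → RatFunc (RatFunc E)) (chi₂ w₂ : n → RatFunc (RatFunc E₂))
    (hchi : chi₂ ᵥ* R = fun b => scR2 j ha (chi b))
    (hw : w₂ = R *ᵥ fun b => scR2 j ha (w b)) :
    val2 e₁ e₂ chi₂ w₂ = j (val2 d₁ d₂ chi w) := by
  obtain ⟨R', h1, h2⟩ := cmp1 d₁ e₁ (scR j ha) (cst_ne ha) R hR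
  have h3 : R'.map (nabF E₂) + Hs' * R' = R' * Gs'.map (scR j ha) := by
    refine cmp1D (cst_ne ha) h1 (nabF E) (nabF E₂) (fun x => (nabF_scR j ha x).symm)
      (nabF_cst a) (fun x => x) (A₂.ext.ext.D (some none)) ?_ hs ht hRs
    intro x
    ext k
    rw [cD_coeff]
    exact (Pool.CM.All.xde X₂ (RatFunc E₂) A₂.ext x k).2 none
  obtain ⟨R'', h4, h5⟩ := cmp1 d₂ e₂ j ha R' h3
  have h6 : hvL e₁ w₂ = R' *ᵥ fun b => scR j ha (hvL d₁ w b) := by
    rw [hw]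
    exact hvL_cmp (cst_ne ha) h2 w
  have h7 : hvL e₂ (hvL e₁ w₂) = R'' *ᵥ fun b => j (hvL d₂ (hvL d₁ w) b) := by
    rw [h6]
    exact hvL_cmp ha h5 _
  have h8 : (fun b => scR j ha (hcL d₁ chi b)) = hcL e₁ chi₂ ᵥ* R' :=
    hcL_cmp (cst_ne ha) h1 chi chi₂ hchi
  have h9 : (fun b => j (hcL d₂ (hcL d₁ chi) b)) = hcL e₂ (hcL e₁ chi₂) ᵥ* R'' :=
    hcL_cmp ha h4 _ _ h8.symm
  unfold val2
  rw [h7, Matrix.dotProduct_mulVec, ← h9]
  simp only [dotProduct, map_sum, map_mul]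

end

end Pool.CM.EG
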