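import Pool.Agent.H63.CUBE.T1c
import Pool.Agent.H50.CUBE.D7
import Pool.Agent.H63.CUBE.Cmp2

set_option autoImplicit false
set_option linter.unusedSectionVars false
set_option linter.unusedVariables false

/-!
# MP_47888e_al, block E: THEOREM T1

The sum over all cells of the values is one.
-/

open Polynomial Matrix

namespace Pool.CM.EG

open Pool.CM Pool.H93.Cube Pool.CUBE.D

/-- the quotient of a direct sum of packages by the kernel of a compatible functional -/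
def QPSStmt : Prop := ∀ (X : Idx) (E : Type) [Field E] (A : PF X E), A.Ax → A.ext.Ax →
  ∀ (Z : Exn A) (κ : Type) [Fintype κ] [DecidableEq κ] [Nonempty κ] (m : κ → Type)
  [∀ σ, Fintype (m σ)] [∀ σ, DecidableEq (m σ)]
  (G : ∀ σ, Option A.J → Matrix (m σ) (m σ) (RatFunc E)) (chi : ∀ σ, m σ → RatFunc E)
  (e : ∀ σ, m σ) (n : ℕ), Finite A.J → (∀ σ, Pkg A.ext (G σ) (chi σ) (e σ) n) →
  ∀ δ : ∀ σ, m σ → LaurentSeries E, (∀ σ, δ σ (e σ) = 1) →
  (∀ (a : Option A.J) (w : ∀ σ, m σ → RatFunc E),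
    ∑ σ, ∑ b, δ σ b * Z.ex (w σ b) = 0 →
    ∑ σ, ∑ b, δ σ b * Z.ex (opF (A.ext.D a) (G σ a) (w σ) b) = 0) →
  (∀ M, ∃ C, ∀ T : ℤ, X.Ev fun i => ∀ σ, ∃ Phi Phi' : Matrix (m σ) (m σ) (RatFunc E),
    Frob A.ext (G σ) (chi σ) (e σ) n i M C Phi Phi' ∧
      MComp Z i n M C T (δ σ) Phi'.transpose) →
  ∃ (q : ℕ) (eQ : Fin q) (GQ : Option A.J → Matrix (Fin q) (Fin q) (RatFunc E))
    (chiQ : Fin q → RatFunc E) (R : ∀ σ, Matrix (Fin q) (m σ) (RatFunc E)),
    Pkg A.ext GQ chiQ eQ n ∧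
    (∀ w : ∀ σ, m σ → RatFunc E, ∑ σ, R σ *ᵥ w σ = 0 ↔ ∑ σ, ∑ b, δ σ b * Z.ex (w σ b) = 0) ∧
    (∀ σ (a : Option A.J), (R σ).map (A.ext.D a) + GQ a * R σ = R σ * G σ a) ∧
    (∀ σ x, R σ x (e σ) = if x = eQ then 1 else 0) ∧
    (∀ σ, chiQ ᵥ* R σ = chi σ)

/-- the expansion of `E(s)(λ)` at `λ = 0` and `s = ∞` -/
noncomputable def exTL (E : Type) [Field E] :
    RatFunc (RatFunc E) →+* LaurentSeries (LaurentSeries E) :=
  (cmapR (exInf E)).comp (ex (RatFunc E))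

theorem exTL_apply (E : Type) [Field E] (x : RatFunc (RatFunc E)) :
    exTL E x = cmapR (exInf E) (ex (RatFunc E) x) := rfl

/-- the derivative of the value of a horizontal functional -/
theorem val_stable {F K : Type} [Field F] [Field K] (ι : F →+* K) (D : Derivation ℤ F F)
    (DK : K →+ K) (hDK : Leib DK) (hι : ∀ y, DK (ι y) = ι (D y)) {m : Type} [Fintype m]
    (G : Matrix m m F) (x : m → K) (hx : ∀ b, DK (x b) = ∑ a, x a * ι (G a b)) (w : m → F) :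
    ∑ b, x b * ι (opF D G w b) = DK (∑ b, x b * ι (w b)) := by
  have h1 : ∀ b, x b * ι (opF D G w b) = x b * ι (D (w b)) +
      ∑ c, x b * (ι (G b c) * ι (w c)) := by
    intro b
    rw [opF_apply, map_add, map_sum, mul_add, Finset.mul_sum]
    congr 1
    exact Finset.sum_congr rfl fun c _ => by rw [map_mul]
  rw [Finset.sum_congr rfl fun b _ => h1 b, Finset.sum_add_distrib, map_sum]
  have h2 : ∀ b, DK (x b * ι (w b)) = x b * ι (D (w b)) + ∑ a, x a * ι (G a b) * ι (w b) := by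
    intro b
    rw [hDK, hx, hι, Finset.sum_mul]
    ring
  rw [Finset.sum_congr rfl fun b _ => h2 b, Finset.sum_add_distrib]
  congr 1
  rw [Finset.sum_comm]
  exact Finset.sum_congr rfl fun b _ => Finset.sum_congr rfl fun a _ => by ring

variable {X : Idx} {E : Type} [Field E]

/-- **THEOREM T1.** -/
theorem T1 (hfun : FunStmt) (hQPS : QPSStmt) (hTCL : TCLStmt) (hX : XPHStmt) (hLDX : LDXStmt)
    (hTRA : TRAStmt) (hLPK : LPKStmt) (A : PF X E) (hA : A.Ax) (hB : A.ext.Ax)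
    (hC : A.ext.ext.Ax) (hfin : Finite A.J) (Z : Exn A) (hZ : Z.ex = exInf E)
    (hconv : ∀ (i : X.I) (n M C : ℕ) (T : ℤ) (m : Type) [Fintype m] (δ : m → LaurentSeries E)
      (Ph : Matrix m m (RatFunc E)), FUN.MC (FUN.TG.inf A hA) i n M (X.p i * T) (C * X.p i) δ Ph →
      MComp Z i n M C T δ Ph.transpose)
    {κ : Type} [Fintype κ] [DecidableEq κ] [Nonempty κ] {m u v : κ → Type}
    [∀ σ, Fintype (m σ)] [∀ σ, DecidableEq (m σ)] [∀ σ, Fintype (u σ)] [∀ σ, DecidableEq (u σ)]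
    [∀ σ, Fintype (v σ)] [∀ σ, DecidableEq (v σ)]
    (G : ∀ σ, Option (Option A.J) → Matrix (m σ) (m σ) (RatFunc (RatFunc E)))
    (chi : ∀ σ, m σ → RatFunc (RatFunc E)) (e : ∀ σ, m σ) (n : ℕ)
    (P : ∀ σ, Pkg A.ext.ext (G σ) (chi σ) (e σ) n)
    (e' : ∀ σ, u σ) (d : ∀ σ, LD A.ext (G σ) (e σ) (u σ) (e' σ))
    (e'' : ∀ σ, v σ) (d' : ∀ σ, LD A (d σ).G' (e' σ) (v σ) (e'' σ))
    (δ : ∀ σ, m σ → LaurentSeries (LaurentSeries E))
    (hlam : ∀ σ b, nab (δ σ b) = ∑ a, δ σ a * exTL E (G σ none a b))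
    (hder : ∀ σ (j : Option A.J) b,
      cmap (dInf A j) (δ σ b) = ∑ a, δ σ a * exTL E (G σ (some j) a b))
    (he : ∀ σ, δ σ (e σ) = 1)
    (hF : ∀ σ M, ∃ C, ∀ T : ℤ, X.Ev fun i => ∃ Phi Phi' : Matrix (m σ) (m σ) (RatFunc (RatFunc E)),
      Frob A.ext.ext (G σ) (chi σ) (e σ) n i M C Phi Phi' ∧
      FUN.MC ((FUN.TG.inf A hA).lau hX) i n M (X.p i * T) (C * X.p i) (δ σ) Phi')
    (w : ∀ σ, m σ → RatFunc (RatFunc E))
    (hw : ∑ σ, (∑ a, δ σ a * exTL E (w σ a)).coeff 0 = 1) :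
    ∑ σ, val2 (d σ).toLD0 (d' σ).toLD0 (chi σ) (w σ) = 1 := by
  classical
  have hfin' : Finite A.ext.J := inferInstanceAs (Finite (Option A.J))
  -- the constant rows
  choose x hx using fun σ => exists_x (exInf E) (d σ).toLD0 (δ σ) (hlam σ)
  have hxe : ∀ σ, x σ (e' σ) = 1 := by
    intro σ
    have h1 := x_e (exInf E) (d σ).toLD0 (δ σ) (x σ) (hx σ) (e σ) (e' σ) (d σ).Ze
    rw [he σ] at h1
    have h2 : HahnSeries.C (x σ (e' σ)) = (HahnSeries.C (1 : LaurentSeries E) :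
        LaurentSeries (LaurentSeries E)) := by rw [h1, map_one]
    exact HahnSeries.C_injective h2
  have hxD : ∀ σ (j : Option A.J) b, dInf A j (x σ b) = ∑ a, x σ a * exInf E ((d σ).G' j a b) := by
    intro σ j b
    exact x_hor (exInf E) (d σ).toLD0 (δ σ) (x σ) (hx σ) (A.ext.D j) (dInf A j) (dInf_leib A j)
      (exInf_D A j) (G σ (some j)) ((d σ).G' j) ((d σ).hD' j) (hder σ j) b
  have hPk : ∀ σ, Pkg A.ext (d σ).G' ((d σ).chi' (chi σ)) (e' σ) n := fun σ =>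
    (hLPK X (RatFunc E) A.ext hB inferInstance (m σ) (G σ) (chi σ) (e σ) n (P σ) (u σ) (e' σ)
      (d σ)).2
  have hF' : ∀ σ M, ∃ C, ∀ T : ℤ, X.Ev fun i => ∃ Phi Phi' : Matrix (u σ) (u σ) (RatFunc E),
      Frob A.ext (d σ).G' ((d σ).chi' (chi σ)) (e' σ) n i M C Phi Phi' ∧
      FUN.MC (FUN.TG.inf A hA) i n M (X.p i * T) (C * X.p i) (x σ) Phi' := fun σ =>
    lamFrob hfun hTCL hB hC hX hTRA (FUN.TG.inf A hA) (FUN.inf_Rg A hA) (G σ) (chi σ)
      (e σ) n (P σ) (e' σ) (d σ) (x σ) (δ σ) (hx σ) (hF σ)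
  -- the quotient
  obtain ⟨q, eQ, GQ, chiQ, R, hPQ, hR, hRD, hRe, hRchi⟩ := hQPS X E A hA hB Z κ u
    (fun σ => (d σ).G') (fun σ => (d σ).chi' (chi σ)) e' n hfin hPk x hxe (by
      intro a w' hw'
      rw [hZ] at hw' ⊢
      have h1 : ∀ σ, ∑ b, x σ b * exInf E (opF (A.ext.D a) ((d σ).G' a) (w' σ) b) =
          dInf A a (∑ b, x σ b * exInf E (w' σ b)) := fun σ =>
        val_stable (exInf E) (A.ext.D a) (dInf A a) (dInf_leib A a) (exInf_D A a)
          ((d σ).G' a) (x σ) (hxD σ a) (w' σ)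
      rw [Finset.sum_congr rfl fun σ _ => h1 σ, ← map_sum, hw', map_zero]) (by
      intro M
      choose C hC' using fun σ => hF' σ M
      refine ⟨∑ σ, C σ, fun T => ?_⟩
      refine (Idx.Ev.all fun σ => hC' σ T).mono ?_
      intro i hi σ
      obtain ⟨Phi, Phi', h1, h2⟩ := hi σ
      have hle : C σ ≤ ∑ σ, C σ := Finset.single_le_sum (f := C) (fun _ _ => Nat.zero_le _)
        (Finset.mem_univ σ)
      exact ⟨Phi, Phi', Frob_mono hTCL hB h1 hle, hconv i n M _ T _ _ _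
        (MC_mono hB _ h2 le_rfl le_rfl (Nat.mul_le_mul_right _ hle))⟩)
  -- limit data of the quotient
  obtain ⟨v', _, _, e3, ⟨dQ⟩⟩ := hLDX X E A hA (Fin q) GQ chiQ eQ n hPQ
  have hy : ∑ σ, R σ *ᵥ (hvL (d σ).toLD0 (w σ)) = Pi.single eQ 1 := by
    obtain ⟨σ0⟩ := ‹Nonempty κ›
    have h1 := (hR fun σ => if h : σ = σ0 then hvL (d σ).toLD0 (w σ) - Pi.single (e' σ) 1
      else hvL (d σ).toLD0 (w σ)).2 (by
        rw [hZ]
        have h2 : ∀ σ, ∑ b, x σ b * exInf E ((if h : σ = σ0 then hvL (d σ).toLD0 (w σ) -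
            Pi.single (e' σ) 1 else hvL (d σ).toLD0 (w σ)) b) =
            (∑ a, δ σ a * exTL E (w σ a)).coeff 0 - (if σ = σ0 then 1 else 0) := by
          intro σ
          have h3 := x_val (exInf E) (d σ).toLD0 (δ σ) (x σ) (hx σ) (w σ)
          simp only [exTL_apply]
          rw [h3]
          by_cases hσ : σ = σ0
          · rw [dif_pos hσ, if_pos hσ]
            simp only [Pi.sub_apply, map_sub, mul_sub, Finset.sum_sub_distrib]
            congr 1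
            rw [Finset.sum_eq_single (e' σ)]
            · rw [Pi.single_eq_same, map_one, mul_one, hxe]
            · intro b _ hb
              rw [Pi.single_eq_of_ne hb, map_zero, mul_zero]
            · intro h
              exact absurd (Finset.mem_univ _) h
          · rw [dif_neg hσ, if_neg hσ, sub_zero]
        rw [Finset.sum_congr rfl fun σ _ => h2 σ, Finset.sum_sub_distrib, hw,
          Finset.sum_ite_eq' Finset.univ σ0, if_pos (Finset.mem_univ _), sub_self])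
    have h4 : ∀ σ, R σ *ᵥ (if h : σ = σ0 then hvL (d σ).toLD0 (w σ) - Pi.single (e' σ) 1
        else hvL (d σ).toLD0 (w σ)) = R σ *ᵥ (hvL (d σ).toLD0 (w σ)) -
          (if σ = σ0 then Pi.single eQ 1 else 0) := by
      intro σ
      by_cases hσ : σ = σ0
      · rw [dif_pos hσ, if_pos hσ, Matrix.mulVec_sub]
        congr 1
        rw [mulVec_single_one']
        funext y
        rw [hRe, Pi.single_apply]
      · rw [dif_neg hσ, if_neg hσ, sub_zero]
    rw [Finset.sum_congr rfl fun σ _ => h4 σ, Finset.sum_sub_distrib,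
      Finset.sum_ite_eq' Finset.univ σ0, if_pos (Finset.mem_univ _)] at h1
    exact sub_eq_zero.mp h1
  exact t1a (fun σ => (d' σ).toLD0) dQ.toLD0 eQ e3 dQ.Ze chiQ hPQ.chie R
    (fun σ => hRD σ none) (fun σ => (d σ).chi' (chi σ)) hRchi
    (fun σ => hvL (d σ).toLD0 (w σ)) hy

end Pool.CM.EG
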