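import Pool.Agent.H63.CUBE.LFun
import Pool.Agent.H10.CM.All

set_option autoImplicit false
set_option linter.unusedSectionVars false

/-!
# MP_47888e_al, block E, part 9: comparison of limit data, one level

`hvL d v` : the coefficient of order zero of `Z'ᵀ v`; `hcL d chi` : of `chi Z`.
-/

open Matrix Pool.CM Pool.H93.Cube

namespace Pool.CM.EG

variable {E E₂ : Type} [Field E] [Field E₂]

/-- the coefficient of order zero -/
noncomputable def c0L (E : Type) [Field E] : LaurentSeries E →+ E where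
  toFun f := f.coeff 0
  map_zero' := rfl
  map_add' _ _ := rfl

theorem c0L_apply (f : LaurentSeries E) : c0L E f = f.coeff 0 := rfl

theorem coef0 : Coef0 (HahnSeries.C : E →+* LaurentSeries E) (c0L E) where
  lin a x := by
    rw [c0L_apply, HahnSeries.C_mul_eq_smul, HahnSeries.coeff_smul, smul_eq_mul, c0L_apply]
  one := by
    rw [c0L_apply, HahnSeries.coeff_one, if_pos rfl]

section
variable {m u : Type} [Fintype m] [DecidableEq m] [Fintype u] [DecidableEq u]
  {G : Matrix m m (RatFunc E)}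

/-- the vector of coefficients of order zero of `Z'ᵀ v` -/
noncomputable def hvL (d : LD0 G u) (v : m → RatFunc E) : u → E :=
  hv (c0L E) d.Z' (fun a => ex E (v a))

/-- the vector of coefficients of order zero of `chi Z` -/
noncomputable def hcL (d : LD0 G u) (chi : m → RatFunc E) : u → E :=
  hc (c0L E) d.Z (fun a => ex E (chi a))

theorem hvL_apply (d : LD0 G u) (v : m → RatFunc E) (b : u) :
    hvL d v b = (∑ a, d.Z' a b * ex E (v a)).coeff 0 := rfl

theorem hcL_apply (d : LD0 G u) (chi : m → RatFunc E) (b : u) :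
    hcL d chi b = (∑ a, ex E (chi a) * d.Z a b).coeff 0 := rfl

end

theorem scL_coeff_zero (j : E →+* E₂) {a : E₂} (ha : a ≠ 0) (f : LaurentSeries E) :
    (scL j ha f).coeff 0 = j (f.coeff 0) := by
  rw [scL_coeff, zpow_zero, one_mul]

theorem hv_scL (j : E →+* E₂) {a : E₂} (ha : a ≠ 0) {m u : Type} [Fintype m]
    (Z' : Matrix m u (LaurentSeries E)) (v : m → LaurentSeries E) :
    hv (c0L E₂) (Z'.map (scL j ha)) (fun a => scL j ha (v a)) =
      fun b => j (hv (c0L E) Z' v b) := by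
  funext b
  simp only [hv, c0L_apply]
  rw [← scL_coeff_zero j ha]
  congr 1
  simp only [Matrix.mulVec, dotProduct, Matrix.transpose_apply, Matrix.map_apply, map_sum, map_mul]

theorem hc_scL (j : E →+* E₂) {a : E₂} (ha : a ≠ 0) {m u : Type} [Fintype m]
    (Z : Matrix m u (LaurentSeries E)) (chi : m → LaurentSeries E) :
    hc (c0L E₂) (Z.map (scL j ha)) (fun a => scL j ha (chi a)) =
      fun b => j (hc (c0L E) Z chi b) := by
  funext b
  simp only [hc, c0L_apply]
  rw [← scL_coeff_zero j ha]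
  congr 1
  simp only [Matrix.vecMul, dotProduct, Matrix.map_apply, map_sum, map_mul]

theorem ex_nabF (x : RatFunc E) : ex E (nabF E x) = nab (ex E x) := by
  let X : Idx := ⟨ℕ, fun n => (Nat.exists_infinite_primes n).choose,
    fun n => (Nat.exists_infinite_primes n).choose_spec.2,
    fun B => ⟨B + 1, lt_of_lt_of_le (Nat.lt_succ_self B)
      (Nat.exists_infinite_primes (B + 1)).choose_spec.1⟩⟩
  let A : PF X E := ⟨fun _ => ⊤, fun _ => RingHom.id E, fun _ _ => ⊤, fun _ _ => ∅, Empty,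
    Empty.elim⟩
  ext k
  rw [nab_coeff]
  exact (Pool.CM.All.xde X E A x k).1

section cmp
variable {m u m₂ u₂ : Type} [Fintype m] [DecidableEq m] [Fintype u] [DecidableEq u]
  [Fintype m₂] [DecidableEq m₂] [Fintype u₂] [DecidableEq u₂]
  {G : Matrix m m (RatFunc E)} {G₂ : Matrix m₂ m₂ (RatFunc E₂)}

/-- functoriality of limit data with base change and scaling -/
theorem cmp1 (d : LD0 G u) (d₂ : LD0 G₂ u₂) (j : E →+* E₂) {a : E₂} (ha : a ≠ 0)
    (R : Matrix m₂ m (RatFunc E₂))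
    (hR : R.map (nabF E₂) + G₂ * R = R * G.map (scR j ha)) :
    ∃ R' : Matrix u₂ u E₂,
      R.map (ex E₂) * d.Z.map (scL j ha) = d₂.Z * cM R' ∧
      d₂.Z'ᵀ * R.map (ex E₂) = cM R' * (d.Z'.map (scL j ha))ᵀ := by
  have h1 : (R.map (ex E₂)).map (nabD E₂) + G₂.map (ex E₂) * R.map (ex E₂) =
      R.map (ex E₂) * (G.map (ex E)).map (scL j ha) := by
    have h2 := congrArg (fun W : Matrix m₂ m (RatFunc E₂) => W.map (ex E₂)) hR
    have h3 : (R.map (nabF E₂) + G₂ * R).map (ex E₂) =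
        (R.map (ex E₂)).map (nabD E₂) + G₂.map (ex E₂) * R.map (ex E₂) := by
      rw [← Matrix.map_mul]
      refine Matrix.ext fun x y => ?_
      simp only [Matrix.map_apply, Matrix.add_apply, map_add, nabD_apply, ex_nabF]
    have h4 : (R * G.map (scR j ha)).map (ex E₂) =
        R.map (ex E₂) * (G.map (ex E)).map (scL j ha) := by
      rw [Matrix.map_mul]
      congr 1
      refine Matrix.ext fun x y => ?_
      simp only [Matrix.map_apply, ex_scR]
    rw [← h3, ← h4]
    exact h2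
  exact (limJ d j ha).functor nabD_leib (lim1 d₂) (R.map (ex E₂)) h1

theorem hvL_cmp {d : LD0 G u} {d₂ : LD0 G₂ u₂} {j : E →+* E₂} {a : E₂} (ha : a ≠ 0)
    {R : Matrix m₂ m (RatFunc E₂)} {R' : Matrix u₂ u E₂}
    (h : d₂.Z'ᵀ * R.map (ex E₂) = cM R' * (d.Z'.map (scL j ha))ᵀ) (v : m → RatFunc E) :
    hvL d₂ (R *ᵥ fun b => scR j ha (v b)) = R' *ᵥ fun b => j (hvL d v b) := by
  have h1 := hv_mul (coef0 (E := E₂)) (d.Z'.map (scL j ha)) d₂.Z' (R.map (ex E₂)) R' h
    (fun b => scL j ha (ex E (v b)))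
  rw [hv_scL] at h1
  rw [hvL]
  unfold hvL
  rw [← h1]
  congr 1
  funext b
  simp only [Matrix.mulVec, dotProduct, map_sum, map_mul, Matrix.map_apply, ex_scR]

theorem hcL_cmp {d : LD0 G u} {d₂ : LD0 G₂ u₂} {j : E →+* E₂} {a : E₂} (ha : a ≠ 0)
    {R : Matrix m₂ m (RatFunc E₂)} {R' : Matrix u₂ u E₂}
    (h : R.map (ex E₂) * d.Z.map (scL j ha) = d₂.Z * cM R') (chi : m → RatFunc E)
    (chi₂ : m₂ → RatFunc E₂) (hc₂ : chi₂ ᵥ* R = fun b => scR j ha (chi b)) :
    (fun b => j (hcL d chi b)) = hcL d₂ chi₂ ᵥ* R' := by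
  have h1 := hc_mul (coef0 (E := E₂)) (d.Z.map (scL j ha)) d₂.Z (R.map (ex E₂)) R' h
    (fun b => ex E₂ (chi₂ b))
  unfold hcL
  rw [← h1, ← hc_scL j ha]
  congr 1
  funext b
  have h2 := congrArg (ex E₂) (congrFun hc₂ b)
  rw [← ex_scR, ← h2]
  simp only [Matrix.vecMul, dotProduct, map_sum, map_mul, Matrix.map_apply]

/-- the constant matrix `R'` is horizontal for a second derivation -/
theorem cmp1D {d : LD0 G u} {d₂ : LD0 G₂ u₂} {j : E →+* E₂} {a : E₂} (ha : a ≠ 0)
    {R : Matrix m₂ m (RatFunc E₂)} {R' : Matrix u₂ u E₂}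
    (h : R.map (ex E₂) * d.Z.map (scL j ha) = d₂.Z * cM R')
    (D : Derivation ℤ E E) (D₂ : Derivation ℤ E₂ E₂) (hjD : ∀ x, j (D x) = D₂ (j x))
    (hDa : D₂ a = 0) (δ : RatFunc E → RatFunc E) (δ₂ : RatFunc E₂ → RatFunc E₂)
    (hδ₂ : ∀ x, ex E₂ (δ₂ x) = cD D₂ (ex E₂ x))
    {GD : Matrix m m (RatFunc E)} {GD₂ : Matrix m₂ m₂ (RatFunc E₂)}
    {GD' : Matrix u u E} {GD₂' : Matrix u₂ u₂ E₂}
    (hZ : d.Z.map (cD D) + GD.map (ex E) * d.Z = d.Z * cM GD')
    (hZ₂ : d₂.Z.map (cD D₂) + GD₂.map (ex E₂) * d₂.Z = d₂.Z * cM GD₂')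
    (hR : R.map δ₂ + GD₂ * R = R * GD.map (scR j ha)) :
    R'.map D₂ + GD₂' * R' = R' * GD'.map j := by
  set RL := R.map (ex E₂) with hRL
  set ZJ := d.Z.map (scL j ha) with hZJ
  -- derivative of `a ^ k`
  have hak : ∀ k : ℤ, D₂ (a ^ k) = 0 := by
    intro k
    have hn : ∀ n : ℕ, D₂ (a ^ n) = 0 := by
      intro n
      rw [Derivation.leibniz_pow, hDa, smul_zero, smul_zero]
    cases k with
    | ofNat n =>
      rw [Int.ofNat_eq_natCast, zpow_natCast]
      exact hn n
    | negSucc n =>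
      rw [zpow_negSucc, Derivation.leibniz_inv, hn, smul_zero]
  have hsc : ∀ f, cD D₂ (scL j ha f) = scL j ha (cD D f) := by
    intro f
    ext k
    rw [cD_coeff, scL_coeff, scL_coeff, cD_coeff, Derivation.leibniz, hak, smul_zero, add_zero,
      smul_eq_mul, hjD]
  have hRL' : RL.map (cD D₂) + GD₂.map (ex E₂) * RL = RL * (GD.map (ex E)).map (scL j ha) := by
    have h2 := congrArg (fun W : Matrix m₂ m (RatFunc E₂) => W.map (ex E₂)) hR
    have h3 : (R.map δ₂ + GD₂ * R).map (ex E₂) = RL.map (cD D₂) + GD₂.map (ex E₂) * RL := by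
      rw [hRL, ← Matrix.map_mul]
      refine Matrix.ext fun x y => ?_
      simp only [Matrix.map_apply, Matrix.add_apply, map_add, hδ₂]
    have h4 : (R * GD.map (scR j ha)).map (ex E₂) =
        RL * (GD.map (ex E)).map (scL j ha) := by
      rw [Matrix.map_mul, hRL]
      congr 1
      refine Matrix.ext fun x y => ?_
      simp only [Matrix.map_apply, ex_scR]
    rw [← h3, ← h4]
    exact h2
  have hZJ' : ZJ.map (cD D₂) + (GD.map (ex E)).map (scL j ha) * ZJ = ZJ * cM (GD'.map j) := by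
    have h2 := congrArg (fun W : Matrix m u (LaurentSeries E) => W.map (scL j ha)) hZ
    have h3 : (d.Z.map (cD D) + GD.map (ex E) * d.Z).map (scL j ha) =
        ZJ.map (cD D₂) + (GD.map (ex E)).map (scL j ha) * ZJ := by
      rw [hZJ, ← Matrix.map_mul]
      refine Matrix.ext fun x y => ?_
      simp only [Matrix.map_apply, Matrix.add_apply, map_add, hsc]
    have h4 : (d.Z * cM GD').map (scL j ha) = ZJ * cM (GD'.map j) := by
      rw [Matrix.map_mul, hZJ]
      congr 1
      refine Matrix.ext fun x y => ?_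
      simp only [Matrix.map_apply, scL_C]
    rw [← h3, ← h4]
    exact h2
  have hcR : (cM R').map (cD D₂) = cM (R'.map D₂) := by
    refine Matrix.ext fun x y => ?_
    change cD D₂ (HahnSeries.C (R' x y)) = HahnSeries.C (D₂ (R' x y))
    ext k
    rw [cD_coeff, HahnSeries.C_apply, HahnSeries.C_apply]
    by_cases hk : k = 0
    · subst hk
      simp
    · rw [HahnSeries.coeff_single_of_ne hk, HahnSeries.coeff_single_of_ne hk, map_zero]
  -- differentiate `h`
  have h5 := congrArg (fun W : Matrix m₂ u (LaurentSeries E₂) => W.map (cD D₂)) h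
  have h6 : RL.map (cD D₂) * ZJ + RL * ZJ.map (cD D₂) =
      d₂.Z.map (cD D₂) * cM R' + d₂.Z * cM (R'.map D₂) := by
    have := h5
    rw [map_nab_mul (cD_leib D₂), map_nab_mul (cD_leib D₂), hcR] at this
    exact this
  have h7 : d₂.Z * (cM (R'.map D₂) + cM GD₂' * cM R' - cM R' * cM (GD'.map j)) = 0 := by
    have e1 : RL.map (cD D₂) = RL * (GD.map (ex E)).map (scL j ha) - GD₂.map (ex E₂) * RL := by
      rw [← hRL']
      abel
    have e2 : ZJ.map (cD D₂) = ZJ * cM (GD'.map j) - (GD.map (ex E)).map (scL j ha) * ZJ := by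
      rw [← hZJ']
      abel
    have e3 : d₂.Z.map (cD D₂) = d₂.Z * cM GD₂' - GD₂.map (ex E₂) * d₂.Z := by
      rw [← hZ₂]
      abel
    rw [e1, e2, e3] at h6
    rw [Matrix.mul_sub, Matrix.mul_add]
    have e4 : d₂.Z * cM (R'.map D₂) =
        (RL * (GD.map (ex E)).map (scL j ha) - GD₂.map (ex E₂) * RL) * ZJ +
        RL * (ZJ * cM (GD'.map j) - (GD.map (ex E)).map (scL j ha) * ZJ) -
        (d₂.Z * cM GD₂' - GD₂.map (ex E₂) * d₂.Z) * cM R' := by
      rw [h6]
      abel
    rw [e4, ← Matrix.mul_assoc d₂.Z (cM R') (cM (GD'.map j)), ← h]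
    simp only [Matrix.sub_mul, Matrix.mul_sub, Matrix.mul_assoc]
    rw [h]
    abel
  have h8 : cM (R'.map D₂) + cM GD₂' * cM R' - cM R' * cM (GD'.map j) = 0 := by
    have := congrArg (fun W => d₂.Z'ᵀ * W) h7
    rw [← Matrix.mul_assoc, d₂.ZZ, Matrix.one_mul, Matrix.mul_zero] at this
    exact this
  rw [sub_eq_zero, ← Matrix.map_mul, ← Matrix.map_mul] at h8
  refine Matrix.ext fun x y => ?_
  have h9 := congrFun (congrFun h8 x) y
  have h10 : (HahnSeries.C ((R'.map D₂ + GD₂' * R') x y) : LaurentSeries E₂) =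
      HahnSeries.C ((R' * GD'.map j) x y) := by
    rw [Matrix.add_apply, map_add]
    exact h9
  exact HahnSeries.C_injective h10

end cmp

end Pool.CM.EG
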