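import Pool.Agent.H63.CUBE.T1a
import Pool.Agent.H50.CUBE.D2

set_option autoImplicit false
set_option linter.unusedSectionVars false

/-!
# MP_47888e_al, block E: the derivations of `E((1/s))`
-/

open Polynomial

namespace Pool.CM.EG

open Pool.CM Pool.H93.Cube Pool.CUBE.D

variable {X : Idx} {E : Type} [Field E]

theorem neg_leib {K : Type} [CommRing K] {δ : K →+ K} (h : Leib δ) : Leib (-δ) := by
  intro x y
  change -(δ (x * y)) = -(δ x) * y + x * -(δ y)
  rw [h x y]
  ring

/-- coefficientwise action of a map with the Leibniz rule -/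
theorem cmap_leib {K : Type} [Field K] {δ : K →+ K} (h : Leib δ) : Leib (cmap δ) := by
  intro f g
  obtain ⟨a, ha⟩ := exists_bound f
  obtain ⟨b, hb⟩ := exists_bound g
  have ha' : ∀ k < a, (cmap δ f).coeff k = 0 := fun k hk => by rw [cmap_coeff, ha k hk, map_zero]
  have hb' : ∀ k < b, (cmap δ g).coeff k = 0 := fun k hk => by rw [cmap_coeff, hb k hk, map_zero]
  ext k
  rw [cmap_coeff, HahnSeries.coeff_add, coeff_mul_Icc ha hb, coeff_mul_Icc ha' hb,
    coeff_mul_Icc ha hb', map_sum, ← Finset.sum_add_distrib]
  refine Finset.sum_congr rfl fun j _ => ?_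
  rw [h, cmap_coeff, cmap_coeff]

/-- the derivations of `E((1/s))` extending those of `E(s)`: `s d/ds` and the derivations of the
coefficients -/
noncomputable def dInf (A : PF X E) (j : Option A.J) : LaurentSeries E →+ LaurentSeries E :=
  match j with
  | none => -(nabD E)
  | some a => cD (A.D a)

theorem dInf_none (A : PF X E) (f : LaurentSeries E) : dInf A none f = -nab f := rfl

theorem dInf_some (A : PF X E) (a : A.J) (f : LaurentSeries E) :
    dInf A (some a) f = cmap (A.D a : E →+ E) f := rfl

theorem dInf_leib (A : PF X E) (j : Option A.J) : Leib (dInf A j) := by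
  cases j with
  | none => exact neg_leib nabD_leib
  | some a => exact cD_leib (A.D a)

/-- derivations which agree on polynomials agree on rational functions -/
theorem der_rat {K : Type} [Field K] (ι : RatFunc E →+* K) (D : RatFunc E →+ RatFunc E)
    (hD : Leib D) (DK : K →+ K) (hDK : Leib DK)
    (h : ∀ g : E[X], DK (ι (algebraMap E[X] (RatFunc E) g)) = ι (D (algebraMap E[X] (RatFunc E) g)))
    (x : RatFunc E) : DK (ι x) = ι (D x) := by
  obtain ⟨g, q, hq, rfl⟩ := IsFractionRing.div_surjective (A := E[X]) x
  set G := algebraMap E[X] (RatFunc E) g with hG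
  set Q := algebraMap E[X] (RatFunc E) q with hQ
  have hQ0 : Q ≠ 0 := by
    intro h0
    exact nonZeroDivisors.coe_ne_zero ⟨q, hq⟩
      ((IsFractionRing.injective E[X] (RatFunc E)) (by
        change algebraMap E[X] (RatFunc E) q = algebraMap E[X] (RatFunc E) 0
        rw [← hQ, h0, map_zero]))
  have hx : (G / Q) * Q = G := div_mul_cancel₀ _ hQ0
  have h1 : DK (ι (G / Q) * ι Q) = ι (D ((G / Q) * Q)) := by
    rw [← map_mul, hx]
    exact h g
  rw [hDK, hD, map_add, map_mul, map_mul, h q] at h1
  have h2 : DK (ι (G / Q)) * ι Q = ι (D (G / Q)) * ι Q := add_right_cancel h1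
  exact mul_right_cancel₀ ((map_ne_zero ι).mpr hQ0) h2

/-- two additive maps on polynomials which agree on monomials agree -/
theorem add_ext {M : Type} [AddCommGroup M] (f g : E[X] →+ M)
    (h : ∀ (n : ℕ) (a : E), f (monomial n a) = g (monomial n a)) (x : E[X]) : f x = g x := by
  induction x using Polynomial.induction_on' with
  | add p q hp hq => rw [map_add, map_add, hp, hq]
  | monomial n a => exact h n a

theorem infP_monomial (n : ℕ) (a : E) :
    infP E (monomial n a) = HahnSeries.single (-(n : ℤ)) a := by
  change eval₂ _ _ _ = _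
  rw [eval₂_monomial, HahnSeries.single_pow, HahnSeries.C_apply, HahnSeries.single_mul_single]
  simp

theorem nabP_monomial (n : ℕ) (a : E) : nabP E (monomial n a) = monomial n ((n : E) * a) := by
  ext k
  rw [nabP_coeff, coeff_monomial, coeff_monomial]
  by_cases hk : n = k
  · subst hk; simp
  · simp [hk]

theorem dCoeff_monomial (d : Derivation ℤ E E) (n : ℕ) (a : E) :
    dCoeff d (monomial n a) = monomial n (d a) := by
  ext k
  rw [dCoeff_coeff, coeff_monomial, coeff_monomial]
  by_cases hk : n = k
  · subst hk; simp
  · simp [hk]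

theorem cmap_single {K : Type} [Field K] (δ : E →+ K) (k : ℤ) (a : E) :
    cmap δ (HahnSeries.single k a) = HahnSeries.single k (δ a) := by
  ext j
  rw [cmap_coeff]
  by_cases hj : j = k
  · subst hj; simp
  · rw [HahnSeries.coeff_single_of_ne hj, HahnSeries.coeff_single_of_ne hj, map_zero]

/-- a derivation of `PF` as an additive map -/
noncomputable def aD (A : PF X E) (j : A.J) : E →+ E := (A.D j : E →+ E)

theorem aD_apply (A : PF X E) (j : A.J) (x : E) : aD A j x = A.D j x := rfl

theorem aD_leib (A : PF X E) (j : A.J) : Leib (aD A j) := by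
  intro x y
  change A.D j (x * y) = A.D j x * y + x * A.D j y
  rw [(A.D j).leibniz, smul_eq_mul, smul_eq_mul]
  ring

/-- the derivations commute with the expansion at infinity -/
theorem exInf_D (A : PF X E) (j : Option A.J) (x : RatFunc E) :
    dInf A j (exInf E x) = exInf E (A.ext.D j x) := by
  refine der_rat (exInf E) (aD A.ext j) (aD_leib A.ext j) (dInf A j) (dInf_leib A j) ?_ x
  intro g
  cases j with
  | none =>
    have h1 : aD A.ext none (algebraMap E[X] (RatFunc E) g) =
        algebraMap E[X] (RatFunc E) (nabP E g) := fd_algebraMap _ _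
    rw [h1, exInf_algebraMap, exInf_algebraMap]
    refine add_ext ((dInf A none).comp
      (infP E : E[X] →+ LaurentSeries E)) ((infP E : E[X] →+ LaurentSeries E).comp
        (nabP E : E[X] →+ E[X])) ?_ g
    intro n a
    change dInf A none (infP E (monomial n a)) = infP E (nabP E (monomial n a))
    rw [nabP_monomial, infP_monomial, infP_monomial, dInf_none, nab_single]
    push_cast
    rw [neg_mul]
    ext k
    by_cases hk : k = -(n : ℤ)
    · subst hk; simp
    · rw [HahnSeries.coeff_neg, HahnSeries.coeff_single_of_ne hk, HahnSeries.coeff_single_of_ne hk,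
        neg_zero]
  | some a =>
    have h1 : aD A.ext (some a) (algebraMap E[X] (RatFunc E) g) =
        algebraMap E[X] (RatFunc E) (dCoeff (A.D a) g) := fd_algebraMap _ _
    rw [h1, exInf_algebraMap, exInf_algebraMap]
    refine add_ext ((dInf A (some a)).comp
      (infP E : E[X] →+ LaurentSeries E)) ((infP E : E[X] →+ LaurentSeries E).comp
        (dCoeff (A.D a) : E[X] →+ E[X])) ?_ g
    intro n b
    change dInf A (some a) (infP E (monomial n b)) = infP E (dCoeff (A.D a) (monomial n b))
    rw [dCoeff_monomial, infP_monomial, infP_monomial, dInf_some]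
    exact cmap_single _ _ _

end Pool.CM.EG
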