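import Pool.Agent.H63.CUBE.FinStmts
import Pool.Agent.H7.CUBE.J_DIR

set_option autoImplicit false
set_option linter.unusedSectionVars false
set_option linter.unusedVariables false

/-!
# MP_47888e_al, block E: the normalisation of the Dirichlet functional
-/

open Finset MvPolynomial Pool.CM

namespace Pool.CM.EG

open Pool.CM Pool.H93.Cube Pool.CUBE Pool.H44.Cube

theorem ioz : IozStmt := by
  intro E _ _ n g
  rw [← J_DIR.io_eq]
  induction g using MvPolynomial.induction_on' with
  | add p q hp hq => rw [map_add, map_add, hp, hq]
  | monomial a c =>
    rw [Io, IoQ, linMon_monomial, linMon_monomial]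
    congr 1
    rw [map_div₀, map_natCast, map_natCast, Nat.cast_prod]

end Pool.CM.EG
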