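import Pool.Agent.H63.CUBE.T2X
import Pool.Agent.H63.CUBE.Ioz
import Pool.Agent.H41.CUBE.JAll
import Pool.Agent.H93.CUBE.LimAll
import Pool.Agent.H91.CUBE.FunLimStmt

set_option autoImplicit false
set_option linter.unusedSectionVars false
set_option linter.unusedVariables false

/-!
# MP_47888e_al, block E: the final contradiction

`core` : the core statement over number fields from the interface statements.
-/

open Finset MvPolynomial Pool.CM

namespace Pool.CM.EG

open Pool.CM Pool.H93.Cube Pool.CUBE Pool.H44.Cube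

/-- lemma FUN -/
theorem funEG : FunStmt := fun _ _ _ A hA hE hX _ _ T hT _ _ _ _ _ Z Z' hZZ x δ hδ =>
  FUN.funlim A hA hE hX T hT Z Z' hZZ x δ hδ

/-- T1 -/
theorem t1u : T1Stmt := t1 funEG LimAll.ldx LimAll.tra LimAll.lpk

/-- the value is zero if a base change of the form is a corner form -/
theorem kill (hT2 : T2CStmt) {X : Idx} {E : Type} [Field E] [CharZero E] (A : PF X E) (hA : A.Ax)
    (hfin : Finite A.J) {n D : ℕ} (hD : 0 < D) (N g : Poly n E) (hN : N.IsHomogeneous D)
    (hg : Wt D g)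
    (κ : E →+* RatFunc E) (Kc : Corner n E) (hKc : Kc.D = D) {a : RatFunc E} (ha : a ≠ 0)
    (hcmp : map κ N = C a * NK Kc) (T : TD A.ext.ext n D (Psl D N))
    {u v : Type} [Fintype u] [DecidableEq u] [Fintype v] [DecidableEq v] {e' : u} {e'' : v}
    (d : LD A.ext (fun j => matG (A.ext.ext.D j) (Psl D N) T.b T.co) none u e')
    (d' : LD A d.G' e' v e'') :
    val2 d.toLD0 d'.toLD0 (fun a => if a = none then 1 else 0) (T.co (om g)) = 0 := by
  classical
  subst hKc
  have c1 : CharZero (RatFunc E) := algebraRat.charZero _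
  have c2 : CharZero (RatFunc (RatFunc E)) := algebraRat.charZero _
  have hB := All.ext X E A hA
  have hC := All.ext X (RatFunc E) A.ext hB
  have hC2 := All.ext X (RatFunc (RatFunc E)) A.ext.ext hC
  have hfin1 : Finite A.ext.J := inferInstanceAs (Finite (Option A.J))
  have hfin2 : Finite A.ext.ext.J := inferInstanceAs (Finite (Option (Option A.J)))
  have hN' : (NK Kc).IsHomogeneous Kc.D := NK_hom Kc
  have hP0 : (P0s Kc.D (NK Kc)).IsHomogeneous Kc.D := by
    unfold P0s
    refine IsHomogeneous.sub ?_ (hN'.map _)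
    have h2 : (Sg n (RatFunc (RatFunc E))).IsHomogeneous 1 := by
      unfold Sg
      exact IsHomogeneous.sum _ _ _ fun i _ => isHomogeneous_X _ i
    have h3 := h2.pow Kc.D
    rw [one_mul] at h3
    have h4 := (isHomogeneous_C (Fin (n + 1)) (RatFunc.X : RatFunc (RatFunc E))).mul h3
    rwa [zero_add] at h4
  obtain ⟨T'⟩ : Nonempty (TD A.ext.ext.ext n Kc.D (Psl Kc.D (NK Kc))) :=
    exists_TDf TAll.tame TAll.tferm A.ext.ext.ext hC2 hD hP0
  obtain ⟨u', iu1, iu2, f', ⟨f⟩⟩ := LimAll.ldx X (RatFunc (RatFunc E)) A.ext.ext hC (Option T'.N)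
    (fun j => matG (A.ext.ext.ext.D j) (Psl Kc.D (NK Kc)) T'.b T'.co)
    (fun a => if a = none then 1 else 0) none n T'.pkg
  have hPk : Pkg A.ext.ext f.G' (f.chi' (fun a => if a = none then 1 else 0)) f' n :=
    (LimAll.lpk X (RatFunc (RatFunc E)) A.ext.ext hC hfin2 (Option T'.N)
      (fun j => matG (A.ext.ext.ext.D j) (Psl Kc.D (NK Kc)) T'.b T'.co)
      (fun a => if a = none then 1 else 0) none n T'.pkg u' f' f).2
  obtain ⟨v', iv1, iv2, f'', ⟨f2⟩⟩ := LimAll.ldx X (RatFunc E) A.ext hB u' f.G'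
    (f.chi' (fun a => if a = none then 1 else 0)) f' n hPk
  have hg' : Wt Kc.D (map κ g) := by
    intro b hb
    refine hg b fun h0 => hb ?_
    rw [coeff_map, h0, map_zero]
  have h1 := val2_cmp JAll.bc A A.ext κ ha hD hN hN' hcmp hg T T' d d' f f2
  have h2 := hT2 X E A hA hfin n Kc T' u' f' f v' f'' f2 (map κ g) hg'
  rw [h2] at h1
  exact (map_eq_zero κ).1 h1.symm

theorem LA_eq_Lf {n : ℕ} {K : Type} [Field K] [CharZero K] (P : MvPolynomial (Fin n) K) :
    LA n K P = Pool.Agent.H4.Cube.Lf P := by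
  induction P using MvPolynomial.induction_on' with
  | add p q hp hq => rw [map_add, map_add, hp, hq]
  | monomial a c =>
    rw [LA_monomial, Pool.Agent.H4.Cube.Lf_monomial, map_prod]
    congr 1
    refine Finset.prod_congr rfl fun i _ => ?_
    rw [map_inv₀, map_natCast]

/-- **The core statement** over number fields. -/
theorem core (hJ1 : JT1Stmt) (hT2 : T2CStmt) (hCell : CellStmt) (hDeg : DegStmt)
    (hNat : NatStmt) : CoreStmt := by
  classical
  intro K _ _ n f hf
  by_contra hne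
  obtain ⟨Ns, ε, B, hdet, hmin, hsum⟩ := subz f hne
  choose κ0 hκ0 hmin' using hmin
  choose D1 hD1 using fun s => hCell K n (B s) (flip (ε s) f) (κ0 s) (hκ0 s) (hmin' s) (hdet s)
  choose D2 hD2 using fun s => hDeg K n (B s) (flip (ε s) f)
  obtain ⟨E, _, _, A, ι, θ, hA, hfin, hG⟩ := Gn.tower K n
  obtain ⟨D, hD, hDD1, hDD2⟩ : ∃ D : ℕ, 0 < D ∧ (∀ s, D1 s ≤ D) ∧ (∀ s, D2 s ≤ D) := by
    refine ⟨1 + ∑ s, (D1 s + D2 s), by omega, fun s => ?_, fun s => ?_⟩
    · have := Finset.single_le_sum (f := fun s => D1 s + D2 s) (fun _ _ => Nat.zero_le _)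
        (Finset.mem_univ s)
      omega
    · have := Finset.single_le_sum (f := fun s => D1 s + D2 s) (fun _ _ => Nat.zero_le _)
        (Finset.mem_univ s)
      omega
  set N : Fin Ns → Poly n E := fun s => cellN D ι (side θ (ε s)) (B s) (flip (ε s) f) with hNdef
  set g : Fin Ns → Poly n E := fun s => C (bvol θ (ε s)) * cW E D (B s) with hgdef
  have hN : ∀ s, (N s).IsHomogeneous D := fun s => (hD2 s D (hDD2 s) E ι _).2
  have hg : ∀ s, Wt D (g s) := by
    intro s b hb
    refine (hD2 s D (hDD2 s) E ι (side θ (ε s))).1 b fun h0 => hb ?_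
    rw [hgdef, coeff_C_mul, h0, mul_zero]
  have hI : ∀ k : ℕ, ∑ s, IoQ (g s * N s ^ k) = if k = 0 then 1 else 0 := by
    intro k
    have h1 := hsum E ι θ D k
    have h2 : ι (LA n K (f ^ k)) = if k = 0 then 1 else 0 := by
      rw [LA_eq_Lf]
      split
      · rename_i hk
        rw [hk, pow_zero, Pool.Agent.H4.Cube.Lf_one, map_one]
      · rename_i hk
        rw [hf k (Nat.one_le_iff_ne_zero.2 hk), map_zero]
    rw [← h2, h1]
    refine Finset.sum_congr rfl fun s _ => ?_
    have e1 : cellW n E D (B s) * cellN D ι (side θ (ε s)) (B s) (flip (ε s) f) ^ k =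
        PZ (n + 1) E * (cW E D (B s) * N s ^ k) := by
      rw [cellW, mul_assoc]
      rfl
    have e2 : g s * N s ^ k = (bvol θ (ε s)) • (cW E D (B s) * N s ^ k) := by
      rw [MvPolynomial.smul_eq_C_mul, ← mul_assoc]
    rw [e1, e2, ioz, map_smul, smul_eq_mul]
  obtain ⟨s, T, u, _, _, e', d, v, _, _, e'', d', hval⟩ := t1conc t1u TAll.tame TAll.tferm JAll.jt0
    JAll.jtn hJ1 LimAll.ldx LimAll.lpk A hA hfin hD N g hN hg hI
  apply hval
  obtain ⟨κ, hκι, hκθ⟩ := hG.lift ((RatFunc.C (K := E)).comp ι) (fun i => if ε s i then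
      1 - RatFunc.C (θ i) * (RatFunc.X : RatFunc E) ^ colw (B s) i else
      RatFunc.C (θ i) * RatFunc.X ^ colw (B s) i) (hG.sides (colw (B s)) (ε s))
  have hθ0 : ∀ i, θ i ≠ 0 := by
    intro i h0
    have h1 : (X i : MvPolynomial (Fin n) K) = 0 := hG.ind _ (by rw [eval₂_X, h0])
    exact X_ne_zero i h1
  obtain ⟨Kc, a, ha, hKD, hcell⟩ := hD1 s D (hDD1 s) E ι θ hθ0
  refine kill hT2 A hA hfin hD (N s) (g s) (hN s) (hg s) κ Kc hKD ha ?_ T d d'
  rw [← hcell]
  have h1 := (hNat K E (RatFunc E) n D (B s) (flip (ε s) f) ι κ (side θ (ε s))).2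
  rw [hNdef]
  simp only
  rw [h1]
  have h2 : κ.comp ι = (RatFunc.C (K := E)).comp ι := RingHom.ext hκι
  have h3 : (fun i => κ (side θ (ε s) i)) =
      fun i => RatFunc.C (θ i) * (RatFunc.X : RatFunc E) ^ colw (B s) i := by
    funext i
    rw [side]
    split
    · rename_i hi
      rw [map_sub, map_one, hκθ, if_pos hi]
      ring
    · rename_i hi
      rw [hκθ, if_neg hi]
  rw [h2, h3]

end Pool.CM.EG
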