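import Pool.Agent.H63.CUBE.Kill
import Pool.Agent.H38.CUBE.JJDefs
import Pool.Agent.H44.Cube.SUB7
import Pool.Agent.H10.CM.Gen
import Pool.Agent.H10.CM.Red1

set_option autoImplicit false
set_option linter.unusedSectionVars false
set_option linter.unusedVariables false

/-!
# MP_47888e_al, block E: the interface statements of the final step

`CellStmt`, `WtStmt`, `HomStmt`, `NatStmt`, `IozStmt` (helper44's block SUB in helper38's and
helper41's notation) and `T2CStmt` (THEOREM T2 for corner cells).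
-/

open Finset MvPolynomial Pool.CM

namespace Pool.CM.EG

open Pool.CM Pool.H93.Cube Pool.CUBE Pool.H44.Cube

/-- the form of a corner cell over `E(τ)`, `∑_k τ ^ k G_k` -/
noncomputable def NK {n : ℕ} {E : Type} [Field E] (Kc : Corner n E) : Poly n (RatFunc E) :=
  ∑ k ∈ Finset.range ((1 + Kc.w).natDegree + 1),
    C ((RatFunc.X : RatFunc E) ^ k) * map (RatFunc.C (K := E)) (Kc.G k)

/-- the cell form of a cell with a minimal exponent, over `E(τ)`, is a corner form up to a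
constant -/
def CellStmt : Prop := ∀ (K : Type) [Field K] (n : ℕ) (B : Matrix (Fin n) (Fin n) ℕ)
  (g : MvPolynomial (Fin n) K) (κ0 : Fin n →₀ ℕ), κ0 ∈ g.support →
  (∀ κ ∈ g.support, ∀ l, act B (κ0 : Fin n → ℕ) l ≤ act B (κ : Fin n → ℕ) l) →
  (detZ B = 1 ∨ detZ B = -1) → ∃ D0 : ℕ, ∀ D, D0 ≤ D →
  ∀ (E : Type) [Field E] [CharZero E] (ι : K →+* E) (b : Fin n → E), (∀ i, b i ≠ 0) →
  ∃ (Kc : Corner n E) (a : RatFunc E), a ≠ 0 ∧ Kc.D = D ∧
    cellN D ((RatFunc.C (K := E)).comp ι)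
      (fun i => RatFunc.C (b i) * (RatFunc.X : RatFunc E) ^ colw B i) B g = C a * NK Kc

/-- the weight of a cell -/
noncomputable def cW {n : ℕ} (E : Type) [CommRing E] (D : ℕ) (B : Matrix (Fin n) (Fin n) ℕ) :
    Poly n E := hz n E (D - (n + 1)) (wt E B)

/-- level of the weight, degree of the form, for large `D` -/
def DegStmt : Prop := ∀ (K : Type) [Field K] (n : ℕ) (B : Matrix (Fin n) (Fin n) ℕ)
  (g : MvPolynomial (Fin n) K), ∃ D0 : ℕ, ∀ D, D0 ≤ D →
  ∀ (E : Type) [Field E] (ι : K →+* E) (ϑ : Fin n → E),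
    Wt D (cW E D B) ∧ (cellN D ι ϑ B g).IsHomogeneous D

/-- naturality -/
def NatStmt : Prop := ∀ (K E E' : Type) [Field K] [Field E] [Field E'] (n D : ℕ)
  (B : Matrix (Fin n) (Fin n) ℕ) (g : MvPolynomial (Fin n) K) (ι : K →+* E) (f : E →+* E')
  (ϑ : Fin n → E), map f (cW E D B) = cW E' D B ∧
    map f (cellN D ι ϑ B g) = cellN D (f.comp ι) (fun i => f (ϑ i)) B g

/-- the two normalisations of the Dirichlet functional -/
def IozStmt : Prop := ∀ (E : Type) [Field E] [CharZero E] (n : ℕ) (g : Poly n E),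
  IZ (n + 1) E (PZ (n + 1) E * g) = IoQ g

/-- the two descriptions of the pencil of a corner cell -/
def PKStmt : Prop := ∀ (E : Type) [Field E] (n : ℕ) (Kc : Corner n E),
  Psl Kc.D (NK Kc) = Kc.P

/-- THEOREM T2 for the corner cells -/
def T2CStmt : Prop := ∀ (X : Idx) (E : Type) [Field E] [CharZero E] (A : PF X E), A.Ax →
  Finite A.J → ∀ (n : ℕ) (Kc : Corner n E) (T : TD A.ext.ext.ext n Kc.D (Psl Kc.D (NK Kc)))
  (u : Type) [Fintype u] [DecidableEq u] (e' : u)
  (d : LD A.ext.ext (fun j => matG (A.ext.ext.ext.D j) (Psl Kc.D (NK Kc)) T.b T.co) none u e')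
  (v : Type) [Fintype v] [DecidableEq v] (e'' : v) (d' : LD A.ext d.G' e' v e'')
  (g : Poly n (RatFunc E)), Wt Kc.D g →
  val2 d.toLD0 d'.toLD0 (fun a => if a = none then 1 else 0) (T.co (om g)) = 0

end Pool.CM.EG
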