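import Mathlib

set_option autoImplicit false

/-!
# MP_47888e_al, block E, part 3: functoriality of the limit (characteristic zero part)

`𝓛` a commutative ring with a derivation `∇`, `c : E → 𝓛` the constants, `c0 : 𝓛 → E` the
coefficient of order zero. `Lim0 c nab G` : the unipotent solution matrices of the connection
`∇ + G` (`Z`, `Z'`, `B`).
-/

open Matrix

namespace Pool.CM.EG

variable {E 𝓛 : Type} [Field E] [CommRing 𝓛]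

/-- the Leibniz rule -/
def Leib (nab : 𝓛 →+ 𝓛) : Prop := ∀ x y, nab (x * y) = nab x * y + x * nab y

theorem map_nab_mul {nab : 𝓛 →+ 𝓛} (hn : Leib nab) {m k l : Type} [Fintype k]
    (R : Matrix m k 𝓛) (S : Matrix k l 𝓛) :
    (R * S).map nab = R.map nab * S + R * S.map nab := by
  refine Matrix.ext fun a b => ?_
  simp only [Matrix.map_apply, Matrix.mul_apply, Matrix.add_apply, map_sum]
  rw [← Finset.sum_add_distrib]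
  exact Finset.sum_congr rfl fun c _ => hn _ _

/-- unipotent solutions of `∇ + G` and of the dual connection `∇ - Gᵀ` -/
structure Lim0 (c : E →+* 𝓛) (nab : 𝓛 →+ 𝓛) {N : Type} [Fintype N] [DecidableEq N]
    (U : Type) [Fintype U] [DecidableEq U] (G : Matrix N N 𝓛) where
  Z : Matrix N U 𝓛
  Z' : Matrix N U 𝓛
  B : Matrix U U E
  nil : IsNilpotent B
  hZ : Z.map nab + G * Z = Z * B.map c
  hZ' : Z'.map nab - Gᵀ * Z' = -(Z' * (B.map c)ᵀ)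
  hZZ : Z'ᵀ * Z = 1
  comp : ∀ (κ : Type) [Fintype κ] [DecidableEq κ] (V : Matrix N κ 𝓛) (C : Matrix κ κ E),
    IsNilpotent C → V.map nab + G * V = V * C.map c → ∃ x : Matrix U κ E, V = Z * x.map c
  comp' : ∀ (κ : Type) [Fintype κ] [DecidableEq κ] (V : Matrix N κ 𝓛) (C : Matrix κ κ E),
    IsNilpotent C → V.map nab - Gᵀ * V = V * C.map c → ∃ x : Matrix U κ E, V = Z' * x.map c

namespace Lim0

variable {c : E →+* 𝓛} {nab : 𝓛 →+ 𝓛}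
variable {N₁ N₂ U₁ U₂ : Type} [Fintype N₁] [DecidableEq N₁] [Fintype N₂] [DecidableEq N₂]
  [Fintype U₁] [DecidableEq U₁] [Fintype U₂] [DecidableEq U₂]
  {G₁ : Matrix N₁ N₁ 𝓛} {G₂ : Matrix N₂ N₂ 𝓛}

/-- functoriality for a horizontal matrix `R` -/
theorem functor (hn : Leib nab) (P₁ : Lim0 c nab U₁ G₁) (P₂ : Lim0 c nab U₂ G₂) (R : Matrix N₂ N₁ 𝓛)
    (hR : R.map nab + G₂ * R = R * G₁) :
    ∃ R' : Matrix U₂ U₁ E, R * P₁.Z = P₂.Z * R'.map c ∧ P₂.Z'ᵀ * R = R'.map c * P₁.Z'ᵀ := by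
  have h1 : (R * P₁.Z).map nab + G₂ * (R * P₁.Z) = (R * P₁.Z) * P₁.B.map c := by
    have e1 : G₂ * (R * P₁.Z) = R * G₁ * P₁.Z - R.map nab * P₁.Z := by
      rw [← hR, Matrix.add_mul, Matrix.mul_assoc]
      abel
    rw [map_nab_mul hn, e1, Matrix.mul_assoc R P₁.Z, ← P₁.hZ, Matrix.mul_add, Matrix.mul_assoc]
    abel
  obtain ⟨R', hR'⟩ := P₂.comp U₁ _ P₁.B P₁.nil h1
  refine ⟨R', hR', ?_⟩
  have h2 : (Rᵀ * P₂.Z').map nab - G₁ᵀ * (Rᵀ * P₂.Z') =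
      (Rᵀ * P₂.Z') * (-(P₂.Bᵀ)).map c := by
    have e0 : (Rᵀ).map nab + Rᵀ * G₂ᵀ = G₁ᵀ * Rᵀ := by
      have := congrArg Matrix.transpose hR
      rw [Matrix.transpose_add, Matrix.transpose_mul, Matrix.transpose_mul] at this
      rw [← this]
      rfl
    have e1 : P₂.Z'.map nab = G₂ᵀ * P₂.Z' - P₂.Z' * (P₂.B.map c)ᵀ := by
      have := P₂.hZ'
      rw [sub_eq_iff_eq_add] at this
      rw [this]
      abel
    have e2 : G₁ᵀ * (Rᵀ * P₂.Z') = (Rᵀ).map nab * P₂.Z' + Rᵀ * G₂ᵀ * P₂.Z' := by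
      rw [← Matrix.mul_assoc, ← e0, Matrix.add_mul]
    have e3 : (-(P₂.Bᵀ)).map c = -((P₂.B.map c)ᵀ) := by
      ext a b
      simp
    rw [map_nab_mul hn, e1, e2, e3, Matrix.mul_sub, Matrix.mul_neg]
    simp only [Matrix.mul_assoc]
    abel
  have hnil : IsNilpotent (-(P₂.Bᵀ)) := by
    obtain ⟨n, hn⟩ := P₂.nil
    refine ⟨n, ?_⟩
    rw [neg_pow, ← Matrix.transpose_pow, hn, Matrix.transpose_zero, mul_zero]
  obtain ⟨S, hS⟩ := P₁.comp' U₂ _ _ hnil h2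
  have h3 : P₂.Z'ᵀ * R = (S.map c)ᵀ * P₁.Z'ᵀ := by
    have := congrArg Matrix.transpose hS
    rw [Matrix.transpose_mul, Matrix.transpose_transpose, Matrix.transpose_mul] at this
    exact this
  have h4 : (S.map c)ᵀ = R'.map c := by
    calc (S.map c)ᵀ = (S.map c)ᵀ * (P₁.Z'ᵀ * P₁.Z) := by rw [P₁.hZZ, Matrix.mul_one]
      _ = P₂.Z'ᵀ * R * P₁.Z := by rw [h3, Matrix.mul_assoc]
      _ = P₂.Z'ᵀ * (P₂.Z * R'.map c) := by rw [Matrix.mul_assoc, hR']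
      _ = R'.map c := by rw [← Matrix.mul_assoc, P₂.hZZ, Matrix.one_mul]
  rw [h3, h4]

end Lim0

/-- the coefficient of order zero -/
structure Coef0 (c : E →+* 𝓛) (c0 : 𝓛 →+ E) : Prop where
  lin : ∀ a x, c0 (c a * x) = a * c0 x
  one : c0 1 = 1

/-- the vector of the coefficients of order zero of `Z'ᵀ v` -/
def hv (c0 : 𝓛 →+ E) {N U : Type} [Fintype N] (Z' : Matrix N U 𝓛) (v : N → 𝓛) : U → E :=
  fun u => c0 ((Z'ᵀ *ᵥ v) u)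

/-- the coefficients of order zero of `chi Z` -/
def hc (c0 : 𝓛 →+ E) {N U : Type} [Fintype N] (Z : Matrix N U 𝓛) (chi : N → 𝓛) : U → E :=
  fun u => c0 ((chi ᵥ* Z) u)

theorem hv_mul {c : E →+* 𝓛} {c0 : 𝓛 →+ E} (h0 : Coef0 c c0) {N₁ N₂ U₁ U₂ : Type}
    [Fintype N₁] [Fintype N₂] [Fintype U₁] (Z₁' : Matrix N₁ U₁ 𝓛)
    (Z₂' : Matrix N₂ U₂ 𝓛) (R : Matrix N₂ N₁ 𝓛) (R' : Matrix U₂ U₁ E)
    (h : Z₂'ᵀ * R = R'.map c * Z₁'ᵀ) (v : N₁ → 𝓛) :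
    hv c0 Z₂' (R *ᵥ v) = R' *ᵥ hv c0 Z₁' v := by
  funext u
  unfold hv
  rw [Matrix.mulVec_mulVec, h, ← Matrix.mulVec_mulVec]
  simp only [Matrix.mulVec, dotProduct, Matrix.map_apply, map_sum, h0.lin]

theorem hc_mul {c : E →+* 𝓛} {c0 : 𝓛 →+ E} (h0 : Coef0 c c0) {N₁ N₂ U₁ U₂ : Type}
    [Fintype N₁] [Fintype N₂] [Fintype U₂] (Z₁ : Matrix N₁ U₁ 𝓛)
    (Z₂ : Matrix N₂ U₂ 𝓛) (R : Matrix N₂ N₁ 𝓛) (R' : Matrix U₂ U₁ E)
    (h : R * Z₁ = Z₂ * R'.map c) (chi : N₂ → 𝓛) :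
    hc c0 Z₁ (chi ᵥ* R) = hc c0 Z₂ chi ᵥ* R' := by
  funext u
  unfold hc
  rw [Matrix.vecMul_vecMul, h, ← Matrix.vecMul_vecMul]
  simp only [Matrix.vecMul, dotProduct, Matrix.map_apply, map_sum]
  refine Finset.sum_congr rfl fun x _ => ?_
  rw [mul_comm, h0.lin, mul_comm, map_sum]

/-- the value `chi'' h(v)` does not change under a horizontal matrix `R` with
`chi₂ R = chi₁`, `v₂ = R v₁` -/
theorem val_functor {c : E →+* 𝓛} {nab : 𝓛 →+ 𝓛} (hn : Leib nab) {c0 : 𝓛 →+ E}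
    (h0 : Coef0 c c0) {N₁ N₂ U₁ U₂ : Type} [Fintype N₁] [DecidableEq N₁] [Fintype N₂] [DecidableEq N₂]
    [Fintype U₁] [DecidableEq U₁] [Fintype U₂] [DecidableEq U₂]
    {G₁ : Matrix N₁ N₁ 𝓛} {G₂ : Matrix N₂ N₂ 𝓛} (P₁ : Lim0 c nab U₁ G₁) (P₂ : Lim0 c nab U₂ G₂)
    (R : Matrix N₂ N₁ 𝓛) (hR : R.map nab + G₂ * R = R * G₁) (chi : N₂ → 𝓛) (v : N₁ → 𝓛) :
    hc c0 P₁.Z (chi ᵥ* R) ⬝ᵥ hv c0 P₁.Z' v = hc c0 P₂.Z chi ⬝ᵥ hv c0 P₂.Z' (R *ᵥ v) := by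
  obtain ⟨R', h1, h2⟩ := P₁.functor hn P₂ R hR
  rw [hc_mul h0 _ _ R R' h1, hv_mul h0 _ _ R R' h2, ← Matrix.dotProduct_mulVec]

end Pool.CM.EG
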