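import Pool.Agent.H63.CUBE.QEx

set_option autoImplicit false
set_option linter.unusedSectionVars false

/-!
# MP_47888e_al, block E, part 5: the kernel of a functional; block diagonal matrices
-/

open Matrix

namespace Pool.CM.EG

variable {E : Type} [Field E] {N : Type} [Fintype N] [DecidableEq N]
variable {K : Type} [CommRing K]

/-- the kernel in `E ^ N` of a row `δ` with entries in an extension `K` of `E` -/
def kerRow (ι : E →+* K) (δ : N → K) : Submodule E (N → E) where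
  carrier := {v | δ ⬝ᵥ (fun a => ι (v a)) = 0}
  add_mem' := by
    intro v w hv hw
    simp only [Set.mem_ofPred_eq, dotProduct] at hv hw ⊢
    simp only [Pi.add_apply, map_add, mul_add, Finset.sum_add_distrib, hv, hw, add_zero]
  zero_mem' := by simp [dotProduct]
  smul_mem' := by
    intro c v hv
    simp only [Set.mem_ofPred_eq, dotProduct] at hv ⊢
    simp only [Pi.smul_apply, smul_eq_mul, map_mul]
    have : ∀ x, δ x * (ι c * ι (v x)) = ι c * (δ x * ι (v x)) := fun x => by ring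
    simp only [this, ← Finset.mul_sum, hv, mul_zero]

theorem mem_kerRow (ι : E →+* K) (δ : N → K) (v : N → E) :
    v ∈ kerRow ι δ ↔ δ ⬝ᵥ (fun a => ι (v a)) = 0 := Iff.rfl

/-- the kernel of a horizontal functional is stable under the connection -/
theorem kerRow_stable (ι : E →+* K) (D : Derivation ℤ E E) (DK : Derivation ℤ K K)
    (hD : ∀ x, DK (ι x) = ι (D x)) (δ : N → K) (G : Matrix N N E)
    (hδ : ∀ b, DK (δ b) = (δ ᵥ* G.map ι) b) (v : N → E) (hv : v ∈ kerRow ι δ) :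
    Dv1 D v + G *ᵥ v ∈ kerRow ι δ := by
  rw [mem_kerRow] at hv ⊢
  have h1 : DK (δ ⬝ᵥ (fun a => ι (v a))) = 0 := by rw [hv, map_zero]
  have h2 : δ ⬝ᵥ (fun a => ι ((G *ᵥ v) a)) = (δ ᵥ* G.map ι) ⬝ᵥ (fun a => ι (v a)) := by
    rw [← Matrix.dotProduct_mulVec]
    congr 1
    funext a
    simp only [Matrix.mulVec, dotProduct, map_sum, map_mul, Matrix.map_apply]
  have h3 : δ ⬝ᵥ (fun a => ι ((Dv1 D v + G *ᵥ v) a)) =
      δ ⬝ᵥ (fun a => ι (D (v a))) + δ ⬝ᵥ (fun a => ι ((G *ᵥ v) a)) := by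
    simp only [dotProduct, Pi.add_apply, map_add, mul_add, Finset.sum_add_distrib, Dv1]
  rw [h3, h2, ← h1]
  simp only [dotProduct, map_sum]
  rw [← Finset.sum_add_distrib]
  refine Finset.sum_congr rfl fun a _ => ?_
  rw [Derivation.leibniz, hδ, hD, smul_eq_mul, smul_eq_mul]
  ring

/-! ### block diagonal matrices -/

section Blk

variable {S : Type} [Fintype S] [DecidableEq S] {Ns : S → Type} [∀ σ, Fintype (Ns σ)]
  [∀ σ, DecidableEq (Ns σ)]

/-- a vector of the block `σ`, extended by zero -/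
def blkVec (σ : S) (v : Ns σ → E) : (Σ σ, Ns σ) → E :=
  fun x => if h : x.1 = σ then v (h ▸ x.2) else 0

theorem blkVec_same (σ : S) (v : Ns σ → E) (a : Ns σ) : blkVec σ v ⟨σ, a⟩ = v a := by
  simp [blkVec]

theorem blkVec_ne {σ τ : S} (h : τ ≠ σ) (v : Ns σ → E) (a : Ns τ) :
    blkVec σ v ⟨τ, a⟩ = 0 := by
  simp [blkVec, h]

/-- a family of vectors as one vector -/
def totVec (v : ∀ σ, Ns σ → E) : (Σ σ, Ns σ) → E := fun x => v x.1 x.2

theorem totVec_eq (v : ∀ σ, Ns σ → E) : totVec v = ∑ σ, blkVec σ (v σ) := by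
  funext ⟨τ, a⟩
  rw [Finset.sum_apply, Finset.sum_eq_single τ]
  · rw [blkVec_same]
    rfl
  · intro σ _ hσ
    exact blkVec_ne (Ne.symm hσ) _ _
  · intro h
    exact absurd (Finset.mem_univ _) h

theorem sum_sigma_dot (u v : (Σ σ, Ns σ) → E) :
    u ⬝ᵥ v = ∑ σ, (fun a => u ⟨σ, a⟩) ⬝ᵥ (fun a => v ⟨σ, a⟩) := by
  simp only [dotProduct]
  rw [← Finset.univ_sigma_univ, Finset.sum_sigma]

theorem blk_mulVec {K' : Type} (T : Matrix K' (Σ σ, Ns σ) E) (σ : S) (v : Ns σ → E) :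
    T *ᵥ blkVec σ v = (Matrix.of fun k a => T k ⟨σ, a⟩) *ᵥ v := by
  funext k
  change (fun x => T k x) ⬝ᵥ blkVec σ v = _
  rw [sum_sigma_dot, Finset.sum_eq_single σ]
  · simp only [blkVec_same]
    rfl
  · intro τ _ hτ
    simp only [blkVec_ne hτ, dotProduct, mul_zero, Finset.sum_const_zero]
  · intro h
    exact absurd (Finset.mem_univ _) h

variable {X : Idx} {A : PF X E} {i : X.I}

theorem MO.blk {R : ∀ σ, Matrix (Ns σ) (Ns σ) E} (h : ∀ σ, MO A i (R σ)) :
    MO A i (Matrix.blockDiagonal' R) := by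
  rintro ⟨σ, a⟩ ⟨τ, b⟩
  by_cases hστ : σ = τ
  · subst hστ
    rw [Matrix.blockDiagonal'_apply_eq]
    exact h σ a b
  · rw [Matrix.blockDiagonal'_apply_ne _ _ _ hστ]
    exact (A.O i).zero_mem

theorem MD.blk {M : ℕ} {R : ∀ σ, Matrix (Ns σ) (Ns σ) E} (h : ∀ σ, MD A i M (R σ)) :
    MD A i M (Matrix.blockDiagonal' R) := by
  rintro ⟨σ, a⟩ ⟨τ, b⟩
  by_cases hστ : σ = τ
  · subst hστ
    rw [Matrix.blockDiagonal'_apply_eq]
    exact h σ a b
  · rw [Matrix.blockDiagonal'_apply_ne _ _ _ hστ]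
    exact dv_zero A i

theorem blk_map (f : E → E) (hf : f 0 = 0) (R : ∀ σ, Matrix (Ns σ) (Ns σ) E) :
    (Matrix.blockDiagonal' R).map f = Matrix.blockDiagonal' fun σ => (R σ).map f :=
  Matrix.blockDiagonal'_map _ _ hf

end Blk

end Pool.CM.EG
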