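import Pool.Agent.H63.CUBE.T1g

set_option autoImplicit false
set_option linter.unusedSectionVars false
set_option linter.unusedVariables false

/-!
# MP_47888e_al, block E: comparison of the values over two base fields
-/

open Finset MvPolynomial Pool.CM

namespace Pool.CM.EG

open Pool.CM Pool.H93.Cube Pool.CUBE

variable {X X₂ : Idx} {E E₂ : Type} [Field E] [Field E₂]

/-- the two constants agree -/
theorem cst_eq (a : E) : cst a = algebraMap E (RatFunc E) a := rfl

theorem scR_cst (j : E →+* E₂) {a : E₂} (ha : a ≠ 0) (x : E) :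
    scR j ha (algebraMap E (RatFunc E) x) = algebraMap E₂ (RatFunc E₂) (j x) := by
  apply ex_injective E₂
  rw [ex_scR, FUN.ex_algE, FUN.ex_algE, scL_C]

theorem scR_X (j : E →+* E₂) {a : E₂} (ha : a ≠ 0) :
    scR j ha RatFunc.X = algebraMap E₂ (RatFunc E₂) a * RatFunc.X := by
  rw [← RatFunc.algebraMap_X, scR_algebraMap]
  have h1 : scP j a Polynomial.X = Polynomial.C a * Polynomial.X := by
    unfold scP
    rw [Polynomial.coe_eval₂RingHom, Polynomial.eval₂_X]
  rw [h1, map_mul, RatFunc.algebraMap_X]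
  rfl

theorem leib_one {F : Type} [Field F] {δ : F →+ F} (h : Leib δ) : δ 1 = 0 := by
  have h1 := h 1 1
  rw [mul_one, one_mul, mul_one] at h1
  exact left_eq_add.mp h1

theorem leib_pow {F : Type} [Field F] {δ : F →+ F} (h : Leib δ) {c : F} (hc : δ c = 0) (n : ℕ) :
    δ (c ^ n) = 0 := by
  induction n with
  | zero => rw [pow_zero, leib_one h]
  | succ n ih => rw [pow_succ, h, ih, hc, zero_mul, mul_zero, add_zero]

theorem leib_zpow {F : Type} [Field F] {δ : F →+ F} (h : Leib δ) {c : F} (hc0 : c ≠ 0)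
    (hc : δ c = 0) (k : ℤ) : δ (c ^ k) = 0 := by
  obtain ⟨n, rfl | rfl⟩ := k.eq_nat_or_neg
  · rw [zpow_natCast]
    exact leib_pow h hc n
  · rw [zpow_neg, zpow_natCast]
    have h1 : δ (c ^ n * (c ^ n)⁻¹) = 0 := by
      rw [mul_inv_cancel₀ (pow_ne_zero n hc0), leib_one h]
    rw [h, leib_pow h hc, zero_mul, zero_add] at h1
    exact (mul_eq_zero.mp h1).resolve_left (pow_ne_zero n hc0)

/-- `s`-derivation on two levels and the substitution -/
theorem ds_scR2 (A : PF X E) (A₂ : PF X₂ E₂) (j : E →+* E₂) {a : E₂} (ha : a ≠ 0)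
    (x : RatFunc (RatFunc E)) :
    A₂.ext.ext.D (some none) (scR2 j ha x) = scR2 j ha (A.ext.ext.D (some none) x) := by
  apply ex_injective (RatFunc E₂)
  have h1 : ∀ y : RatFunc (RatFunc E₂), ex (RatFunc E₂) (A₂.ext.ext.D (some none) y) =
      cD (nabF E₂) (ex (RatFunc E₂) y) := by
    intro y
    ext1
    funext k
    rw [cD_coeff]
    exact (Pool.CM.All.xde X₂ (RatFunc E₂) A₂.ext y k).2 none
  have h2 : ex (RatFunc E) (A.ext.ext.D (some none) x) = cD (nabF E) (ex (RatFunc E) x) := by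
    ext1
    funext k
    rw [cD_coeff]
    exact (Pool.CM.All.xde X (RatFunc E) A.ext x k).2 none
  refine (h1 _).trans ?_
  rw [scR2, ex_scR, ex_scR]
  refine Eq.trans ?_ (congrArg _ h2.symm)
  ext1
  funext k
  rw [cD_coeff, scL_coeff, scL_coeff, cD_coeff]
  have h4 := aD_leib A₂.ext none
  have h3 := leib_zpow h4 (cst_ne ha) (nabF_cst a) k
  have h5 := h4 (cst a ^ k) (scR j ha ((ex (RatFunc E) x).coeff k))
  rw [h3, zero_mul, zero_add] at h5
  refine h5.trans ?_
  congr 1
  exact nabF_scR j ha _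

theorem ds_cc2 (A₂ : PF X₂ E₂) (a : E₂) : A₂.ext.ext.D (some none) (cc2 E₂ a) = 0 := by
  apply ex_injective (RatFunc E₂)
  have h1 : ∀ y : RatFunc (RatFunc E₂), ex (RatFunc E₂) (A₂.ext.ext.D (some none) y) =
      cD (nabF E₂) (ex (RatFunc E₂) y) := by
    intro y
    ext1
    funext k
    rw [cD_coeff]
    exact (Pool.CM.All.xde X₂ (RatFunc E₂) A₂.ext y k).2 none
  refine (h1 _).trans ?_
  rw [map_zero, cc2, RingHom.comp_apply, FUN.ex_algE]
  ext1
  funext k
  rw [cD_coeff, HahnSeries.C_apply]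
  by_cases hk : k = 0
  · subst hk
    rw [HahnSeries.coeff_single_same]
    exact nabF_cst a
  · rw [HahnSeries.coeff_single_of_ne hk, map_zero]
    rfl

theorem scR2_cc2 (j : E →+* E₂) {a : E₂} (ha : a ≠ 0) (x : E) :
    scR2 j ha (cc2 E x) = cc2 E₂ (j x) := by
  rw [scR2, cc2, cc2, RingHom.comp_apply, RingHom.comp_apply, scR_cst, scR_cst]

theorem scR2_s (j : E →+* E₂) {a : E₂} (ha : a ≠ 0) :
    scR2 j ha (sVar E) = cc2 E₂ a * sVar E₂ := by
  rw [scR2, sVar, sVar, cc2, RingHom.comp_apply, scR_cst, scR_X, map_mul]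

theorem scR2_lam (j : E →+* E₂) {a : E₂} (ha : a ≠ 0) :
    scR2 j ha RatFunc.X = cc2 E₂ a * RatFunc.X := by
  rw [scR2, scR_X]
  rfl

section
variable {n D : ℕ}

/-- the base change of the pencil -/
theorem map_Psl (j : E →+* E₂) {a : E₂} (ha : a ≠ 0) (N : Poly n E) (N' : Poly n E₂)
    (hN : map j N = C a * N') :
    map (scR2 j ha) (Psl D N) = C (cc2 E₂ a) * Psl D N' := by
  have h1 : map (scR2 j ha) (map (algebraMap (RatFunc E) (RatFunc (RatFunc E)))
      (map (algebraMap E (RatFunc E)) N)) = C (cc2 E₂ a) *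
        map (algebraMap (RatFunc E₂) (RatFunc (RatFunc E₂)))
          (map (algebraMap E₂ (RatFunc E₂)) N') := by
    rw [MvPolynomial.map_map, MvPolynomial.map_map, MvPolynomial.map_map]
    have h2 : (scR2 j ha).comp ((algebraMap (RatFunc E) (RatFunc (RatFunc E))).comp
        (algebraMap E (RatFunc E))) = (cc2 E₂).comp j := by
      ext x
      exact scR2_cc2 j ha x
    rw [RingHom.comp_assoc, h2, ← MvPolynomial.map_map, hN, map_mul, map_C]
    rfl
  have h3 : map (scR2 j ha) (map (algebraMap (RatFunc E) (RatFunc (RatFunc E)))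
      (C RatFunc.X * Sg n (RatFunc E) ^ D)) = C (cc2 E₂ a) *
        map (algebraMap (RatFunc E₂) (RatFunc (RatFunc E₂)))
          (C RatFunc.X * Sg n (RatFunc E₂) ^ D) := by
    have h4 : scR2 j ha (algebraMap (RatFunc E) (RatFunc (RatFunc E)) RatFunc.X) =
        cc2 E₂ a * algebraMap (RatFunc E₂) (RatFunc (RatFunc E₂)) RatFunc.X := scR2_s j ha
    simp only [map_mul, map_pow, map_C, Sg, map_sum, map_X]
    rw [h4, map_mul]
    ring
  have h5 : map (scR2 j ha) (C RatFunc.X * ∑ i, X i ^ D : Poly n (RatFunc (RatFunc E))) =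
      C (cc2 E₂ a) * (C RatFunc.X * ∑ i, X i ^ D) := by
    rw [map_mul, map_C, scR2_lam, map_sum, map_mul]
    simp only [map_pow, map_X]
    ring
  unfold Psl ferm P0s
  rw [map_add, map_sub, map_sub, map_sub, h1, h3, h5]
  ring

theorem scl_om (D : ℕ) (hD : 0 < D) (b : RatFunc (RatFunc E)) (g : Poly n (RatFunc (RatFunc E)))
    (hg : Wt D g) : Pool.CUBE.scl D b g = C b⁻¹ * g := by
  have h1 : ∀ a : Fin (n + 1) →₀ ℕ, a.degree + (n + 1) = D →
      Pool.CUBE.scl D b (monomial a 1) = C b⁻¹ * (monomial a 1 : Poly n (RatFunc (RatFunc E))) := by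
    intro a ha
    rw [Pool.CUBE.scl, linMon_monomial, one_smul, ha, if_pos (dvd_refl D), Nat.div_self hD, pow_one,
      C_mul_monomial, mul_one]
  have h2 : g = ∑ a ∈ g.support, coeff a g • (monomial a 1 : Poly n (RatFunc (RatFunc E))) := by
    conv_lhs => rw [g.as_sum]
    exact Finset.sum_congr rfl fun a _ => by
      rw [MvPolynomial.smul_monomial, smul_eq_mul, mul_one]
  calc Pool.CUBE.scl D b g = ∑ a ∈ g.support, coeff a g • (C b⁻¹ * (monomial a 1 :
        Poly n (RatFunc (RatFunc E)))) := by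
        conv_lhs => rw [h2]
        rw [map_sum]
        refine Finset.sum_congr rfl fun a ha => ?_
        rw [map_smul, h1 a (hg a (mem_support_iff.1 ha))]
    _ = C b⁻¹ * g := by
        conv_rhs => rw [h2]
        rw [Finset.mul_sum]
        exact Finset.sum_congr rfl fun a _ => by rw [mul_smul_comm]

/-- **Comparison of values**: base change `j : E → E₂` and scaling by `a`. -/
theorem val2_cmp (hBC : BCStmt) [CharZero E] [CharZero E₂] (A : PF X E) (A₂ : PF X₂ E₂)
    (j : E →+* E₂) {a : E₂} (ha : a ≠ 0) (hD : 0 < D) {N g : Poly n E} {N' : Poly n E₂}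
    (hN : N.IsHomogeneous D) (hN' : N'.IsHomogeneous D) (hjN : map j N = C a * N')
    (hg : Wt D g) (T : TD A.ext.ext n D (Psl D N)) (T' : TD A₂.ext.ext n D (Psl D N'))
    {u v u' v' : Type} [Fintype u] [DecidableEq u] [Fintype v] [DecidableEq v] [Fintype u']
    [DecidableEq u'] [Fintype v'] [DecidableEq v'] {e' : u} {e'' : v} {f' : u'} {f'' : v'}
    (d : LD A.ext (fun j => matG (A.ext.ext.D j) (Psl D N) T.b T.co) none u e')
    (d' : LD A d.G' e' v e'')
    (f : LD A₂.ext (fun j => matG (A₂.ext.ext.D j) (Psl D N') T'.b T'.co) none u' f')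
    (f2 : LD A₂ f.G' f' v' f'') :
    val2 f.toLD0 f2.toLD0 (fun a => if a = none then 1 else 0) (T'.co (om (map j g))) =
      j (val2 d.toLD0 d'.toLD0 (fun a => if a = none then 1 else 0) (T.co (om g))) := by
  have c1 : CharZero (RatFunc (RatFunc E)) := algebraRat.charZero _
  have c2 : CharZero (RatFunc (RatFunc E₂)) := algebraRat.charZero _
  have ha2 : cc2 E₂ a ≠ 0 := (map_ne_zero _).mpr ha
  obtain ⟨h1, h2, h3, h4⟩ := hBC (RatFunc (RatFunc E)) (RatFunc (RatFunc E₂)) (scR2 j ha) n D hD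
    (Psl D N) (Psl D N') (cc2 E₂ a) ha2 (Psl_hom hN) (Psl_hom hN') (map_Psl j ha N N' hjN)
    T.N T'.N T.co T'.co T.b T'.b T.l T'.l T.isco T'.isco T.b0 T'.b0 T.bs T'.bs
    (fun x => (T.red x.1 x.2).2) (fun x => (T'.red x.1 x.2).2) T'.chi0
  have hwt : Wt D (om g) := om_Wt hg
  refine cmp2 A₂ j ha d.toLD0 (d.hD none) d'.toLD0 f.toLD0 (f.hD none) f2.toLD0
    (matR (scR2 j ha) D (cc2 E₂ a) T.b T'.co) ?_ ?_ _ (T.co (om g)) _ _ ?_ ?_
  · refine h2 (nabF (RatFunc E)) (nabF (RatFunc E₂)) (fun x => nabF_scR (scR j ha) (cst_ne ha) x) ?_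
    exact nabF_cst (algebraMap E₂ (RatFunc E₂) a)
  · exact h2 (A.ext.ext.D (some none)) (A₂.ext.ext.D (some none)) (fun x => ds_scR2 A A₂ j ha x)
      (ds_cc2 A₂ a)
  · funext b
    change ∑ x, (if x = none then 1 else 0) * matR (scR2 j ha) D (cc2 E₂ a) T.b T'.co x b = _
    rw [Finset.sum_eq_single none]
    · rw [if_pos rfl, one_mul, h3]
      split
      · rw [map_one]
      · rw [map_zero]
    · intro x _ hx
      rw [if_neg hx, zero_mul]
    · intro h
      exact absurd (Finset.mem_univ _) h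
  · rw [← h1 (om g) (GFL.WtD_of_Wt (m := 1) (by rw [mul_one]; exact hwt))]
    congr 1
    have hwt2 : Wt D (map (scR2 j ha) (om g)) := by
      intro b hb
      refine hwt b fun h0 => hb ?_
      rw [coeff_map, h0, map_zero]
    rw [scl_om D hD _ _ hwt2]
    rw [om, om, map_mul, map_C, scR2_s, MvPolynomial.map_map, MvPolynomial.map_map, map_mul, ← mul_assoc, ← mul_assoc,
      ← map_mul, inv_mul_cancel₀ ha2, map_one, one_mul]
    have h9 : (cc2 E₂).comp j = (scR2 j ha).comp (cc2 E) :=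
      RingHom.ext fun x => (scR2_cc2 j ha x).symm
    rw [h9]

end

end Pool.CM.EG
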