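import Pool.Agent.H10.CM.PF

set_option autoImplicit false

/-!
# MP_47888e_al, block E, part 7: base change `j : E → E₂` combined with the scaling `x ↦ a x`
-/

open Polynomial

namespace Pool.CM.EG

variable {E E₂ : Type} [Field E] [Field E₂] (j : E →+* E₂) (a : E₂)

/-- polynomials -/
noncomputable def scP : E[X] →+* E₂[X] := eval₂RingHom (C.comp j) (C a * X)

theorem scP_coeff (g : E[X]) (n : ℕ) : (scP j a g).coeff n = a ^ n * j (g.coeff n) := by
  unfold scP
  rw [coe_eval₂RingHom, eval₂_eq_sum_range]
  simp only [RingHom.comp_apply, mul_pow, ← C_pow, finsetSum_coeff]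
  by_cases hn : n < g.natDegree + 1
  · rw [Finset.sum_eq_single_of_mem n (Finset.mem_range.2 hn)]
    · rw [coeff_C_mul, coeff_C_mul, coeff_X_pow, if_pos rfl]
      ring
    · intro b _ hb
      rw [coeff_C_mul, coeff_C_mul, coeff_X_pow, if_neg (Ne.symm hb)]
      ring
  · rw [coeff_eq_zero_of_natDegree_lt (by omega), map_zero, mul_zero]
    refine Finset.sum_eq_zero fun b hb => ?_
    have := Finset.mem_range.1 hb
    rw [coeff_C_mul, coeff_C_mul, coeff_X_pow, if_neg (by omega)]
    ring

variable {a}

theorem scP_injective (ha : a ≠ 0) : Function.Injective (scP j a) := by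
  intro g h hgh
  ext n
  have := congrArg (fun q => q.coeff n) hgh
  simp only [scP_coeff] at this
  exact j.injective (mul_left_cancel₀ (pow_ne_zero _ ha) this)

theorem scP_le (ha : a ≠ 0) :
    nonZeroDivisors E[X] ≤ (nonZeroDivisors E₂[X]).comap (scP j a) := by
  intro g hg
  rw [Submonoid.mem_comap, mem_nonZeroDivisors_iff_ne_zero]
  rw [mem_nonZeroDivisors_iff_ne_zero] at hg
  intro h
  exact hg (scP_injective j ha (by rw [h, map_zero]))

/-- rational functions -/
noncomputable def scR (ha : a ≠ 0) : RatFunc E →+* RatFunc E₂ :=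
  RatFunc.mapRingHom (scP j a) (scP_le j ha)

theorem scR_algebraMap (ha : a ≠ 0) (g : E[X]) :
    scR j ha (algebraMap E[X] (RatFunc E) g) = algebraMap E₂[X] (RatFunc E₂) (scP j a g) := by
  unfold scR
  rw [RatFunc.coe_mapRingHom_eq_coe_map]
  have := RatFunc.map_apply_div (scP j a) (scP_le j ha) g 1
  simpa using this

/-- scaling of a Laurent series -/
noncomputable def scF (ha : a ≠ 0) (f : LaurentSeries E) : LaurentSeries E₂ where
  coeff k := a ^ k * j (f.coeff k)
  isPWO_support' := by
    have h : (Function.support fun k => a ^ k * j (f.coeff k)) = f.support := by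
      ext k
      rw [Function.mem_support, HahnSeries.mem_support]
      rw [mul_ne_zero_iff, and_iff_right (zpow_ne_zero _ ha), _root_.map_ne_zero]
    rw [h]
    exact f.isPWO_support

theorem scF_coeff (ha : a ≠ 0) (f : LaurentSeries E) (k : ℤ) :
    (scF j ha f).coeff k = a ^ k * j (f.coeff k) := rfl

theorem scF_support (ha : a ≠ 0) (f : LaurentSeries E) (k : ℤ) :
    k ∈ (scF j ha f).support ↔ k ∈ f.support := by
  rw [HahnSeries.mem_support, HahnSeries.mem_support, scF_coeff, mul_ne_zero_iff,
    and_iff_right (zpow_ne_zero _ ha), _root_.map_ne_zero]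

/-- Laurent series -/
noncomputable def scL (ha : a ≠ 0) : LaurentSeries E →+* LaurentSeries E₂ where
  toFun := scF j ha
  map_one' := by
    ext k
    rw [scF_coeff, HahnSeries.coeff_one, HahnSeries.coeff_one]
    split_ifs with h
    · rw [h]
      simp
    · simp
  map_zero' := by
    ext k
    rw [scF_coeff]
    simp
  map_add' f g := by
    ext k
    rw [HahnSeries.coeff_add, scF_coeff, scF_coeff, scF_coeff, HahnSeries.coeff_add, map_add,
      mul_add]
  map_mul' f g := by
    ext k
    rw [scF_coeff, HahnSeries.coeff_mul, HahnSeries.coeff_mul, map_sum, Finset.mul_sum]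
    refine Finset.sum_congr ?_ fun x hx => ?_
    · ext x
      rw [Finset.mem_antidiagonal, Finset.mem_antidiagonal, scF_support, scF_support]
    · have hk : x.1 + x.2 = k := (Finset.mem_antidiagonal.1 hx).2.2
      rw [scF_coeff, scF_coeff, ← hk, zpow_add₀ ha, map_mul]
      ring

theorem scL_coeff (ha : a ≠ 0) (f : LaurentSeries E) (k : ℤ) :
    (scL j ha f).coeff k = a ^ k * j (f.coeff k) := rfl

theorem scL_C (ha : a ≠ 0) (x : E) : scL j ha (HahnSeries.C x) = HahnSeries.C (j x) := by
  ext k
  rw [scL_coeff, HahnSeries.C_apply, HahnSeries.C_apply]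
  by_cases hk : k = 0
  · subst hk
    simp
  · rw [HahnSeries.coeff_single_of_ne hk, HahnSeries.coeff_single_of_ne hk, map_zero, mul_zero]

theorem scL_exP (ha : a ≠ 0) (g : E[X]) : scL j ha (exP E g) = exP E₂ (scP j a g) := by
  ext k
  rw [scL_coeff]
  rcases lt_or_ge k 0 with hk | hk
  · rw [exP_coeff_neg _ _ hk, exP_coeff_neg _ _ hk, map_zero, mul_zero]
  · obtain ⟨n, rfl⟩ := Int.eq_ofNat_of_zero_le hk
    rw [exP_coeff_nat, exP_coeff_nat, scP_coeff, zpow_natCast]

/-- expansion commutes with the substitution -/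
theorem ex_scR (ha : a ≠ 0) (x : RatFunc E) : ex E₂ (scR j ha x) = scL j ha (ex E x) := by
  obtain ⟨u, w, hw, rfl⟩ := IsFractionRing.div_surjective (A := E[X]) x
  rw [map_div₀, map_div₀, map_div₀, map_div₀, scR_algebraMap, scR_algebraMap, ex_algebraMap,
    ex_algebraMap, ex_algebraMap, ex_algebraMap, scL_exP, scL_exP]

end Pool.CM.EG
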