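import Pool.Agent.H93.CUBE.LDefs
import Pool.Agent.H63.CUBE.Fun
import Pool.Agent.H63.CUBE.Scale

set_option autoImplicit false
set_option linter.unusedSectionVars false

/-!
# MP_47888e_al, block E, part 8: limit data (`LD0` of `LDefs`) and functoriality

`LD0.lim1` : limit data as `Lim0`; `LD0.limJ` : the same after a base change `j : E → E₂` and the
scaling `x ↦ a x`.
-/

open Matrix Pool.CM Pool.H93.Cube

namespace Pool.CM.EG

variable {E E₂ : Type} [Field E] [Field E₂]

/-- `x d/dx` on Laurent series -/
noncomputable def nabD (E : Type) [Field E] : LaurentSeries E →+ LaurentSeries E :=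
  (nab (E := E)).toAddMonoidHom

theorem nabD_apply (f : LaurentSeries E) : nabD E f = nab f := rfl

theorem nabD_leib : Leib (nabD E) := fun x y => nab_mul x y

theorem map_nabD {m k : Type} (R : Matrix m k (LaurentSeries E)) :
    R.map (nabD E) = R.map nab := rfl

/-- a derivation of `E` on the coefficients -/
noncomputable def cD (D : Derivation ℤ E E) : LaurentSeries E →+ LaurentSeries E :=
  cmap (D : E →+ E)

theorem cD_leib (D : Derivation ℤ E E) : Leib (cD D) := fun x y => cmap_mul D x y

theorem cD_coeff (D : Derivation ℤ E E) (f : LaurentSeries E) (k : ℤ) :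
    (cD D f).coeff k = D (f.coeff k) := rfl

theorem nab_const {k l : Type} (B : Matrix k l E) : (cM B).map (nabD E) = 0 := by
  refine Matrix.ext fun a b => ?_
  change nab (HahnSeries.C (B a b)) = 0
  rw [nab_C]

/-- iteration of the operator on the columns of a matrix -/
theorem op_pow_col {m k : Type} [Fintype m] [DecidableEq m] [Fintype k] [DecidableEq k]
    (G : Matrix m m (LaurentSeries E)) (V : Matrix m k (LaurentSeries E)) (C : Matrix k k E)
    (h : V.map (nabD E) + G * V = V * cM C) (q : ℕ) (b : k) :
    ((op G) ^ q) (fun a => V a b) = fun a => (V * cM (C ^ q)) a b := by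
  induction q with
  | zero =>
    rw [pow_zero, pow_zero]
    have : (cM (1 : Matrix k k E)) = 1 := Matrix.map_one _ (map_zero _) (map_one _)
    rw [this, Matrix.mul_one]
    rfl
  | succ q ih =>
    rw [pow_succ', Module.End.mul_apply, ih]
    have h1 : (V * cM (C ^ q)).map (nabD E) + G * (V * cM (C ^ q)) = V * cM (C ^ (q + 1)) := by
      rw [map_nab_mul nabD_leib, nab_const, Matrix.mul_zero, add_zero, ← Matrix.mul_assoc, ← Matrix.add_mul,
        h, Matrix.mul_assoc, pow_succ']
      congr 1
      rw [← Matrix.map_mul]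
    funext a
    have h2 := congrFun (congrFun h1 a) b
    rw [← h2, Matrix.add_apply, op_apply, Matrix.mul_apply]
    rfl

theorem scL_nab (j : E →+* E₂) {a : E₂} (ha : a ≠ 0) (f : LaurentSeries E) :
    nab (scL j ha f) = scL j ha (nab f) := by
  ext k
  rw [nab_coeff, scL_coeff, scL_coeff, nab_coeff, map_mul, map_intCast]
  ring

theorem scL_comp_inv (j : E →+* E₂) {a : E₂} (ha : a ≠ 0) (f : LaurentSeries E) :
    scL (RingHom.id E₂) (inv_ne_zero ha) (scL j ha f) = cmapR j f := by
  ext k
  rw [scL_coeff, scL_coeff, cmapR_coeff, RingHom.id_apply, ← mul_assoc, _root_.inv_zpow,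
    inv_mul_cancel₀ (zpow_ne_zero _ ha), one_mul]

theorem scL_inv_comp {a : E₂} (ha : a ≠ 0) (f : LaurentSeries E₂) :
    scL (RingHom.id E₂) ha (scL (RingHom.id E₂) (inv_ne_zero ha) f) = f := by
  ext k
  rw [scL_coeff, scL_coeff, RingHom.id_apply, RingHom.id_apply, ← mul_assoc, _root_.inv_zpow,
    mul_inv_cancel₀ (zpow_ne_zero _ ha), one_mul]

theorem scL_cmapR (j : E →+* E₂) {a : E₂} (ha : a ≠ 0) (f : LaurentSeries E) :
    scL (RingHom.id E₂) ha (cmapR j f) = scL j ha f := by
  ext k
  rw [scL_coeff, scL_coeff, cmapR_coeff, RingHom.id_apply]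

section
variable {m u : Type} [Fintype m] [DecidableEq m] [Fintype u] [DecidableEq u]

/-- completeness for matrices of solutions after base change and scaling -/
theorem compJ (j : E →+* E₂) {a : E₂} (ha : a ≠ 0) (G : Matrix m m (LaurentSeries E))
    (Z : Matrix m u (LaurentSeries E))
    (hc : ∀ (q : ℕ) (v : m → LaurentSeries E₂), ((op (G.map (cmapR j))) ^ q) v = 0 →
      ∃ x : u → E₂, ∀ a, v a = ∑ b, cmapR j (Z a b) * HahnSeries.C (x b))
    {κ : Type} [Fintype κ] [DecidableEq κ] (V : Matrix m κ (LaurentSeries E₂))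
    (C : Matrix κ κ E₂) (hC : IsNilpotent C)
    (h : V.map (nabD E₂) + G.map (scL j ha) * V = V * cM C) :
    ∃ x : Matrix u κ E₂, V = Z.map (scL j ha) * cM x := by
  set T := scL (RingHom.id E₂) (inv_ne_zero ha) with hT
  set V' := V.map T with hV'
  have h1 : V'.map (nabD E₂) + G.map (cmapR j) * V' = V' * cM C := by
    have e1 := congrArg (fun M : Matrix m κ (LaurentSeries E₂) => M.map T) h
    have e2 : (V.map (nabD E₂) + G.map (scL j ha) * V).map T =
        V'.map (nabD E₂) + G.map (cmapR j) * V' := by
      have e3 : (V.map (nabD E₂) + G.map (scL j ha) * V).map T =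
          (V.map (nabD E₂)).map T + (G.map (scL j ha)).map T * V.map T := by
        rw [← Matrix.map_mul]
        refine Matrix.ext fun x y => ?_
        simp only [Matrix.map_apply, Matrix.add_apply, map_add]
      rw [e3]
      congr 1
      · refine Matrix.ext fun x y => ?_
        simp only [Matrix.map_apply, hV', nabD_apply]
        exact (scL_nab (RingHom.id E₂) (inv_ne_zero ha) _).symm
      · congr 1
        refine Matrix.ext fun x y => ?_
        simp only [Matrix.map_apply]
        exact scL_comp_inv j ha _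
    have e4 : (V * cM C).map T = V' * cM C := by
      rw [Matrix.map_mul]
      congr 1
      refine Matrix.ext fun x y => ?_
      simp only [Matrix.map_apply]
      exact scL_C _ _ _
    rw [← e2, ← e4]
    exact e1
  obtain ⟨q, hq⟩ := hC
  have h2 : ∀ b, ∃ x : u → E₂, ∀ c, V' c b = ∑ d, cmapR j (Z c d) * HahnSeries.C (x d) := by
    intro b
    apply hc q
    rw [op_pow_col _ _ _ h1, hq]
    have hz : cM (0 : Matrix κ κ E₂) = 0 := Matrix.map_zero _ (map_zero _)
    rw [hz, Matrix.mul_zero]
    rfl
  choose x hx using h2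
  refine ⟨Matrix.of fun d b => x b d, ?_⟩
  refine Matrix.ext fun c b => ?_
  have h3 := congrArg (scL (RingHom.id E₂) ha) (hx b c)
  rw [hV', Matrix.map_apply, hT, scL_inv_comp, map_sum] at h3
  rw [h3, Matrix.mul_apply]
  refine Finset.sum_congr rfl fun d _ => ?_
  rw [map_mul, scL_cmapR, scL_C]
  rfl

variable {G : Matrix m m (RatFunc E)}

/-- the limit data after base change and scaling -/
noncomputable def limJ (d : LD0 G u) (j : E →+* E₂) {a : E₂} (ha : a ≠ 0) :
    Lim0 (HahnSeries.C : E₂ →+* LaurentSeries E₂) (nabD E₂) u ((G.map (ex E)).map (scL j ha)) where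
  Z := d.Z.map (scL j ha)
  Z' := d.Z'.map (scL j ha)
  B := d.N.map j
  nil := by
    obtain ⟨q, hq⟩ := d.nil
    refine ⟨q, ?_⟩
    have : d.N.map j ^ q = (d.N ^ q).map j := by
      change (RingHom.mapMatrix j d.N) ^ q = RingHom.mapMatrix j (d.N ^ q)
      rw [map_pow]
    rw [this, hq, Matrix.map_zero _ (map_zero _)]
  hZ := by
    have h := congrArg (fun M : Matrix m u (LaurentSeries E) => M.map (scL j ha)) d.hZ
    have e1 : (d.Z.map nab + G.map (ex E) * d.Z).map (scL j ha) =
        (d.Z.map (scL j ha)).map (nabD E₂) + (G.map (ex E)).map (scL j ha) *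
          d.Z.map (scL j ha) := by
      rw [← Matrix.map_mul]
      refine Matrix.ext fun x y => ?_
      simp only [Matrix.map_apply, Matrix.add_apply, map_add, nabD_apply, scL_nab]
    rw [← e1, h, Matrix.map_mul]
    congr 1
    refine Matrix.ext fun x y => ?_
    simp only [Matrix.map_apply, scL_C]
  hZ' := by
    have h := congrArg (fun M : Matrix m u (LaurentSeries E) => M.map (scL j ha)) d.hZ'
    have e1 : (d.Z'.map nab - (G.map (ex E))ᵀ * d.Z').map (scL j ha) =
        (d.Z'.map (scL j ha)).map (nabD E₂) - ((G.map (ex E)).map (scL j ha))ᵀ *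
          d.Z'.map (scL j ha) := by
      have e0 : ((G.map (ex E)).map (scL j ha))ᵀ = ((G.map (ex E))ᵀ).map (scL j ha) := rfl
      rw [e0, ← Matrix.map_mul]
      refine Matrix.ext fun x y => ?_
      simp only [Matrix.map_apply, Matrix.sub_apply, map_sub, nabD_apply, scL_nab]
    rw [← e1, h]
    have e2 : (-(d.Z' * cM d.N.transpose)).map (scL j ha) =
        -((d.Z' * cM d.N.transpose).map (scL j ha)) := by
      refine Matrix.ext fun x y => ?_
      simp only [Matrix.map_apply, Matrix.neg_apply, map_neg]
    rw [e2, Matrix.map_mul]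
    congr 2
    refine Matrix.ext fun x y => ?_
    simp only [Matrix.map_apply, Matrix.transpose_apply, scL_C]
  hZZ := by
    rw [← Matrix.transpose_map, ← Matrix.map_mul, d.ZZ, Matrix.map_one _ (map_zero _) (map_one _)]
  comp := by
    intro κ _ _ V C hC h
    refine compJ j ha (G.map (ex E)) d.Z (fun q v hv => d.compl E₂ j q v ?_) V C hC h
    rw [Matrix.map_map] at hv
    exact hv
  comp' := by
    intro κ _ _ V C hC h
    refine compJ j ha (-(G.map (ex E))ᵀ) d.Z' (fun q v hv => d.compl' E₂ j q v ?_) V C hC ?_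
    · have e1 : (-(G.map (ex E))ᵀ).map (cmapR j) =
          -(G.map ((cmapR j).comp (ex E))).transpose := by
        refine Matrix.ext fun x y => ?_
        simp only [Matrix.map_apply, Matrix.neg_apply, Matrix.transpose_apply, map_neg,
          RingHom.comp_apply]
      rw [e1] at hv
      exact hv
    · rw [← h, sub_eq_add_neg, ← Matrix.neg_mul]
      congr 2
      refine Matrix.ext fun x y => ?_
      simp only [Matrix.map_apply, Matrix.neg_apply, Matrix.transpose_apply, map_neg]

theorem scL_id_one (f : LaurentSeries E) : scL (RingHom.id E) one_ne_zero f = f := by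
  ext k
  rw [scL_coeff, _root_.one_zpow, one_mul, RingHom.id_apply]

theorem map_scL_one {k : Type} (R : Matrix m k (LaurentSeries E)) :
    R.map (scL (RingHom.id E) one_ne_zero) = R := by
  refine Matrix.ext fun x y => ?_
  rw [Matrix.map_apply, scL_id_one]

/-- the limit data as `Lim0` -/
noncomputable def lim1 (d : LD0 G u) :
    Lim0 (HahnSeries.C : E →+* LaurentSeries E) (nabD E) u (G.map (ex E)) where
  Z := d.Z
  Z' := d.Z'
  B := d.N
  nil := d.nil
  hZ := d.hZ
  hZ' := d.hZ'
  hZZ := d.ZZ
  comp := by
    intro κ _ _ V C hC h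
    have := (limJ d (RingHom.id E) one_ne_zero).comp κ V C hC (by rw [map_scL_one]; exact h)
    obtain ⟨x, hx⟩ := this
    refine ⟨x, ?_⟩
    rw [hx]
    exact congrArg (fun W : Matrix m u (LaurentSeries E) => W * cM x) (map_scL_one d.Z)
  comp' := by
    intro κ _ _ V C hC h
    have := (limJ d (RingHom.id E) one_ne_zero).comp' κ V C hC (by rw [map_scL_one]; exact h)
    obtain ⟨x, hx⟩ := this
    refine ⟨x, ?_⟩
    rw [hx]
    exact congrArg (fun W : Matrix m u (LaurentSeries E) => W * cM x) (map_scL_one d.Z')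

end

end Pool.CM.EG
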