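import Pool.Agent.H63.CUBE.Fin
import Pool.Agent.H10.CM.CellS
import Pool.Agent.H10.CM.DegNat
import Pool.Agent.H10.CM.Red1

set_option autoImplicit false

/-!
# MP_47888e_al: the core statement from the last open blocks `JF` and `JJ`
-/

namespace Pool.CM.EG

open Pool.CM Pool.H93.Cube Pool.CUBE

/-- THEOREM T2 for corner cells -/
theorem t2cu (hJJ : Pool.CM.T2.JJFacts) : T2CStmt :=
  t2cstmt hJJ (Pool.CM.T2.funStmt FUN.funLimStmt LimAll.tra LimAll.lpk)

/-- the core statement, modulo `JF` and the facts on the corner functional -/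
theorem core_of (hJF : JFStmt) (hJJ : Pool.CM.T2.JJFacts) : CoreStmt :=
  core (JAll.jt1_of hJF) (t2cu hJJ) cell_thm deg_thm nat_thm

end Pool.CM.EG
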