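import Pool.Agent.H63.CUBE.QF

set_option autoImplicit false

/-!
# MP_47888e_al, block E, part 2: the functional `chi` of the quotient

`Φ ≡ Σ_σ e_σ φ(chi_σ) mod p`, `Q e_σ = e_Q` for all `σ`. Then `Φ_Q ≡ e_Q φ(chi_Q) mod p`,
`chi_Q = (Σ_σ chi_σ) L`, and `chi_Q Q = Σ_σ chi_σ` (positivity).
-/

open Matrix

namespace Pool.CM.EG

variable {X : Idx} {E : Type} [Field E] {A : PF X E} {i : X.I}
variable {N K : Type} [Fintype N] [DecidableEq N] [Fintype K] [DecidableEq K]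
variable {S : Type} [Fintype S]

/-- the product `e φ(chi)` of a column and a row -/
def rk (A : PF X E) (i : X.I) {m k : Type} (e : m → E) (c : k → E) : Matrix m k E :=
  Matrix.of fun a b => e a * A.phi i (c b)

/-- congruence modulo `p` of `Φ` with a sum of rank one matrices -/
def ChiAt (A : PF X E) (i : X.I) (e chi : S → N → E) (Φ : Matrix N N E) : Prop :=
  MD A i 1 (Φ - ∑ σ, rk A i (e σ) (chi σ))

theorem mul_rk (Q : Matrix K N E) (e c : N → E) :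
    Q * rk A i e c = rk A i (Q *ᵥ e) c := by
  ext a b
  simp only [rk, Matrix.mul_apply, Matrix.of_apply, Matrix.mulVec, dotProduct]
  rw [Finset.sum_mul]
  exact Finset.sum_congr rfl fun c _ => by ring

theorem rk_mul {l : Type} (e : K → E) (c : N → E) (L : Matrix N l E) :
    rk A i e c * L.map (A.phi i) = rk A i e (c ᵥ* L) := by
  ext a b
  simp only [rk, Matrix.mul_apply, Matrix.of_apply, Matrix.vecMul, dotProduct, Matrix.map_apply]
  rw [map_sum, Finset.mul_sum]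
  exact Finset.sum_congr rfl fun c _ => by rw [map_mul]; ring

theorem sum_rk (e : K → E) (c : S → N → E) :
    ∑ σ, rk A i e (c σ) = rk A i e (∑ σ, c σ) := by
  ext a b
  rw [Matrix.sum_apply]
  simp only [rk, Matrix.of_apply, Finset.sum_apply, map_sum, Finset.mul_sum]

variable {n M : ℕ} {Q : Matrix K N E} {L : Matrix N K E} {Φ Ψ : Matrix N N E}
variable {e chi : S → N → E} {eQ : K → E}

theorem QData.chi_phiQ (hA : A.Ax) (h : QData A i n M Q L Φ Ψ) (hQe : ∀ σ, Q *ᵥ e σ = eQ)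
    (hc : ChiAt A i e chi Φ) :
    MD A i 1 (PhiQ A i Q L Φ - rk A i eQ ((∑ σ, chi σ) ᵥ* L)) := by
  have e1 : PhiQ A i Q L Φ - rk A i eQ ((∑ σ, chi σ) ᵥ* L) =
      Q * (Φ - ∑ σ, rk A i (e σ) (chi σ)) * L.map (A.phi i) := by
    rw [Matrix.mul_sub, Matrix.sub_mul, Matrix.mul_sum]
    simp only [mul_rk, hQe]
    rw [sum_rk, rk_mul]
    rfl
  rw [e1]
  exact (MD.Omul h.hQ hc).mulO (h.hL.phi hA)

theorem QData.chi_inter (sw : SwapStmt) (hA : A.Ax) (hn : 2 * n < M)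
    (h : QData A i n M Q L Φ Ψ) (hQe : ∀ σ, Q *ᵥ e σ = eQ) (hc : ChiAt A i e chi Φ) :
    MD A i 1 (rk A i eQ (((∑ σ, chi σ) ᵥ* L) ᵥ* Q - ∑ σ, chi σ)) := by
  have h1 := (h.inter sw hA hn).mono (M := 1) (by omega)
  have h2 := (h.chi_phiQ hA hQe hc).mulO (h.hQ.phi hA)
  have h3 : MD A i 1 (Q * (Φ - ∑ σ, rk A i (e σ) (chi σ))) := MD.Omul h.hQ hc
  have e1 : rk A i eQ (((∑ σ, chi σ) ᵥ* L) ᵥ* Q - ∑ σ, chi σ) =
      (PhiQ A i Q L Φ * Q.map (A.phi i) - Q * Φ) -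
      (PhiQ A i Q L Φ - rk A i eQ ((∑ σ, chi σ) ᵥ* L)) * Q.map (A.phi i) +
      Q * (Φ - ∑ σ, rk A i (e σ) (chi σ)) := by
    rw [Matrix.sub_mul, rk_mul, Matrix.mul_sub, Matrix.mul_sum]
    simp only [mul_rk, hQe]
    rw [sum_rk]
    have e2 : rk A i eQ (((∑ σ, chi σ) ᵥ* L) ᵥ* Q - ∑ σ, chi σ) =
        rk A i eQ (((∑ σ, chi σ) ᵥ* L) ᵥ* Q) - rk A i eQ (∑ σ, chi σ) := by
      ext a b
      simp only [rk, Matrix.of_apply, Matrix.sub_apply, Pi.sub_apply, map_sub, mul_sub]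
    rw [e2]
    abel
  rw [e1]
  exact (h1.sub h2).add h3

/-- A fixed element whose Frobenius image is divisible by `p` for arbitrarily large `p`
is zero. -/
theorem eq_zero_of_dv (hA : A.Ax) {x : E}
    (h : ∀ B : ℕ, ∃ i, B < X.p i ∧ A.Dv i 1 (A.phi i x)) : x = 0 := by
  by_contra hx
  obtain ⟨B, hB⟩ := hA.pf2 x hx
  obtain ⟨i, hi, hd⟩ := h B
  obtain ⟨hx0, hxO, hxI⟩ := hB i hi
  obtain ⟨y, hy, e⟩ := hd
  have h1 : A.phi i x⁻¹ ∈ A.O i := hA.phi_O i _ hxI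
  rw [map_inv₀] at h1
  have hp := p_ne hA i
  have hφ : A.phi i x ≠ 0 := (map_ne_zero _).2 hx0
  apply hA.p_inv i
  have e2 : ((X.p i : ℕ) : E)⁻¹ = y * (A.phi i x)⁻¹ := by
    rw [e, pow_one, mul_inv]
    have hy0 : y ≠ 0 := by
      rintro rfl
      rw [mul_zero] at e
      exact hφ e
    field_simp
  rw [e2]
  exact (A.O i).mul_mem hy h1

/-- positivity: `chi_Q Q = Σ chi_σ` -/
theorem chi_quot (hA : A.Ax) (heQ : eQ ≠ 0) {c : N → E}
    (h : ∀ B : ℕ, ∃ i, B < X.p i ∧ MD A i 1 (rk A i eQ c)) : c = 0 := by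
  obtain ⟨a, ha⟩ : ∃ a, eQ a ≠ 0 := by
    by_contra hcon
    push Not at hcon
    exact heQ (funext hcon)
  funext b
  apply eq_zero_of_dv hA
  obtain ⟨B₀, hB₀⟩ := hA.pf2 (eQ a) ha
  intro B
  obtain ⟨i, hi, hd⟩ := h (max B B₀)
  refine ⟨i, lt_of_le_of_lt (le_max_left _ _) hi, ?_⟩
  obtain ⟨h0, _, hI⟩ := hB₀ i (lt_of_le_of_lt (le_max_right _ _) hi)
  have h1 := hd a b
  simp only [rk, Matrix.of_apply] at h1
  have e1 : A.phi i (c b) = (eQ a)⁻¹ * (eQ a * A.phi i (c b)) := by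
    rw [← mul_assoc, inv_mul_cancel₀ h0, one_mul]
  rw [e1]
  exact Dv.mul' hI h1

end Pool.CM.EG
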