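import Pool.Agent.H10.CM.PF

set_option autoImplicit false

/-!
# MP_47888e_al, block E (end game), part 0: matrix calculus over a PF field

`MO` : matrices with entries in the valuation ring, `MD M` : entries divisible by `p ^ M`.
-/

open Matrix

namespace Pool.CM.EG

variable {X : Idx} {E : Type} [Field E] (A : PF X E) (i : X.I)
variable {m k l : Type}

/-- entries in the valuation ring -/
def MO (R : Matrix m k E) : Prop := ∀ a b, R a b ∈ A.O i

/-- entries divisible by `p ^ M` -/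
def MD (M : ℕ) (R : Matrix m k E) : Prop := ∀ a b, A.Dv i M (R a b)

/-- `p` as an element of `E` -/
abbrev pE (_ : PF X E) (i : X.I) : E := ((X.p i : ℕ) : E)

theorem dv_zero {M : ℕ} : A.Dv i M 0 := ⟨0, (A.O i).zero_mem, by simp⟩

variable {A i}

theorem Dv.add {M : ℕ} {x y : E} (hx : A.Dv i M x) (hy : A.Dv i M y) : A.Dv i M (x + y) := by
  obtain ⟨a, ha, rfl⟩ := hx
  obtain ⟨b, hb, rfl⟩ := hy
  exact ⟨a + b, (A.O i).add_mem ha hb, by ring⟩

theorem Dv.neg {M : ℕ} {x : E} (hx : A.Dv i M x) : A.Dv i M (-x) := by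
  obtain ⟨a, ha, rfl⟩ := hx
  exact ⟨-a, (A.O i).neg_mem ha, by ring⟩

theorem Dv.mul {M : ℕ} {x y : E} (hx : A.Dv i M x) (hy : y ∈ A.O i) : A.Dv i M (x * y) := by
  obtain ⟨a, ha, rfl⟩ := hx
  exact ⟨a * y, (A.O i).mul_mem ha hy, by ring⟩

theorem Dv.mul' {M : ℕ} {x y : E} (hx : x ∈ A.O i) (hy : A.Dv i M y) : A.Dv i M (x * y) := by
  rw [mul_comm]
  exact Dv.mul hy hx

theorem Dv.mono {M M' : ℕ} (h : M ≤ M') {x : E} (hx : A.Dv i M' x) : A.Dv i M x := by
  obtain ⟨a, ha, rfl⟩ := hx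
  refine ⟨(X.p i : E) ^ (M' - M) * a,
    (A.O i).mul_mem ((A.O i).pow_mem (natCast_mem _ _) _) ha, ?_⟩
  rw [← mul_assoc, ← pow_add, Nat.add_sub_cancel' h]

theorem Dv.mem {M : ℕ} {x : E} (hx : A.Dv i M x) : x ∈ A.O i := by
  obtain ⟨a, ha, rfl⟩ := hx
  exact (A.O i).mul_mem ((A.O i).pow_mem (natCast_mem _ _) _) ha

theorem Dv.sum {ι : Type*} {M : ℕ} (s : Finset ι) {f : ι → E} (h : ∀ a ∈ s, A.Dv i M (f a)) :
    A.Dv i M (∑ a ∈ s, f a) := by
  classical
  induction s using Finset.induction_on with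
  | empty => simpa using dv_zero A i
  | insert a s ha ih =>
    rw [Finset.sum_insert ha]
    exact Dv.add (h a (Finset.mem_insert_self a s))
      (ih fun b hb => h b (Finset.mem_insert_of_mem hb))

theorem Dv.phi (hA : A.Ax) {M : ℕ} {x : E} (hx : A.Dv i M x) : A.Dv i M (A.phi i x) := by
  obtain ⟨a, ha, rfl⟩ := hx
  exact ⟨A.phi i a, hA.phi_O i a ha, by rw [map_mul, map_pow, map_natCast]⟩

theorem Dv.D (hA : A.Ax) {M : ℕ} {x : E} (j : A.J) (hx : A.Dv i M x) :
    A.Dv i M (A.D j x) := by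
  obtain ⟨a, ha, rfl⟩ := hx
  refine ⟨A.D j a, hA.D_O i j a ha, ?_⟩
  have h : (X.p i : E) ^ M * a = (X.p i ^ M) • a := by
    rw [nsmul_eq_mul]
    push_cast
    ring
  rw [h, map_nsmul, nsmul_eq_mul]
  push_cast
  ring

/-- the prime is not zero in `E` -/
theorem p_ne (hA : A.Ax) (i : X.I) : (X.p i : E) ≠ 0 := by
  intro h
  have := hA.p_inv i
  rw [h, _root_.inv_zero] at this
  exact this (A.O i).zero_mem

theorem Dv.cancel (hA : A.Ax) {M n : ℕ} {x : E} (hx : A.Dv i (M + n) ((X.p i : E) ^ n * x)) :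
    A.Dv i M x := by
  obtain ⟨a, ha, h⟩ := hx
  refine ⟨a, ha, ?_⟩
  have hp : (X.p i : E) ^ n ≠ 0 := pow_ne_zero _ (p_ne hA i)
  apply mul_left_cancel₀ hp
  rw [h, pow_add]
  ring

theorem MD.add {M : ℕ} {R S : Matrix m k E} (hR : MD A i M R) (hS : MD A i M S) :
    MD A i M (R + S) := fun a b => Dv.add (hR a b) (hS a b)

theorem MD.neg {M : ℕ} {R : Matrix m k E} (hR : MD A i M R) : MD A i M (-R) :=
  fun a b => Dv.neg (hR a b)

theorem MD.sub {M : ℕ} {R S : Matrix m k E} (hR : MD A i M R) (hS : MD A i M S) :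
    MD A i M (R - S) := by
  rw [sub_eq_add_neg]
  exact MD.add hR hS.neg

theorem MD.mono {M M' : ℕ} (h : M ≤ M') {R : Matrix m k E} (hR : MD A i M' R) : MD A i M R :=
  fun a b => Dv.mono h (hR a b)

theorem MD.mo {M : ℕ} {R : Matrix m k E} (hR : MD A i M R) : MO A i R :=
  fun a b => Dv.mem (hR a b)

theorem MO.mul [Fintype k] {R : Matrix m k E} {S : Matrix k l E} (hR : MO A i R)
    (hS : MO A i S) : MO A i (R * S) := fun a b => by
  rw [Matrix.mul_apply]
  exact (A.O i).sum_mem fun c _ => (A.O i).mul_mem (hR a c) (hS c b)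

theorem MO.add {R S : Matrix m k E} (hR : MO A i R) (hS : MO A i S) : MO A i (R + S) :=
  fun a b => (A.O i).add_mem (hR a b) (hS a b)

theorem MO.sub {R S : Matrix m k E} (hR : MO A i R) (hS : MO A i S) : MO A i (R - S) :=
  fun a b => (A.O i).sub_mem (hR a b) (hS a b)

theorem MO.neg {R : Matrix m k E} (hR : MO A i R) : MO A i (-R) :=
  fun a b => (A.O i).neg_mem (hR a b)

theorem MO.one [DecidableEq m] : MO A i (1 : Matrix m m E) := fun a b => by
  rw [Matrix.one_apply]
  split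
  · exact (A.O i).one_mem
  · exact (A.O i).zero_mem

theorem MO.transpose {R : Matrix m k E} (hR : MO A i R) : MO A i R.transpose :=
  fun a b => hR b a

theorem MD.transpose {M : ℕ} {R : Matrix m k E} (hR : MD A i M R) : MD A i M R.transpose :=
  fun a b => hR b a

theorem MO.phi (hA : A.Ax) {R : Matrix m k E} (hR : MO A i R) : MO A i (R.map (A.phi i)) :=
  fun a b => hA.phi_O i _ (hR a b)

theorem MD.phi (hA : A.Ax) {M : ℕ} {R : Matrix m k E} (hR : MD A i M R) :
    MD A i M (R.map (A.phi i)) := fun a b => Dv.phi hA (hR a b)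

theorem MO.D (hA : A.Ax) (j : A.J) {R : Matrix m k E} (hR : MO A i R) :
    MO A i (R.map (A.D j)) := fun a b => hA.D_O i j _ (hR a b)

theorem MD.D (hA : A.Ax) (j : A.J) {M : ℕ} {R : Matrix m k E} (hR : MD A i M R) :
    MD A i M (R.map (A.D j)) := fun a b => Dv.D hA j (hR a b)

theorem MD.mulO [Fintype k] {M : ℕ} {R : Matrix m k E} {S : Matrix k l E} (hR : MD A i M R)
    (hS : MO A i S) : MD A i M (R * S) := fun a b => by
  rw [Matrix.mul_apply]
  exact Dv.sum _ fun c _ => Dv.mul (hR a c) (hS c b)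

theorem MD.Omul [Fintype k] {M : ℕ} {R : Matrix m k E} {S : Matrix k l E} (hR : MO A i R)
    (hS : MD A i M S) : MD A i M (R * S) := fun a b => by
  rw [Matrix.mul_apply]
  exact Dv.sum _ fun c _ => Dv.mul' (hR a c) (hS c b)

theorem MD.smulO {M : ℕ} {R : Matrix m k E} {c : E} (hc : c ∈ A.O i) (hR : MD A i M R) :
    MD A i M (c • R) := fun a b => Dv.mul' hc (hR a b)

theorem MO.smulO {R : Matrix m k E} {c : E} (hc : c ∈ A.O i) (hR : MO A i R) :
    MO A i (c • R) := fun a b => (A.O i).mul_mem hc (hR a b)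

theorem MD.cancel (hA : A.Ax) {M n : ℕ} {R : Matrix m k E}
    (hR : MD A i (M + n) ((X.p i : E) ^ n • R)) : MD A i M R :=
  fun a b => Dv.cancel hA (hR a b)

theorem p_mem : (X.p i : E) ∈ A.O i := natCast_mem _ _

theorem ppow_mem (n : ℕ) : (X.p i : E) ^ n ∈ A.O i := (A.O i).pow_mem p_mem n

theorem MD.zero {M : ℕ} : MD A i M (0 : Matrix m k E) := fun _ _ => dv_zero A i

theorem MD.pow_smul {M : ℕ} {R : Matrix m k E} (hR : MO A i R) :
    MD A i M ((X.p i : E) ^ M • R) := fun a b => ⟨R a b, hR a b, rfl⟩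

/-! derivations and Frobenius of products -/

theorem map_D_mul [Fintype k] (j : A.J) (R : Matrix m k E) (S : Matrix k l E) :
    (R * S).map (A.D j) = R.map (A.D j) * S + R * S.map (A.D j) := by
  ext a b
  simp only [Matrix.map_apply, Matrix.mul_apply, Matrix.add_apply, map_sum]
  rw [← Finset.sum_add_distrib]
  refine Finset.sum_congr rfl fun c _ => ?_
  rw [Derivation.leibniz, smul_eq_mul, smul_eq_mul]
  ring

theorem map_D_add (j : A.J) (R S : Matrix m k E) :
    (R + S).map (A.D j) = R.map (A.D j) + S.map (A.D j) := by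
  ext a b
  simp

theorem map_D_sub (j : A.J) (R S : Matrix m k E) :
    (R - S).map (A.D j) = R.map (A.D j) - S.map (A.D j) := by
  ext a b
  simp

theorem map_D_phi (hA : A.Ax) (j : A.J) (R : Matrix m k E) :
    (R.map (A.phi i)).map (A.D j) = (X.p i : E) • (R.map (A.D j)).map (A.phi i) := by
  ext a b
  simp only [Matrix.map_apply, Matrix.smul_apply, smul_eq_mul]
  exact hA.D_phi i j _

theorem map_phi_mul [Fintype k] (R : Matrix m k E) (S : Matrix k l E) :
    (R * S).map (A.phi i) = R.map (A.phi i) * S.map (A.phi i) := Matrix.map_mul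

theorem map_phi_one [DecidableEq m] : (1 : Matrix m m E).map (A.phi i) = 1 := by
  ext a b
  rw [Matrix.map_apply, Matrix.one_apply]
  split <;> simp

theorem map_phi_add (R S : Matrix m k E) :
    (R + S).map (A.phi i) = R.map (A.phi i) + S.map (A.phi i) := by
  ext a b
  simp

theorem map_D_one [DecidableEq m] (j : A.J) : (1 : Matrix m m E).map (A.D j) = 0 := by
  ext a b
  rw [Matrix.map_apply, Matrix.one_apply]
  split <;> simp

end Pool.CM.EG
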