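import Pool.Agent.H63.CUBE.QDefs

set_option autoImplicit false

/-!
# MP_47888e_al, block E, part 4: matrices of a quotient space, the quotient connection
-/

open Matrix

namespace Pool.CM.EG

variable {E : Type} [Field E] {N : Type} [Fintype N] [DecidableEq N]

/-- matrices of the projection to the quotient by `W` and of a section -/
theorem exists_QL (W : Submodule E (N → E)) :
    ∃ (d : ℕ) (Q : Matrix (Fin d) N E) (L : Matrix N (Fin d) E),
      Q * L = 1 ∧ ∀ v, Q *ᵥ v = 0 ↔ v ∈ W := by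
  let V := (N → E) ⧸ W
  let d := Module.finrank E V
  let b : Module.Basis (Fin d) E V := Module.finBasis E V
  let π : (N → E) →ₗ[E] (Fin d → E) := b.equivFun.toLinearMap ∘ₗ W.mkQ
  have hsurj : Function.Surjective π :=
    b.equivFun.surjective.comp (Submodule.mkQ_surjective W)
  obtain ⟨σ, hσ⟩ := π.exists_rightInverse_of_surjective (LinearMap.range_eq_top.2 hsurj)
  refine ⟨d, LinearMap.toMatrix' π, LinearMap.toMatrix' σ, ?_, fun v => ?_⟩
  · rw [← LinearMap.toMatrix'_comp, hσ, LinearMap.toMatrix'_id]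
  · rw [LinearMap.toMatrix'_mulVec]
    change b.equivFun (W.mkQ v) = 0 ↔ _
    rw [LinearEquiv.map_eq_zero_iff, Submodule.mkQ_apply, Submodule.Quotient.mk_eq_zero]

/-- `D` on vectors -/
def Dv1 (D : Derivation ℤ E E) {N : Type} (v : N → E) : N → E := fun a => D (v a)

theorem Dv1_mulVec {K : Type} (D : Derivation ℤ E E) (R : Matrix K N E) (v : N → E) :
    Dv1 D (R *ᵥ v) = R.map D *ᵥ v + R *ᵥ Dv1 D v := by
  funext a
  simp only [Dv1, Matrix.mulVec, dotProduct, Pi.add_apply, Matrix.map_apply, map_sum]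
  rw [← Finset.sum_add_distrib]
  refine Finset.sum_congr rfl fun c _ => ?_
  rw [Derivation.leibniz, smul_eq_mul, smul_eq_mul]
  ring

/-- a matrix vanishing on the kernel of `Q` factors through `Q` -/
theorem mul_LQ {K l : Type} [Fintype K] [DecidableEq K] {Q : Matrix K N E} {L : Matrix N K E}
    (hQL : Q * L = 1) (T : Matrix l N E) (h : ∀ v, Q *ᵥ v = 0 → T *ᵥ v = 0) :
    T * L * Q = T := by
  have h1 : ∀ v, (T * L * Q) *ᵥ v = T *ᵥ v := by
    intro v
    have h2 := h (v - L *ᵥ (Q *ᵥ v)) (by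
      rw [Matrix.mulVec_sub, Matrix.mulVec_mulVec, hQL, Matrix.one_mulVec, sub_self])
    rw [Matrix.mulVec_sub, sub_eq_zero] at h2
    rw [h2, Matrix.mulVec_mulVec, Matrix.mulVec_mulVec]
  ext a b
  have h3 := congrFun (h1 (Pi.single b 1)) a
  simpa using h3

/-- the quotient connection -/
theorem exists_GQ {K : Type} [Fintype K] [DecidableEq K] (D : Derivation ℤ E E)
    {Q : Matrix K N E} {L : Matrix N K E} (hQL : Q * L = 1) (G : Matrix N N E)
    (h : ∀ v, Q *ᵥ v = 0 → Q *ᵥ (Dv1 D v + G *ᵥ v) = 0) :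
    ∃ GQ : Matrix K K E, Q.map D + GQ * Q = Q * G := by
  refine ⟨(Q * G - Q.map D) * L, ?_⟩
  rw [mul_LQ hQL]
  · abel
  · intro v hv
    have h1 := h v hv
    have h2 : Q.map D *ᵥ v + Q *ᵥ Dv1 D v = 0 := by
      rw [← Dv1_mulVec, hv]
      funext a
      simp [Dv1]
    rw [Matrix.sub_mulVec, ← Matrix.mulVec_mulVec, sub_eq_zero]
    rw [Matrix.mulVec_add] at h1
    have h3 : Q.map D *ᵥ v = -(Q *ᵥ Dv1 D v) := eq_neg_of_add_eq_zero_left h2
    have h4 : Q *ᵥ (G *ᵥ v) = -(Q *ᵥ Dv1 D v) := eq_neg_of_add_eq_zero_right h1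
    rw [h3, h4]

end Pool.CM.EG
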