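import Pool.Agent.H63.CUBE.QDefs

set_option autoImplicit false

/-!
# MP_47888e_al, block E, part 1: the quotient of a Frobenius structure at one place

`Q : K × N`, `L : N × K`, `Q L = 1`. If `φ(Q) Ψ (1 - L Q) ≡ 0` (the kernel of `Q` is stable
under `Ψ`), then `Ψ_Q = φ(Q) Ψ L`, `Φ_Q = Q Φ φ(L)` is a Frobenius structure on the quotient.
-/

open Matrix

namespace Pool.CM.EG

variable {X : Idx} {E : Type} [Field E] {A : PF X E} {i : X.I}

/-- the swap lemma (block LIMIT, lemma SW) -/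
def SwapStmt : Prop := ∀ (X : Idx) (E : Type) [Field E] (A : PF X E), A.Ax → ∀ i
  (m : Type) [Fintype m] [DecidableEq m] (n M : ℕ) (U V : Matrix m m E),
  MO A i U → MO A i V → n < M → MD A i M (U * V - (X.p i : E) ^ n • (1 : Matrix m m E)) →
  MD A i (M - n) (V * U - (X.p i : E) ^ n • (1 : Matrix m m E))

variable {N K : Type} [Fintype N] [DecidableEq N] [Fintype K] [DecidableEq K]

/-- the data of the quotient at one place -/
structure QData (A : PF X E) (i : X.I) (n M : ℕ) (Q : Matrix K N E) (L : Matrix N K E)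
    (Φ Ψ : Matrix N N E) : Prop where
  hQL : Q * L = 1
  hQ : MO A i Q
  hL : MO A i L
  hΦ : MO A i Φ
  hΨ : MO A i Ψ
  hΨΦ : MD A i M (Ψ * Φ - (X.p i : E) ^ n • (1 : Matrix N N E))
  hker : MD A i M (Q.map (A.phi i) * Ψ * (1 - L * Q))

/-- Frobenius of the quotient -/
def PhiQ (A : PF X E) (i : X.I) (Q : Matrix K N E) (L : Matrix N K E) (Φ : Matrix N N E) :
    Matrix K K E := Q * Φ * L.map (A.phi i)

/-- the dual Frobenius of the quotient -/
def PsiQ (A : PF X E) (i : X.I) (Q : Matrix K N E) (L : Matrix N K E) (Ψ : Matrix N N E) :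
    Matrix K K E := Q.map (A.phi i) * Ψ * L

variable {n M : ℕ} {Q : Matrix K N E} {L : Matrix N K E} {Φ Ψ : Matrix N N E}

theorem QData.mo_phiQ (hA : A.Ax) (h : QData A i n M Q L Φ Ψ) : MO A i (PhiQ A i Q L Φ) :=
  (h.hQ.mul h.hΦ).mul (h.hL.phi hA)

theorem QData.mo_psiQ (hA : A.Ax) (h : QData A i n M Q L Φ Ψ) : MO A i (PsiQ A i Q L Ψ) :=
  ((h.hQ.phi hA).mul h.hΨ).mul h.hL

theorem QData.psiQ_Q (h : QData A i n M Q L Φ Ψ) :
    MD A i M (PsiQ A i Q L Ψ * Q - Q.map (A.phi i) * Ψ) := by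
  have e : PsiQ A i Q L Ψ * Q - Q.map (A.phi i) * Ψ =
      -(Q.map (A.phi i) * Ψ * (1 - L * Q)) := by
    unfold PsiQ
    rw [Matrix.mul_sub, Matrix.mul_one, ← Matrix.mul_assoc]
    abel
  rw [e]
  exact h.hker.neg

theorem QData.psiQ_phiQ (hA : A.Ax) (h : QData A i n M Q L Φ Ψ) :
    MD A i M (PsiQ A i Q L Ψ * PhiQ A i Q L Φ - (X.p i : E) ^ n • (1 : Matrix K K E)) := by
  have hφL : Q.map (A.phi i) * L.map (A.phi i) = 1 := by
    rw [← map_phi_mul, h.hQL, map_phi_one]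
  have e : PsiQ A i Q L Ψ * PhiQ A i Q L Φ - (X.p i : E) ^ n • (1 : Matrix K K E) =
      (PsiQ A i Q L Ψ * Q - Q.map (A.phi i) * Ψ) * (Φ * L.map (A.phi i)) +
      Q.map (A.phi i) * (Ψ * Φ - (X.p i : E) ^ n • (1 : Matrix N N E)) * L.map (A.phi i) := by
    have e1 : Q.map (A.phi i) * (Ψ * Φ - (X.p i : E) ^ n • (1 : Matrix N N E)) *
        L.map (A.phi i) = Q.map (A.phi i) * Ψ * (Φ * L.map (A.phi i)) -
        (X.p i : E) ^ n • (1 : Matrix K K E) := by
      rw [Matrix.mul_sub, Matrix.sub_mul, Matrix.mul_smul, Matrix.mul_one, Matrix.smul_mul, hφL]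
      simp only [Matrix.mul_assoc]
    rw [e1, Matrix.sub_mul]
    unfold PhiQ
    simp only [Matrix.mul_assoc]
    abel
  rw [e]
  exact (h.psiQ_Q.mulO (h.hΦ.mul (h.hL.phi hA))).add
    ((MD.Omul (h.hQ.phi hA) h.hΨΦ).mulO (h.hL.phi hA))

theorem QData.phiQ_psiQ (sw : SwapStmt) (hA : A.Ax) (hn : n < M) (h : QData A i n M Q L Φ Ψ) :
    MD A i (M - n) (PhiQ A i Q L Φ * PsiQ A i Q L Ψ - (X.p i : E) ^ n • (1 : Matrix K K E)) :=
  sw X E A hA i K n M _ _ (h.mo_psiQ hA) (h.mo_phiQ hA) hn (h.psiQ_phiQ hA)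

/-- `Φ_Q φ(Q) ≡ Q Φ` -/
theorem QData.inter (sw : SwapStmt) (hA : A.Ax) (hn : 2 * n < M) (h : QData A i n M Q L Φ Ψ) :
    MD A i (M - 2 * n) (PhiQ A i Q L Φ * Q.map (A.phi i) - Q * Φ) := by
  set T := PhiQ A i Q L Φ * Q.map (A.phi i) - Q * Φ with hT
  have hTO : MO A i T := ((h.mo_phiQ hA).mul (h.hQ.phi hA)).sub (h.hQ.mul h.hΦ)
  have h1 : MD A i M (PsiQ A i Q L Ψ * T) := by
    have e : PsiQ A i Q L Ψ * T =
        (PsiQ A i Q L Ψ * PhiQ A i Q L Φ - (X.p i : E) ^ n • (1 : Matrix K K E)) *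
          Q.map (A.phi i) -
        (PsiQ A i Q L Ψ * Q - Q.map (A.phi i) * Ψ) * Φ -
        Q.map (A.phi i) * (Ψ * Φ - (X.p i : E) ^ n • (1 : Matrix N N E)) := by
      rw [hT]
      simp only [Matrix.mul_sub, Matrix.sub_mul, Matrix.smul_mul, Matrix.mul_smul,
        Matrix.one_mul, Matrix.mul_one, Matrix.mul_assoc]
      abel
    rw [e]
    exact (((h.psiQ_phiQ hA).mulO (h.hQ.phi hA)).sub (h.psiQ_Q.mulO h.hΦ)).sub
      (MD.Omul (h.hQ.phi hA) h.hΨΦ)
  have h2 := MD.Omul (h.mo_phiQ hA) h1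
  have h3 : MD A i (M - n) ((X.p i : E) ^ n • T) := by
    have e : (X.p i : E) ^ n • T = PhiQ A i Q L Φ * (PsiQ A i Q L Ψ * T) -
        (PhiQ A i Q L Φ * PsiQ A i Q L Ψ - (X.p i : E) ^ n • (1 : Matrix K K E)) * T := by
      rw [Matrix.sub_mul, Matrix.smul_mul, Matrix.one_mul, Matrix.mul_assoc]
      abel
    rw [e]
    exact (h2.mono (Nat.sub_le _ _)).sub ((h.phiQ_psiQ sw hA (by omega)).mulO hTO)
  have h4 : M - n = (M - 2 * n) + n := by omega
  rw [h4] at h3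
  exact h3.cancel hA

/-- horizontality of `Φ_Q` -/
theorem QData.hor_phi (sw : SwapStmt) (hA : A.Ax) (hn : 2 * n < M)
    (h : QData A i n M Q L Φ Ψ) (j : A.J) (G : Matrix N N E) (GQ : Matrix K K E)
    (hG : MO A i G) (hGQ : MO A i GQ)
    (hQG : Q.map (A.D j) + GQ * Q = Q * G)
    (hor : MD A i (M - 2 * n)
      (Φ.map (A.D j) + G * Φ - (X.p i : E) • (Φ * G.map (A.phi i)))) :
    MD A i (M - 2 * n) ((PhiQ A i Q L Φ).map (A.D j) + GQ * PhiQ A i Q L Φ -
      (X.p i : E) • (PhiQ A i Q L Φ * GQ.map (A.phi i))) := by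
  set P := PhiQ A i Q L Φ with hP
  set H := P.map (A.D j) + GQ * P - (X.p i : E) • (P * GQ.map (A.phi i)) with hH
  have hφL : Q.map (A.phi i) * L.map (A.phi i) = 1 := by
    rw [← map_phi_mul, h.hQL, map_phi_one]
  have hPO : MO A i P := h.mo_phiQ hA
  have hI := h.inter sw hA hn
  rw [← hP] at hI
  set T := P * Q.map (A.phi i) - Q * Φ with hT
  -- the identity for `H φ(Q)`
  have hQGφ : (Q.map (A.D j)).map (A.phi i) + GQ.map (A.phi i) * Q.map (A.phi i) =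
      Q.map (A.phi i) * G.map (A.phi i) := by
    rw [← map_phi_mul, ← map_phi_add, hQG, map_phi_mul]
  have hDT : T.map (A.D j) = P.map (A.D j) * Q.map (A.phi i) +
      (X.p i : E) • (P * (Q.map (A.D j)).map (A.phi i)) -
      (Q.map (A.D j) * Φ + Q * Φ.map (A.D j)) := by
    rw [hT, map_D_sub, map_D_mul, map_D_mul, map_D_phi hA, Matrix.mul_smul]
  have key : H * Q.map (A.phi i) = T.map (A.D j) + GQ * T -
      (X.p i : E) • (T * G.map (A.phi i)) +
      Q * (Φ.map (A.D j) + G * Φ - (X.p i : E) • (Φ * G.map (A.phi i))) := by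
    have e1 : P * Q.map (A.phi i) * G.map (A.phi i) =
        P * (Q.map (A.D j)).map (A.phi i) + P * (GQ.map (A.phi i) * Q.map (A.phi i)) := by
      rw [Matrix.mul_assoc, ← hQGφ, Matrix.mul_add]
    have e2 : Q * G * Φ = Q.map (A.D j) * Φ + GQ * Q * Φ := by
      rw [← hQG, Matrix.add_mul]
    rw [hDT, hH, hT]
    simp only [Matrix.sub_mul, Matrix.add_mul, Matrix.mul_sub, Matrix.mul_add, Matrix.smul_mul,
      Matrix.mul_smul, smul_sub]
    rw [e1, ← Matrix.mul_assoc Q G Φ, e2]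
    simp only [Matrix.mul_assoc, smul_add]
    abel
  have h1 : MD A i (M - 2 * n) (H * Q.map (A.phi i)) := by
    rw [key]
    exact (((hI.D hA j).add (MD.Omul hGQ hI)).sub
      (MD.smulO p_mem (hI.mulO (hG.phi hA)))).add (MD.Omul h.hQ hor)
  have h2 : H = H * Q.map (A.phi i) * L.map (A.phi i) := by
    rw [Matrix.mul_assoc, hφL, Matrix.mul_one]
  rw [h2]
  exact h1.mulO (h.hL.phi hA)

/-- horizontality of `Ψ_Q` -/
theorem QData.hor_psi (hA : A.Ax) {M' : ℕ} (hM' : M' ≤ M)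
    (h : QData A i n M Q L Φ Ψ) (j : A.J) (G : Matrix N N E) (GQ : Matrix K K E)
    (hG : MO A i G) (hGQ : MO A i GQ)
    (hQG : Q.map (A.D j) + GQ * Q = Q * G)
    (hor : MD A i M'
      (Ψ.map (A.D j) - Ψ * G + (X.p i : E) • (G.map (A.phi i) * Ψ))) :
    MD A i M' ((PsiQ A i Q L Ψ).map (A.D j) - PsiQ A i Q L Ψ * GQ +
      (X.p i : E) • (GQ.map (A.phi i) * PsiQ A i Q L Ψ)) := by
  set P := PsiQ A i Q L Ψ with hP
  set H := P.map (A.D j) - P * GQ + (X.p i : E) • (GQ.map (A.phi i) * P) with hH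
  have hPO : MO A i P := h.mo_psiQ hA
  have hI := h.psiQ_Q
  rw [← hP] at hI
  set T := P * Q - Q.map (A.phi i) * Ψ with hT
  have hQGφ : (Q.map (A.D j)).map (A.phi i) + GQ.map (A.phi i) * Q.map (A.phi i) =
      Q.map (A.phi i) * G.map (A.phi i) := by
    rw [← map_phi_mul, ← map_phi_add, hQG, map_phi_mul]
  have hDT : T.map (A.D j) = P.map (A.D j) * Q + P * Q.map (A.D j) -
      ((X.p i : E) • ((Q.map (A.D j)).map (A.phi i) * Ψ) + Q.map (A.phi i) * Ψ.map (A.D j)) := by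
    rw [hT, map_D_sub, map_D_mul, map_D_mul, map_D_phi hA, Matrix.smul_mul]
  have key : H * Q = T.map (A.D j) - T * G + (X.p i : E) • (GQ.map (A.phi i) * T) +
      Q.map (A.phi i) * (Ψ.map (A.D j) - Ψ * G + (X.p i : E) • (G.map (A.phi i) * Ψ)) := by
    have e1 : Q.map (A.phi i) * (G.map (A.phi i) * Ψ) =
        (Q.map (A.D j)).map (A.phi i) * Ψ + GQ.map (A.phi i) * (Q.map (A.phi i) * Ψ) := by
      rw [← Matrix.mul_assoc, ← hQGφ, Matrix.add_mul, Matrix.mul_assoc]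
    have e2 : P * Q * G = P * Q.map (A.D j) + P * GQ * Q := by
      rw [Matrix.mul_assoc, ← hQG, Matrix.mul_add, Matrix.mul_assoc]
    rw [hDT, hH, hT]
    simp only [Matrix.sub_mul, Matrix.add_mul, Matrix.mul_sub, Matrix.mul_add, Matrix.smul_mul,
      Matrix.mul_smul, smul_sub]
    rw [e1, e2]
    simp only [Matrix.mul_assoc, smul_add]
    abel
  have h1 : MD A i M' (H * Q) := by
    rw [key]
    exact ((((hI.mono hM').D hA j).sub ((hI.mono hM').mulO hG)).add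
      (MD.smulO p_mem (MD.Omul (hGQ.phi hA) (hI.mono hM')))).add
      (MD.Omul (h.hQ.phi hA) hor)
  have h2 : H = H * Q * L := by
    rw [Matrix.mul_assoc, h.hQL, Matrix.mul_one]
  rw [h2]
  exact h1.mulO h.hL

end Pool.CM.EG
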