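import Mathlib
import Pool.Agent.H4.Cube.PartC
import Pool.Agent.H4.Cube.PartD

set_option autoImplicit false

/-!
Block RED of the cube project (MP_47888e_al): the frozen statement S01357 follows from the
statement over number fields
`MainStmt : every f over a number field with Lf (f ^ m) = 0 for all m >= 1 is zero`.
-/

namespace Pool.Agent.H63.CUBE

open MvPolynomial Pool.Agent.H4.Cube

/-- The algebraic statement over number fields: a polynomial all of whose powers have
integral zero over the unit cube is zero. -/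
def MainStmt : Prop :=
  ∀ (K : Type) [Field K] [NumberField K] (n : ℕ) (f : MvPolynomial (Fin n) K),
    (∀ m : ℕ, 1 ≤ m → Lf (f ^ m) = 0) → f = 0

/-- The cube functional over an arbitrary commutative `ℚ`-algebra. -/
noncomputable def LQ {n : ℕ} (R : Type*) [CommRing R] [Algebra ℚ R] :
    MvPolynomial (Fin n) R →ₗ[R] R :=
  (basisMonomials (Fin n) R).constr R
    fun κ => algebraMap ℚ R (∏ i, (((κ i + 1 : ℕ) : ℚ))⁻¹)

theorem LQ_monomial {n : ℕ} {R : Type*} [CommRing R] [Algebra ℚ R] (κ : Fin n →₀ ℕ) (c : R) :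
    LQ R (monomial κ c) = c * algebraMap ℚ R (∏ i, (((κ i + 1 : ℕ) : ℚ))⁻¹) := by
  have h : monomial κ c = c • (basisMonomials (Fin n) R) κ := by
    rw [coe_basisMonomials, smul_monomial, smul_eq_mul, mul_one]
  rw [h, map_smul, LQ, Module.Basis.constr_basis, smul_eq_mul]

theorem LQ_map {n : ℕ} {R S : Type*} [CommRing R] [Algebra ℚ R] [CommRing S] [Algebra ℚ S]
    (ψ : R →+* S) (P : MvPolynomial (Fin n) R) :
    LQ S (MvPolynomial.map ψ P) = ψ (LQ R P) := by
  induction P using MvPolynomial.induction_on' with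
  | monomial κ c =>
    rw [map_monomial, LQ_monomial, LQ_monomial, map_mul]
    congr 1
    have : (ψ.comp (algebraMap ℚ R)) = algebraMap ℚ S := Subsingleton.elim _ _
    rw [← this]
    rfl
  | add p q hp hq => rw [map_add, map_add, map_add, map_add, hp, hq]

theorem LQ_eq_Lf {n : ℕ} {K : Type*} [Field K] [Algebra ℚ K] (P : MvPolynomial (Fin n) K) :
    LQ K P = Lf P := by
  induction P using MvPolynomial.induction_on' with
  | monomial κ c =>
    rw [LQ_monomial, Lf_monomial]
    congr 1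
    rw [map_prod]
    refine Finset.prod_congr rfl fun i _ => ?_
    rw [map_inv₀, map_natCast]
  | add p q hp hq => rw [map_add, map_add, hp, hq]

theorem Lf_complex {n : ℕ} (P : MvPolynomial (Fin n) ℂ) :
    ∫ x in Set.Icc (0 : Fin n → ℝ) 1, MvPolynomial.eval (fun i => ((x i : ℝ) : ℂ)) P = Lf P := by
  rw [integral_eval, Lf_eq]
  refine Finset.sum_congr rfl fun κ _ => ?_
  congr 1
  refine Finset.prod_congr rfl fun i _ => ?_
  push_cast
  rw [one_div]

/-- Specialisation of the coefficients to a number field. -/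
theorem eq_zero_of_main (h : MainStmt) {n : ℕ} (F : MvPolynomial (Fin n) ℂ)
    (hF : ∀ m : ℕ, 1 ≤ m → Lf (F ^ m) = 0) : F = 0 := by
  classical
  by_contra hne
  obtain ⟨κ₀, hκ₀⟩ : ∃ κ, F.coeff κ ≠ 0 := by
    by_contra hcon
    push Not at hcon
    exact hne (MvPolynomial.ext _ _ fun κ => by rw [hcon κ, coeff_zero])
  have hmem : κ₀ ∈ F.support := mem_support_iff.2 hκ₀
  let A := MvPolynomial (Option F.support) ℚ
  let ev : A →ₐ[ℚ] ℂ := aeval fun o : Option F.support =>
    match o with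
    | none => (F.coeff κ₀)⁻¹
    | some κ => F.coeff κ.1
  let U : MvPolynomial (Fin n) A := ∑ κ : F.support, monomial κ.1 (X (some κ) : A)
  have hUmap : MvPolynomial.map (ev : A →+* ℂ) U = F := by
    rw [map_sum]
    simp only [map_monomial]
    conv_rhs => rw [F.as_sum, ← Finset.sum_coe_sort]
    refine Finset.sum_congr rfl fun κ _ => ?_
    congr 1
    change ev (X (some κ)) = _
    rw [aeval_X]
  have hker : ∀ m : ℕ, 1 ≤ m → LQ A (U ^ m) ∈ RingHom.ker (ev : A →+* ℂ) := by
    intro m hm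
    rw [RingHom.mem_ker, ← LQ_map, map_pow, hUmap, LQ_eq_Lf]
    exact hF m hm
  have hinv : (X (some ⟨κ₀, hmem⟩) * X none - 1 : A) ∈ RingHom.ker (ev : A →+* ℂ) := by
    rw [RingHom.mem_ker]
    change ev _ = 0
    rw [map_sub, map_mul, aeval_X, aeval_X, map_one]
    simp only
    rw [mul_inv_cancel₀ hκ₀, sub_self]
  obtain ⟨M, hM, hle⟩ := Ideal.exists_le_maximal (RingHom.ker (ev : A →+* ℂ))
    (RingHom.ker_ne_top _)
  letI : Field (A ⧸ M) := Ideal.Quotient.field M
  have : Algebra.FiniteType ℚ (A ⧸ M) :=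
    Algebra.FiniteType.of_surjective (Ideal.Quotient.mkₐ ℚ M) (Ideal.Quotient.mkₐ_surjective ℚ M)
  have : Module.Finite ℚ (A ⧸ M) := finite_of_finite_type_of_isJacobsonRing ℚ (A ⧸ M)
  have : CharZero (A ⧸ M) := algebraRat.charZero _
  have hfin : @FiniteDimensional ℚ (A ⧸ M) _ _
      (@DivisionRing.toRatAlgebra (A ⧸ M) _ ‹CharZero (A ⧸ M)›).toModule := by
    have he : (@DivisionRing.toRatAlgebra (A ⧸ M) _ ‹CharZero (A ⧸ M)›) =
        (Ideal.Quotient.algebra ℚ : Algebra ℚ (A ⧸ M)) :=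
      Subsingleton.elim _ _
    rw [he]
    exact ‹Module.Finite ℚ (A ⧸ M)›
  have : NumberField (A ⧸ M) := @NumberField.mk (A ⧸ M) _ ‹CharZero (A ⧸ M)› hfin
  let mk : A →+* (A ⧸ M) := Ideal.Quotient.mk M
  have hzero : MvPolynomial.map mk U = 0 := by
    refine h (A ⧸ M) n _ fun m hm => ?_
    rw [← map_pow, ← LQ_eq_Lf, LQ_map]
    exact Ideal.Quotient.eq_zero_iff_mem.2 (hle (hker m hm))
  have hcoeff : (MvPolynomial.map mk U).coeff κ₀ = mk (X (some ⟨κ₀, hmem⟩)) := by
    rw [coeff_map]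
    congr 1
    rw [coeff_sum, Finset.sum_eq_single (⟨κ₀, hmem⟩ : F.support)]
    · rw [coeff_monomial, if_pos rfl]
    · intro κ _ hκ
      rw [coeff_monomial, if_neg]
      intro he
      exact hκ (Subtype.ext he)
    · intro hcon
      exact absurd (Finset.mem_univ _) hcon
  rw [hzero, coeff_zero] at hcoeff
  have h1 : mk (X (some ⟨κ₀, hmem⟩) * X none - 1) = 0 :=
    Ideal.Quotient.eq_zero_iff_mem.2 (hle hinv)
  rw [map_sub, map_mul, ← hcoeff, zero_mul, map_one, zero_sub, neg_eq_zero] at h1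
  exact one_ne_zero h1

/-- The frozen statement S01357 from the statement over number fields. -/
theorem red (h : MainStmt) :
    ∀ n : ℕ, ∀ f g : MvPolynomial (Fin n) ℂ,
      (∃ N : ℕ, ∀ m : ℕ, N ≤ m →
        ∫ x in Set.Icc (0 : Fin n → ℝ) 1,
          MvPolynomial.eval (fun i => ((x i : ℝ) : ℂ)) (f ^ m) = 0) →
      ∃ N : ℕ, ∀ m : ℕ, N ≤ m →
        ∫ x in Set.Icc (0 : Fin n → ℝ) 1,
          MvPolynomial.eval (fun i => ((x i : ℝ) : ℂ)) (f ^ m * g) = 0 := by
  rintro n f g ⟨N, hN⟩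
  have hf : f = 0 := by
    by_contra hf
    have hF : f ^ (N + 1) ≠ 0 := pow_ne_zero _ hf
    apply hF
    refine eq_zero_of_main h _ fun m hm => ?_
    rw [← pow_mul, ← Lf_complex]
    apply hN
    calc N ≤ N + 1 := Nat.le_succ N
      _ = (N + 1) * 1 := (mul_one _).symm
      _ ≤ (N + 1) * m := Nat.mul_le_mul_left _ hm
  refine ⟨1, fun m hm => ?_⟩
  have hm' : m ≠ 0 := by omega
  rw [hf, zero_pow hm', zero_mul]
  simp

end Pool.Agent.H63.CUBE
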