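import Pool.Agent.H63.CUBE.QF
import Pool.Agent.H19.CM.VALU
import Pool.Agent.H80.CM.Swap

set_option autoImplicit false

/-! # MP_47888e_al, block E, part 6: the swap lemma for square matrices over a PF field -/

open Matrix

namespace Pool.CM.EG

theorem swapStmt : SwapStmt := by
  intro X E _ A hA i m _ _ n M U V hU hV hn h
  obtain ⟨v1, v2, v3, v4, v5, v6, v7⟩ := valu X E A hA i
  let O := A.O i
  have hval : ∀ {k l : Type} (R : Matrix k l O) (a : k) (b : l),
      (R.map (Subtype.val : O → E)) a b = (R a b : E) := fun R a b => rfl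
  have hp0 : ((X.p i : ℕ) : O) ≠ 0 := by
    intro h0
    apply p_ne hA i
    have := congrArg (Subtype.val : O → E) h0
    push_cast at this
    exact this
  have hmx : ∀ y : O, IsUnit (1 + ((X.p i : ℕ) : O) * y) := by
    intro y
    have h1 : A.Un i 1 := ⟨one_ne_zero, (A.O i).one_mem, by
      rw [inv_one]; exact (A.O i).one_mem⟩
    have h2 : A.Dv i 1 ((X.p i : E) * (y : E)) := ⟨y, y.2, by rw [pow_one]⟩
    obtain ⟨h3, h4, h5⟩ := v5 _ _ h1 h2
    refine IsUnit.of_mul_eq_one (⟨(1 + (X.p i : E) * (y : E))⁻¹, h5⟩ : O) (Subtype.ext ?_)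
    push_cast
    exact mul_inv_cancel₀ h3
  obtain ⟨e⟩ : Nonempty (m ≃ Fin (Fintype.card m)) := ⟨Fintype.equivFin m⟩
  choose R hR hRe using h
  -- the matrices over `O`
  let UO : Matrix m m O := Matrix.of fun a b => ⟨U a b, hU a b⟩
  let VO : Matrix m m O := Matrix.of fun a b => ⟨V a b, hV a b⟩
  let RO : Matrix m m O := Matrix.of fun a b => ⟨R a b, hR a b⟩
  have hUV : UO * VO = ((X.p i : ℕ) : O) ^ n • (1 : Matrix m m O) +
      ((X.p i : ℕ) : O) ^ M • RO := by
    ext a b
    have h1 := hRe a b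
    rw [Matrix.sub_apply, sub_eq_iff_eq_add, Matrix.mul_apply, Matrix.smul_apply,
      Matrix.one_apply] at h1
    rw [Matrix.mul_apply, Matrix.add_apply, Matrix.smul_apply, Matrix.smul_apply,
      Matrix.one_apply]
    simp only [UO, VO, RO, Matrix.of_apply, smul_eq_mul, AddSubmonoidClass.coe_finsetSum,
      Subring.coe_add, Subring.coe_mul, Subring.coe_pow, Subring.coe_natCast]
    rw [h1]
    split_ifs <;> simp [add_comm]
  have hUV' : Matrix.reindex e e UO * Matrix.reindex e e VO =
      ((X.p i : ℕ) : O) ^ n • (1 : Matrix (Fin (Fintype.card m)) (Fin (Fintype.card m)) O) +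
      ((X.p i : ℕ) : O) ^ M • Matrix.reindex e e RO := by
    have := congrArg (Matrix.reindex e e) hUV
    rw [Matrix.reindex_apply, Matrix.reindex_apply, Matrix.reindex_apply,
      Matrix.submatrix_mul_equiv, ← Matrix.reindex_apply, this]
    ext a b
    simp only [Matrix.reindex_apply, Matrix.submatrix_apply, Matrix.add_apply, Matrix.smul_apply,
      Matrix.one_apply, EmbeddingLike.apply_eq_iff_eq]
  obtain ⟨R', hR'⟩ := Pool.H80.CM.swap hp0 hmx hn _ _ _ hUV'
  intro a b
  refine ⟨(R' (e a) (e b) : E), (R' (e a) (e b)).2, ?_⟩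
  have h2 := congrFun (congrFun hR' (e a)) (e b)
  rw [Matrix.reindex_apply, Matrix.reindex_apply, Matrix.submatrix_mul_equiv] at h2
  simp only [Matrix.submatrix_apply, Matrix.add_apply, Matrix.smul_apply,
      Matrix.one_apply, EmbeddingLike.apply_eq_iff_eq, Equiv.symm_apply_apply,
      Matrix.mul_apply, smul_eq_mul] at h2
  have h3 := congrArg (Subtype.val : O → E) h2
  simp only [UO, VO, Matrix.of_apply, AddSubmonoidClass.coe_finsetSum,
      Subring.coe_add, Subring.coe_mul, Subring.coe_pow, Subring.coe_natCast] at h3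
  rw [Matrix.sub_apply, Matrix.mul_apply, Matrix.smul_apply, Matrix.one_apply, h3, smul_eq_mul]
  split_ifs <;> simp

end Pool.CM.EG
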