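import Pool.Agent.H63.CUBE.Cmp1

set_option autoImplicit false
set_option linter.unusedSectionVars false

/-!
# MP_47888e_al, block E, part 11: T1 from a quotient package

`Σ_σ chi'_σ(h_σ(y_σ)) = 1` if `Σ_σ R_σ y_σ = e_Q` in the quotient.
-/

open Matrix Pool.CM Pool.H93.Cube

namespace Pool.CM.EG

variable {E : Type} [Field E]

section
variable {m u m₂ u₂ : Type} [Fintype m] [DecidableEq m] [Fintype u] [DecidableEq u]
  [Fintype m₂] [DecidableEq m₂] [Fintype u₂] [DecidableEq u₂]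
  {G : Matrix m m (RatFunc E)} {G₂ : Matrix m₂ m₂ (RatFunc E)}

/-- functoriality of the value for a horizontal matrix over the same field -/
theorem fun1 (d : LD0 G u) (d₂ : LD0 G₂ u₂) (R : Matrix m₂ m (RatFunc E))
    (hR : R.map (nabF E) + G₂ * R = R * G) (chi₂ : m₂ → RatFunc E) (v : m → RatFunc E) :
    hcL d (chi₂ ᵥ* R) ⬝ᵥ hvL d v = hcL d₂ chi₂ ⬝ᵥ hvL d₂ (R *ᵥ v) := by
  have h1 : (R.map (ex E)).map (nabD E) + G₂.map (ex E) * R.map (ex E) =
      R.map (ex E) * G.map (ex E) := by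
    have h2 := congrArg (fun W : Matrix m₂ m (RatFunc E) => W.map (ex E)) hR
    have h3 : (R.map (nabF E) + G₂ * R).map (ex E) =
        (R.map (ex E)).map (nabD E) + G₂.map (ex E) * R.map (ex E) := by
      rw [← Matrix.map_mul]
      refine Matrix.ext fun x y => ?_
      simp only [Matrix.map_apply, Matrix.add_apply, map_add, nabD_apply, ex_nabF]
    have h4 : (R * G).map (ex E) = R.map (ex E) * G.map (ex E) := Matrix.map_mul
    rw [← h3, ← h4]
    exact h2
  have h5 := val_functor nabD_leib (coef0 (E := E)) (lim1 d) (lim1 d₂) (R.map (ex E)) h1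
    (fun a => ex E (chi₂ a)) (fun a => ex E (v a))
  have h6 : (fun a => ex E (chi₂ a)) ᵥ* R.map (ex E) = fun b => ex E ((chi₂ ᵥ* R) b) := by
    funext b
    simp only [Matrix.vecMul, dotProduct, map_sum, map_mul, Matrix.map_apply]
  have h7 : R.map (ex E) *ᵥ (fun a => ex E (v a)) = fun b => ex E ((R *ᵥ v) b) := by
    funext b
    simp only [Matrix.mulVec, dotProduct, map_sum, map_mul, Matrix.map_apply]
  rw [h6, h7] at h5
  exact h5

theorem hvL_add (d : LD0 G u) (v w : m → RatFunc E) : hvL d (v + w) = hvL d v + hvL d w := by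
  funext b
  rw [Pi.add_apply, hvL_apply, hvL_apply, hvL_apply, ← HahnSeries.coeff_add,
    ← Finset.sum_add_distrib]
  congr 1
  refine Finset.sum_congr rfl fun a _ => ?_
  rw [Pi.add_apply, map_add, mul_add]

theorem hvL_zero (d : LD0 G u) : hvL d (0 : m → RatFunc E) = 0 := by
  funext b
  rw [hvL_apply]
  simp

theorem hvL_sum {S : Type} (s : Finset S) (d : LD0 G u) (v : S → m → RatFunc E) :
    hvL d (∑ σ ∈ s, v σ) = ∑ σ ∈ s, hvL d (v σ) := by
  classical
  induction s using Finset.induction_on with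
  | empty => simp [hvL_zero]
  | insert a s ha ih => rw [Finset.sum_insert ha, Finset.sum_insert ha, hvL_add, ih]

/-- the value of the special vector is one -/
theorem val_e (d : LD0 G u) (e : m) (e' : u) (hZ : ∀ x, d.Z x e' = if x = e then 1 else 0)
    (chi : m → RatFunc E) (hchi : chi e = 1) :
    hcL d chi ⬝ᵥ hvL d (Pi.single e 1) = 1 := by
  have h1 : hvL d (Pi.single e 1) = Pi.single e' 1 := by
    funext b
    rw [hvL_apply]
    have h2 : ∑ a, d.Z' a b * ex E ((Pi.single e 1 : m → RatFunc E) a) = d.Z' e b := by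
      rw [Finset.sum_eq_single e]
      · rw [Pi.single_eq_same, map_one, mul_one]
      · intro c _ hc
        rw [Pi.single_eq_of_ne hc, map_zero, mul_zero]
      · intro h
        exact absurd (Finset.mem_univ _) h
    have h3 := congrFun (congrFun d.ZZ b) e'
    rw [Matrix.mul_apply] at h3
    have h4 : ∑ x, (d.Z'.transpose) b x * d.Z x e' = d.Z' e b := by
      rw [Finset.sum_eq_single e]
      · rw [hZ, if_pos rfl, mul_one]
        rfl
      · intro c _ hc
        rw [hZ, if_neg hc, mul_zero]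
      · intro h
        exact absurd (Finset.mem_univ _) h
    rw [h4, Matrix.one_apply] at h3
    rw [h2, h3]
    by_cases hb : b = e'
    · subst hb
      rw [if_pos rfl, Pi.single_eq_same, HahnSeries.coeff_one, if_pos rfl]
    · rw [if_neg hb, Pi.single_eq_of_ne hb, HahnSeries.coeff_zero]
  rw [h1, dotProduct_single, mul_one, hcL_apply]
  have h5 : ∑ a, ex E (chi a) * d.Z a e' = 1 := by
    rw [Finset.sum_eq_single e]
    · rw [hZ, if_pos rfl, mul_one, hchi, map_one]
    · intro c _ hc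
      rw [hZ, if_neg hc, mul_zero]
    · intro h
      exact absurd (Finset.mem_univ _) h
  rw [h5, HahnSeries.coeff_one, if_pos rfl]

end

/-- **T1, linear algebra part.** -/
theorem t1a {S : Type} [Fintype S] {m u : S → Type} [∀ σ, Fintype (m σ)]
    [∀ σ, DecidableEq (m σ)] [∀ σ, Fintype (u σ)] [∀ σ, DecidableEq (u σ)]
    {G : ∀ σ, Matrix (m σ) (m σ) (RatFunc E)} (d : ∀ σ, LD0 (G σ) (u σ))
    {q v : Type} [Fintype q] [DecidableEq q] [Fintype v] [DecidableEq v]
    {GQ : Matrix q q (RatFunc E)} (dQ : LD0 GQ v) (eQ : q) (e' : v)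
    (hZ : ∀ x, dQ.Z x e' = if x = eQ then 1 else 0) (chiQ : q → RatFunc E)
    (hchiQ : chiQ eQ = 1) (R : ∀ σ, Matrix q (m σ) (RatFunc E))
    (hR : ∀ σ, (R σ).map (nabF E) + GQ * R σ = R σ * G σ)
    (chi : ∀ σ, m σ → RatFunc E) (hchi : ∀ σ, chiQ ᵥ* R σ = chi σ)
    (y : ∀ σ, m σ → RatFunc E) (hy : ∑ σ, R σ *ᵥ y σ = Pi.single eQ 1) :
    ∑ σ, hcL (d σ) (chi σ) ⬝ᵥ hvL (d σ) (y σ) = 1 := by
  have h1 : ∀ σ, hcL (d σ) (chi σ) ⬝ᵥ hvL (d σ) (y σ) =
      hcL dQ chiQ ⬝ᵥ hvL dQ (R σ *ᵥ y σ) := by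
    intro σ
    rw [← hchi σ]
    exact fun1 (d σ) dQ (R σ) (hR σ) chiQ (y σ)
  simp only [h1]
  rw [← dotProduct_sum, ← hvL_sum, hy]
  exact val_e dQ eQ e' hZ chiQ hchiQ

end Pool.CM.EG
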