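import Pool.Agent.H63.CUBE.DInf
import Pool.Agent.H91.CUBE.FunLim
import Pool.Agent.H93.CUBE.LStmts

set_option autoImplicit false
set_option linter.unusedSectionVars false
set_option linter.unusedVariables false

/-!
# MP_47888e_al, block E: the limit of a functional which is horizontal (no logarithms)

`A : PF X E`, test field `K`, `ι : E →+* K`; `d` limit data over `A`; `δ = Z' x`.
-/

open Polynomial

namespace Pool.CM.EG

open Pool.CM Pool.H93.Cube

variable {X : Idx} {E K : Type} [Field E] [Field K]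

section
variable {m u : Type} [Fintype m] [DecidableEq m] [Fintype u] [DecidableEq u]
  {G : Matrix m m (RatFunc E)}

/-- existence of the constant row `x` -/
theorem exists_x (κ : E →+* K) (d : LD0 G u) (δ : m → LaurentSeries K)
    (hδ : ∀ b, nab (δ b) = ∑ a, δ a * cmapR κ (ex E (G a b))) :
    ∃ x : u → K, ∀ a, δ a = ∑ b, cmapR κ (d.Z' a b) * HahnSeries.C (x b) := by
  refine d.compl' K κ 1 δ ?_
  rw [pow_one]
  funext b
  rw [op_apply, hδ b]
  change _ = (0 : LaurentSeries K)
  rw [← sub_eq_zero] at *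
  have h1 : ∀ a, (-(G.map ((cmapR κ).comp (ex E))).transpose) b a * δ a =
      -(δ a * cmapR κ (ex E (G a b))) := by
    intro a
    rw [Matrix.neg_apply, Matrix.transpose_apply, Matrix.map_apply, RingHom.comp_apply]
    ring
  rw [Finset.sum_congr rfl fun a _ => h1 a, Finset.sum_neg_distrib]
  ring

/-- `Z Z' ^ T` acts as the identity on the constants -/
theorem zz_apply (κ : E →+* K) (d : LD0 G u) (x : u → K) (c : u) :
    ∑ a, cmapR κ (d.Z a c) * ∑ b, cmapR κ (d.Z' a b) * HahnSeries.C (x b) =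
      HahnSeries.C (x c) := by
  have h0 : d.Z.transpose * d.Z' = 1 := by
    rw [← Matrix.transpose_transpose d.Z', ← Matrix.transpose_mul, d.ZZ, Matrix.transpose_one]
  have h1 : ∀ b, ∑ a, cmapR κ (d.Z a c) * cmapR κ (d.Z' a b) = if c = b then 1 else 0 := by
    intro b
    have h2 := congrArg (cmapR κ) (congrFun (congrFun h0 c) b)
    rw [Matrix.mul_apply, map_sum, Matrix.one_apply] at h2
    simp only [map_mul, Matrix.transpose_apply] at h2
    rw [h2]
    split
    · exact map_one _
    · exact map_zero _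
  calc ∑ a, cmapR κ (d.Z a c) * ∑ b, cmapR κ (d.Z' a b) * HahnSeries.C (x b)
      = ∑ b, (∑ a, cmapR κ (d.Z a c) * cmapR κ (d.Z' a b)) * HahnSeries.C (x b) := by
        simp only [Finset.mul_sum, Finset.sum_mul]
        rw [Finset.sum_comm]
        exact Finset.sum_congr rfl fun b _ => Finset.sum_congr rfl fun a _ => by ring
    _ = HahnSeries.C (x c) := by
        simp only [h1]
        rw [Finset.sum_eq_single c]
        · rw [if_pos rfl, one_mul]
        · intro b _ hb
          rw [if_neg (Ne.symm hb), zero_mul]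
        · intro h
          exact absurd (Finset.mem_univ _) h

theorem x_unique (κ : E →+* K) (d : LD0 G u) (w : u → K)
    (h : ∀ a, ∑ b, cmapR κ (d.Z' a b) * HahnSeries.C (w b) = 0) (c : u) : w c = 0 := by
  have h1 := zz_apply κ d w c
  simp only [h, mul_zero, Finset.sum_const_zero] at h1
  have h2 : HahnSeries.C (w c) = (HahnSeries.C (0 : K) : LaurentSeries K) := by
    rw [← h1, map_zero]
  exact HahnSeries.C_injective h2

/-- the value of `x` on the special vector -/
theorem x_e (κ : E →+* K) (d : LD0 G u) (δ : m → LaurentSeries K) (x : u → K)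
    (hx : ∀ a, δ a = ∑ b, cmapR κ (d.Z' a b) * HahnSeries.C (x b)) (e : m) (e' : u)
    (hZ : ∀ y, d.Z y e' = if y = e then 1 else 0) : HahnSeries.C (x e') = δ e := by
  rw [← zz_apply κ d x e']
  simp only [← hx]
  rw [Finset.sum_eq_single e]
  · rw [hZ, if_pos rfl, map_one, one_mul]
  · intro b _ hb
    rw [hZ, if_neg hb, map_zero, zero_mul]
  · intro h
    exact absurd (Finset.mem_univ _) h

theorem coeff_C_mul' (a : K) (f : LaurentSeries K) (k : ℤ) :
    (HahnSeries.C a * f).coeff k = a * f.coeff k := by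
  rw [HahnSeries.C_mul_eq_smul, HahnSeries.coeff_smul, smul_eq_mul]

/-- the constant term of the value of the functional on a vector -/
theorem x_val (κ : E →+* K) (d : LD0 G u) (δ : m → LaurentSeries K) (x : u → K)
    (hx : ∀ a, δ a = ∑ b, cmapR κ (d.Z' a b) * HahnSeries.C (x b)) (v : m → RatFunc E) :
    (∑ a, δ a * cmapR κ (ex E (v a))).coeff 0 = ∑ b, x b * κ (hvL d v b) := by
  have h1 : ∑ a, δ a * cmapR κ (ex E (v a)) =
      ∑ b, HahnSeries.C (x b) * cmapR κ (∑ a, d.Z' a b * ex E (v a)) := by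
    simp only [hx, Finset.sum_mul, map_sum, map_mul, Finset.mul_sum]
    rw [Finset.sum_comm]
    exact Finset.sum_congr rfl fun b _ => Finset.sum_congr rfl fun a _ => by ring
  rw [h1, HahnSeries.coeff_sum]
  refine Finset.sum_congr rfl fun b _ => ?_
  rw [coeff_C_mul', cmapR_coeff, hvL_apply]

/-- horizontality in another direction -/
theorem x_hor (κ : E →+* K) (d : LD0 G u) (δ : m → LaurentSeries K) (x : u → K)
    (hx : ∀ a, δ a = ∑ b, cmapR κ (d.Z' a b) * HahnSeries.C (x b))
    (D : Derivation ℤ E E) (DK : K →+ K) (hDK : Leib DK) (hκ : ∀ y, DK (κ y) = κ (D y))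
    (Ga : Matrix m m (RatFunc E)) (Ga' : Matrix u u E)
    (hD' : d.Z'.map (cmap (D : E →+ E)) - (Ga.map (ex E)).transpose * d.Z' =
      -(d.Z' * cM Ga'.transpose))
    (hδ : ∀ b, cmap DK (δ b) = ∑ a, δ a * cmapR κ (ex E (Ga a b))) (b : u) :
    DK (x b) = ∑ a, x a * κ (Ga' a b) := by
  have hC : ∀ y : K, cmap DK (HahnSeries.C y) = HahnSeries.C (DK y) := fun y =>
    cmap_single DK 0 y
  have hZ : ∀ a c, cmap DK (cmapR κ (d.Z' a c)) = cmapR κ (cmap (D : E →+ E) (d.Z' a c)) := by
    intro a c
    ext k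
    rw [cmap_coeff, cmapR_coeff, cmapR_coeff, cmap_coeff, hκ]
    rfl
  have hD2 : ∀ a c, cmap (D : E →+ E) (d.Z' a c) = ∑ y, ex E (Ga y a) * d.Z' y c -
      ∑ y, d.Z' a y * HahnSeries.C (Ga' c y) := by
    intro a c
    have h2 := congrFun (congrFun hD' a) c
    rw [Matrix.sub_apply, Matrix.map_apply, Matrix.neg_apply, Matrix.mul_apply, Matrix.mul_apply,
      sub_eq_iff_eq_add] at h2
    rw [h2, sub_eq_add_neg, add_comm]
    rfl
  have key : ∀ a, ∑ c, cmapR κ (d.Z' a c) *
      HahnSeries.C (DK (x c) - ∑ y, x y * κ (Ga' y c)) = 0 := by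
    intro a
    have h3 : cmap DK (δ a) = ∑ c, (cmapR κ (cmap (D : E →+ E) (d.Z' a c)) *
        HahnSeries.C (x c) + cmapR κ (d.Z' a c) * HahnSeries.C (DK (x c))) := by
      rw [hx a, map_sum]
      refine Finset.sum_congr rfl fun c _ => ?_
      rw [cmap_leib hDK, hZ, hC]
    have h4 : ∑ y, δ y * cmapR κ (ex E (Ga y a)) =
        ∑ c, cmapR κ (∑ y, ex E (Ga y a) * d.Z' y c) * HahnSeries.C (x c) := by
      simp only [hx, Finset.sum_mul, map_sum, map_mul]
      rw [Finset.sum_comm]
      exact Finset.sum_congr rfl fun b _ => Finset.sum_congr rfl fun a _ => by ring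
    have h5 : ∑ c, cmapR κ (∑ y, d.Z' a y * HahnSeries.C (Ga' c y)) * HahnSeries.C (x c) =
        ∑ c, cmapR κ (d.Z' a c) * HahnSeries.C (∑ y, x y * κ (Ga' y c)) := by
      simp only [map_sum, map_mul, Finset.sum_mul, Finset.mul_sum, cmapR_C]
      rw [Finset.sum_comm]
      exact Finset.sum_congr rfl fun b _ => Finset.sum_congr rfl fun a _ => by ring
    have h6 := hδ a
    rw [h3, h4] at h6
    simp only [hD2, map_sub, sub_mul, add_comm, Finset.sum_add_distrib, Finset.sum_sub_distrib]
      at h6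
    rw [h5] at h6
    simp only [map_sub, mul_sub, Finset.sum_sub_distrib]
    have h7 := h6
    linear_combination h7
  have := x_unique κ d (fun c => DK (x c) - ∑ y, x y * κ (Ga' y c)) key b
  exact sub_eq_zero.mp this

end

end Pool.CM.EG
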