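import Pool.Agent.H63.CUBE.T1b

set_option autoImplicit false
set_option linter.unusedSectionVars false
set_option linter.unusedVariables false

/-!
# MP_47888e_al, block E: the Frobenius matrices and the functional in the limit
-/

open Polynomial

namespace Pool.CM.EG

open Pool.CM Pool.H93.Cube

variable {X : Idx} {E K : Type} [Field E] [Field K] {A : PF X E}

/-- monotonicity of the test groups -/
theorem MC_mono {K : Type} [CommRing K] (hA : A.Ax) (T : FUN.TG A K) {i : X.I} {n M M' : ℕ}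
    {L L' : ℤ} {d d' : ℕ} {N : Type} [Fintype N] {δ : N → K} {Ph : Matrix N N E}
    (h : FUN.MC T i n M L d δ Ph) (hM : M' ≤ M) (hL : L' ≤ L) (hd : d ≤ d') :
    FUN.MC T i n M' L' d' δ Ph := by
  obtain ⟨g, hg, h1, h2⟩ := h
  exact ⟨g, hA.den_mono i _ _ hd hg, fun b c => hA.pol_mono i _ _ hd (h1 b c),
    fun b => T.anti i _ _ _ _ hM hL (h2 b)⟩

theorem Frob_mono {m : Type} [Fintype m] [DecidableEq m] (hT : TCLStmt) (hA : A.Ax)
    {G : A.J → Matrix m m E} {chi : m → E} {e : m} {n : ℕ} {i : X.I} {M C C' : ℕ}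
    {Phi Phi' : Matrix m m E} (h : Frob A G chi e n i M C Phi Phi') (hC : C ≤ C') :
    Frob A G chi e n i M C' Phi Phi' :=
  { h with
    t1 := fun a b => (hT X _ A hA i).2.1 _ _ (Nat.mul_le_mul_right _ hC) (h.t1 a b)
    t2 := fun a b => (hT X _ A hA i).2.1 _ _ (Nat.mul_le_mul_right _ hC) (h.t2 a b) }

theorem CongT_mono {m m' : Type} {O : Subring E} {p M : ℕ} {K K' : ℤ}
    {Y Y' : Matrix m m' (LaurentSeries E)} (h : CongT O p M K Y Y') (hK : K' ≤ K) :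
    CongT O p M K' Y Y' := fun a b k hk => h a b k (lt_of_lt_of_le hk hK)

/-- lemma FUN (helper91) -/
def FunStmt : Prop := ∀ (X : Idx) (E : Type) [Field E] (A : PF X E) (_ : A.Ax) (_ : A.ext.Ax)
    (hX : XPHStmt) (K : Type) [CommRing K] (T : FUN.TG A K) (_ : T.Rg)
    (m u : Type) [Fintype m] [Fintype u] [DecidableEq u]
    (Z Z' : Matrix m u (LaurentSeries E)) (_ : Z'.transpose * Z = 1)
    (x : u → K) (δ : m → LaurentSeries K)
    (_ : ∀ a, δ a = ∑ b, FUN.mapL T.ι (Z' a b) * HahnSeries.C (x b)),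
    ∃ KK : ℤ, ∀ C1 C1' : ℕ, ∃ C2 : ℕ, ∀ C3 : ℕ, X.Ev fun i => ∀ (n M : ℕ) (L : ℤ),
      ((C2 * X.p i : ℕ) : ℤ) ≤ L → L ≤ (C3 : ℤ) * X.p i →
      ∀ (Ph : Matrix m m (RatFunc E)) (PhH : Matrix u u E),
      FUN.MC (T.lau hX) i n M L (C1 * X.p i) δ Ph → (∀ a b, PhH a b ∈ A.t i (C1' * X.p i)) →
      Pool.H93.Cube.CongT (A.O i) (X.p i) M KK
        (Ph.map (ex E) * Z'.map (Pool.H93.Cube.phiL (A.phi i) (X.p i) (X.hp i).ne_zero))
        (Z' * Pool.H93.Cube.cM PhH) →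
      FUN.MC T i n M (L - ((C2 * X.p i : ℕ) : ℤ)) (C2 * X.p i) x PhH

section
variable {m u : Type} [Fintype m] [DecidableEq m] [Fintype u] [DecidableEq u]

/-- **One step of the limit**, for a package with a compatible functional. -/
theorem lamFrob (hfun : FunStmt) (hT : TCLStmt) (hA : A.Ax) (hB : A.ext.Ax) (hX : XPHStmt) (hTRA : TRAStmt)
    [Finite A.J] {K : Type} [CommRing K] (T : FUN.TG A K) (hTg : T.Rg)
    (G : Option A.J → Matrix m m (RatFunc E)) (chi : m → RatFunc E) (e : m) (n : ℕ)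
    (P : Pkg A.ext G chi e n) (e' : u) (d : LD A G e u e') (x : u → K)
    (δ : m → LaurentSeries K)
    (hx : ∀ a, δ a = ∑ b, FUN.mapL T.ι (d.Z' a b) * HahnSeries.C (x b))
    (hF : ∀ M, ∃ C, ∀ T' : ℤ, X.Ev fun i => ∃ Phi Phi' : Matrix m m (RatFunc E),
      Frob A.ext G chi e n i M C Phi Phi' ∧
      FUN.MC (T.lau hX) i n M (X.p i * T') (C * X.p i) δ Phi') :
    ∀ M, ∃ C, ∀ T' : ℤ, X.Ev fun i => ∃ Phi Phi' : Matrix u u E,
      Frob A d.G' (d.chi' chi) e' n i M C Phi Phi' ∧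
      FUN.MC T i n M (X.p i * T') (C * X.p i) x Phi' := by
  intro M
  obtain ⟨c, hc⟩ := hTRA X E A hA inferInstance m G chi e n P u e' d
  obtain ⟨C1, hC1⟩ := hF (M + c)
  obtain ⟨KK, hKK⟩ := hfun X E A hA hB hX K T hTg m u d.Z d.Z' d.ZZ x δ hx
  obtain ⟨C2, hC2⟩ := hc M C1 KK.toNat
  obtain ⟨C3, hC3⟩ := hKK C1 C2
  refine ⟨max C2 C3, fun T' => ?_⟩
  obtain ⟨L, hL⟩ : ∃ L : ℕ, T' ≤ L := ⟨T'.toNat, Int.self_le_toNat T'⟩
  refine (((hC1 (L + C3 : ℕ)).and hC2).and (hC3 (L + C3))).mono ?_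
  rintro i ⟨⟨⟨Phi, Phi', hFr, hMC⟩, h2⟩, h3⟩
  obtain ⟨PhiH, PhiH', hFH, -, hcong⟩ := h2 Phi Phi' hFr
  have hp := (X.hp i).pos
  refine ⟨PhiH, PhiH', Frob_mono hT hA hFH (le_max_left _ _), ?_⟩
  have h4 := h3 n M (X.p i * ((L + C3 : ℕ) : ℤ)) (by
      push_cast
      have : (0 : ℤ) ≤ X.p i * L := by positivity
      nlinarith) (by
      push_cast
      exact le_of_eq (mul_comm _ _)) Phi' PhiH'
    (MC_mono hB _ hMC (Nat.le_add_right _ _) le_rfl le_rfl)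
    hFH.t2 (CongT_mono hcong (Int.self_le_toNat KK))
  refine MC_mono hA T h4 le_rfl ?_ (Nat.mul_le_mul_right _ (le_max_right _ _))
  push_cast
  have h5 : (X.p i : ℤ) * T' ≤ X.p i * L := mul_le_mul_of_nonneg_left hL (by positivity)
  linarith [mul_comm (X.p i : ℤ) C3]

end

end Pool.CM.EG
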