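import Pool.Agent.H63.CUBE.T1d
import Pool.Agent.H50.CUBE.D8
import Pool.Agent.H91.CUBE.FunConv

set_option autoImplicit false
set_option linter.unusedSectionVars false
set_option linter.unusedVariables false

/-!
# MP_47888e_al, block E: THEOREM T1 without block D
-/

open Polynomial Matrix

namespace Pool.CM.EG

open Pool.CM Pool.H93.Cube Pool.CUBE.D

theorem qps : QPSStmt := by
  intro X E _ A hA hB Z κ _ _ _ m _ _ G chi e n hfin hP δ hδ hst hF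
  have := hfin
  obtain ⟨q, eQ, GQ, chiQ, R, h1, h2, h3, h4, h5⟩ :=
    quotPkgS hA Z G chi e n hP δ hδ hst hF
  exact ⟨q, eQ, GQ, chiQ, R, h1, h2, h3, h4, fun σ => funext fun b => h5 σ b⟩

/-- the statement T1 -/
def T1Stmt : Prop := ∀ (X : Idx) (E : Type) [Field E] (A : PF X E) (hA : A.Ax) (_ : Finite A.J)
    (κ : Type) [Fintype κ] [DecidableEq κ] [Nonempty κ] (m u v : κ → Type)
    [∀ σ, Fintype (m σ)] [∀ σ, DecidableEq (m σ)] [∀ σ, Fintype (u σ)] [∀ σ, DecidableEq (u σ)]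
    [∀ σ, Fintype (v σ)] [∀ σ, DecidableEq (v σ)]
    (G : ∀ σ, Option (Option A.J) → Matrix (m σ) (m σ) (RatFunc (RatFunc E)))
    (chi : ∀ σ, m σ → RatFunc (RatFunc E)) (e : ∀ σ, m σ) (n : ℕ)
    (_ : ∀ σ, Pkg A.ext.ext (G σ) (chi σ) (e σ) n)
    (e' : ∀ σ, u σ) (d : ∀ σ, LD A.ext (G σ) (e σ) (u σ) (e' σ))
    (e'' : ∀ σ, v σ) (d' : ∀ σ, LD A (d σ).G' (e' σ) (v σ) (e'' σ))
    (δ : ∀ σ, m σ → LaurentSeries (LaurentSeries E))
    (_ : ∀ σ b, nab (δ σ b) = ∑ a, δ σ a * exTL E (G σ none a b))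
    (_ : ∀ σ (j : Option A.J) b,
      cmap (dInf A j) (δ σ b) = ∑ a, δ σ a * exTL E (G σ (some j) a b))
    (_ : ∀ σ, δ σ (e σ) = 1)
    (_ : ∀ σ M, ∃ C, ∀ T : ℤ, X.Ev fun i => ∃ Phi Phi' : Matrix (m σ) (m σ) (RatFunc (RatFunc E)),
      Frob A.ext.ext (G σ) (chi σ) (e σ) n i M C Phi Phi' ∧
      FUN.MC ((FUN.TG.inf A hA).lau All.xph) i n M (X.p i * T) (C * X.p i) (δ σ) Phi')
    (w : ∀ σ, m σ → RatFunc (RatFunc E))
    (_ : ∑ σ, (∑ a, δ σ a * exTL E (w σ a)).coeff 0 = 1),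
    ∑ σ, val2 (d σ).toLD0 (d' σ).toLD0 (chi σ) (w σ) = 1

theorem t1 (hfun : FunStmt) (hLDX : LDXStmt) (hTRA : TRAStmt) (hLPK : LPKStmt) : T1Stmt := by
  intro X E _ A hA hfin κ _ _ _ m u v _ _ _ _ _ _ G chi e n P e' d e'' d' δ h1 h2 h3 h4 w hw
  have hB := All.ext X E A hA
  have hC := All.ext X (RatFunc E) A.ext hB
  exact T1 hfun qps All.tcl All.xph hLDX hTRA hLPK A hA hB hC hfin (exnInf A hA) rfl
    (fun i n M C T m _ δ Ph h => FUN.mcomp_inf hA h) G chi e n P e' d e'' d' δ h1 h2 h3 h4 w hw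

end Pool.CM.EG
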