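import Pool.Agent.H63.CUBE.TD

set_option autoImplicit false
set_option linter.unusedSectionVars false
set_option linter.unusedVariables false

/-!
# MP_47888e_al, block E: the value of the functional at infinity, and T1 for tame packages
-/

open Finset MvPolynomial Pool.CM

namespace Pool.CM.EG

open Pool.CM Pool.H93.Cube Pool.CUBE

/-- the constants -/
noncomputable def cc2 (E : Type) [Field E] : E →+* RatFunc (RatFunc E) :=
  (algebraMap (RatFunc E) (RatFunc (RatFunc E))).comp (algebraMap E (RatFunc E))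

/-- the variable `s` -/
noncomputable def sVar (E : Type) [Field E] : RatFunc (RatFunc E) :=
  algebraMap (RatFunc E) (RatFunc (RatFunc E)) RatFunc.X

/-- `s g` -/
noncomputable def om {n : ℕ} {E : Type} [Field E] (g : Poly n E) :
    Poly n (RatFunc (RatFunc E)) := C (sVar E) * map (cc2 E) g

section
variable {E : Type} [Field E]

theorem exTl_alg (y : RatFunc E) :
    exTl E (algebraMap (RatFunc E) (RatFunc (RatFunc E)) y) = HahnSeries.C (D.exInf E y) := by
  change FUN.mapL (D.exInf E) (ex (RatFunc E) (algebraMap (RatFunc E) (RatFunc (RatFunc E)) y)) = _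
  rw [FUN.ex_algE, FUN.mapL_C]

theorem exTl_scc (r : E) : exTl E (sVar E * cc2 E r) = HahnSeries.C (HahnSeries.single (-1) r) := by
  have h1 : sVar E * cc2 E r = algebraMap (RatFunc E) (RatFunc (RatFunc E))
      (RatFunc.X * algebraMap E (RatFunc E) r) := by
    rw [sVar, cc2, RingHom.comp_apply, map_mul]
  rw [h1, exTl_alg, map_mul, D.exInf_X, D.exInf_C, HahnSeries.C_apply (a := r),
    HahnSeries.single_mul_single, add_zero, one_mul]

variable {n D : ℕ} {N : Poly n E}

theorem om_add (g h : Poly n E) : om (g + h) = om g + om h := by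
  rw [om, om, om, map_add, mul_add]

theorem om_monomial (a : Fin (n + 1) →₀ ℕ) (r : E) :
    om (monomial a r) = monomial a (sVar E * cc2 E r) := by
  rw [om, map_monomial, C_mul_monomial]

theorem om_Wt {m : ℕ} {g : Poly n E} (hg : Wt m g) : Wt m (om g) := by
  intro a ha
  refine hg a fun h => ha ?_
  rw [om, coeff_C_mul, coeff_map, h, map_zero, mul_zero]

variable [CharZero E]

/-- the `λ ^ 0` part of the value of the functional on `s g` -/
theorem J2_om (h0 : JT0Stmt) (hD : 0 < D) (hN : N.IsHomogeneous D) (g : Poly n E) (k : ℤ) :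
    ((J2 D N (map (exTl E) (om g))).coeff 0).coeff k =
      if 0 ≤ k then aN D N k.toNat g else 0 := by
  induction g using MvPolynomial.induction_on' with
  | add g h hg hh =>
    rw [om_add, map_add, map_add]
    change ((J2 D N (map (exTl E) (om g))).coeff 0 + (J2 D N (map (exTl E) (om h))).coeff 0).coeff
      k = _
    rw [HahnSeries.coeff_add, hg, hh, map_add]
    split
    · rfl
    · rw [add_zero]
  | monomial a r =>
    obtain ⟨-, -, -, h4⟩ := h0 E n D hD N hN
    obtain ⟨-, h5, h6⟩ := h4 a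
    have h1 : (monomial a (exTl E (sVar E * cc2 E r)) :
        Poly n (LaurentSeries (LaurentSeries E))) =
        (exTl E (sVar E * cc2 E r)) • monomial a 1 := by
      rw [MvPolynomial.smul_monomial, smul_eq_mul, mul_one]
    rw [om_monomial, map_monomial, h1, map_smul, smul_eq_mul, exTl_scc, coeff_C_mul',
      HahnSeries.coeff_single_mul]
    have h7 : aN D N k.toNat (monomial a r) = r * aN D N k.toNat (monomial a 1) := by
      have : (monomial a r : Poly n E) = r • monomial a 1 := by
        rw [MvPolynomial.smul_monomial, smul_eq_mul, mul_one]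
      rw [this, map_smul, smul_eq_mul]
    split
    · rename_i hk
      obtain ⟨j, rfl⟩ := Int.eq_ofNat_of_zero_le hk
      have h8 := h6 j
      rw [h7]
      congr 1
    · rename_i hk
      rw [h5 0 (k - -1) (by omega), mul_zero]

/-- `aN` on level one -/
theorem aN_one (hD : 0 < D) (k : ℕ) (g : Poly n E) (hg : Wt D g) :
    aN D N k g = IoQ (g * N ^ k) := by
  have h1 : ∀ a : Fin (n + 1) →₀ ℕ, a.degree + (n + 1) = D →
      aN D N k (monomial a 1) = IoQ (monomial a 1 * N ^ k) := by
    intro a ha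
    rw [aN, linMon_monomial, one_smul, ha, Nat.div_self hD, if_pos ⟨dvd_refl D, by omega⟩,
      Nat.add_sub_cancel, div_self (by exact_mod_cast k.factorial_ne_zero), map_one, one_mul]
  have h2 : g = ∑ a ∈ g.support, coeff a g • (monomial a 1 : Poly n E) := by
    conv_lhs => rw [g.as_sum]
    exact Finset.sum_congr rfl fun a _ => by
      rw [MvPolynomial.smul_monomial, smul_eq_mul, mul_one]
  calc aN D N k g = ∑ a ∈ g.support, coeff a g * aN D N k (monomial a 1) := by
        conv_lhs => rw [h2]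
        rw [map_sum]
        exact Finset.sum_congr rfl fun a _ => by rw [map_smul, smul_eq_mul]
    _ = ∑ a ∈ g.support, coeff a g * IoQ (monomial a 1 * N ^ k) := by
        refine Finset.sum_congr rfl fun a ha => ?_
        rw [h1 a (hg a (mem_support_iff.1 ha))]
    _ = IoQ (g * N ^ k) := by
        conv_rhs => rw [h2]
        rw [Finset.sum_mul, map_sum]
        exact Finset.sum_congr rfl fun a _ => by rw [smul_mul_assoc, map_smul, smul_eq_mul]

end

section
variable {X : Idx} {E : Type} [Field E] [CharZero E] {A : PF X E} {n D : ℕ} {N : Poly n E}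

/-- the multiplied compatibility of the row at infinity -/
theorem row_frob (hJ1 : JT1Stmt) (hA : A.Ax) (hD : 0 < D) (hN : N.IsHomogeneous D)
    (T : TD A.ext.ext n D (Psl D N)) (M : ℕ) :
    ∃ C, ∀ L : ℤ, X.Ev fun i => ∃ Phi Phi' : Matrix (Option T.N) (Option T.N)
      (RatFunc (RatFunc E)),
      Frob A.ext.ext (fun j => matG (A.ext.ext.D j) (Psl D N) T.b T.co)
        (fun a => if a = none then 1 else 0) none n i M C Phi Phi' ∧
      FUN.MC ((FUN.TG.inf A hA).lau All.xph) i n M (X.p i * L) (C * X.p i) (row T) Phi' := by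
  obtain ⟨C1, hC1⟩ := T.frob M (M + 2 * n + 1) le_rfl
  obtain ⟨C2, hC2⟩ := hJ1 X E A hA All.xph n D hD N hN (Option T.N) T.b T.l T.co T.isco (by
    intro j
    cases j with
    | none => exact Or.inl T.b0
    | some a => exact Or.inr ⟨_, T.bs a⟩) (M + 2 * n + 1) (by omega)
  have hA2 : A.ext.ext.Ax := All.ext X (RatFunc E) A.ext (All.ext X E A hA)
  refine ⟨max C1 C2, fun L => ?_⟩
  obtain ⟨C3, hC3⟩ : ∃ C3 : ℕ, L ≤ C3 := ⟨L.toNat, Int.self_le_toNat L⟩
  refine (hC1.and (hC2 C3)).mono ?_
  rintro i ⟨⟨Phi, h1⟩, h2⟩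
  refine ⟨Phi, _, Frob_mono All.tcl hA2 h1 (le_max_left _ _), ?_⟩
  refine MC_mono hA2 _ h2 (by omega) ?_ (Nat.mul_le_mul_right _ (le_max_right _ _))
  push_cast
  rw [mul_comm (C3 : ℤ)]
  exact mul_le_mul_of_nonneg_left hC3 (by positivity)

end

/-- **T1 for tame packages**: some value is not zero. -/
theorem t1conc (hT1 : T1Stmt) (hT : TAMEStmt) (hTF : TFERMStmt) (h0 : JT0Stmt) (hJN : JTNStmt)
    (hJ1 : JT1Stmt) (hLDX : LDXStmt) (hLPK : LPKStmt) {X : Idx} {E : Type} [Field E] [CharZero E]
    (A : PF X E) (hA : A.Ax) (hfin : Finite A.J) {n D : ℕ} (hD : 0 < D) {κ : Type} [Fintype κ]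
    (N g : κ → Poly n E) (hN : ∀ σ, (N σ).IsHomogeneous D) (hg : ∀ σ, Wt D (g σ))
    (hI : ∀ k : ℕ, ∑ σ, IoQ (g σ * N σ ^ k) = if k = 0 then 1 else 0) :
    ∃ (σ : κ) (T : TD A.ext.ext n D (Psl D (N σ))) (u : Type) (_ : Fintype u)
      (_ : DecidableEq u) (e' : u) (d : LD A.ext (fun j => matG (A.ext.ext.D j) (Psl D (N σ)) T.b
        T.co) none u e') (v : Type) (_ : Fintype v) (_ : DecidableEq v) (e'' : v)
      (d' : LD A d.G' e' v e''),
      val2 d.toLD0 d'.toLD0 (fun a => if a = none then 1 else 0) (T.co (om (g σ))) ≠ 0 := by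
  classical
  have hB := All.ext X E A hA
  have hC := All.ext X (RatFunc E) A.ext hB
  have hfin1 : Finite A.ext.J := inferInstanceAs (Finite (Option A.J))
  have c1 : CharZero (RatFunc E) := algebraRat.charZero _
  have hne : Nonempty κ := by
    by_contra hcon
    have h1 := hI 0
    rw [not_nonempty_iff] at hcon
    rw [Finset.univ_eq_empty, Finset.sum_empty, if_pos rfl] at h1
    exact zero_ne_one h1
  have hP0 : ∀ σ, (P0s D (N σ)).IsHomogeneous D := by
    intro σ
    unfold P0s
    refine IsHomogeneous.sub ?_ ((hN σ).map _)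
    have h2 : (Sg n (RatFunc E)).IsHomogeneous 1 := by
      unfold Sg
      exact IsHomogeneous.sum _ _ _ fun i _ => isHomogeneous_X _ i
    have h3 := h2.pow D
    rw [one_mul] at h3
    have h4 := (isHomogeneous_C (Fin (n + 1)) (RatFunc.X : RatFunc E)).mul h3
    rwa [zero_add] at h4
  have T : ∀ σ, TD A.ext.ext n D (Psl D (N σ)) := fun σ =>
    (exists_TDf hT hTF A.ext.ext hC hD (hP0 σ)).some
  choose u iu1 iu2 e' hd using fun σ => hLDX X (RatFunc E) A.ext hB (Option (T σ).N)
    (fun j => matG (A.ext.ext.D j) (Psl D (N σ)) (T σ).b (T σ).co)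
    (fun a => if a = none then 1 else 0) none n (T σ).pkg
  have d : ∀ σ, LD A.ext (fun j => matG (A.ext.ext.D j) (Psl D (N σ)) (T σ).b (T σ).co) none
    (u σ) (e' σ) := fun σ => (hd σ).some
  have hPk : ∀ σ, Pkg A.ext (d σ).G' ((d σ).chi' (fun a => if a = none then 1 else 0)) (e' σ) n :=
    fun σ => (hLPK X (RatFunc E) A.ext hB hfin1 (Option (T σ).N)
      (fun j => matG (A.ext.ext.D j) (Psl D (N σ)) (T σ).b (T σ).co)
      (fun a => if a = none then 1 else 0) none n (T σ).pkg (u σ) (e' σ) (d σ)).2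
  choose v iv1 iv2 e'' hd' using fun σ => hLDX X E A hA (u σ) (d σ).G'
    ((d σ).chi' (fun a => if a = none then 1 else 0)) (e' σ) n (hPk σ)
  have d' : ∀ σ, LD A (d σ).G' (e' σ) (v σ) (e'' σ) := fun σ => (hd' σ).some
  have key := hT1 X E A hA hfin κ (fun σ => Option (T σ).N) u v
    (fun σ j => matG (A.ext.ext.D j) (Psl D (N σ)) (T σ).b (T σ).co)
    (fun σ a => if a = none then 1 else 0) (fun σ => none) n (fun σ => (T σ).pkg) e' d e'' d'
    (fun σ => row (T σ)) (fun σ b => row_lam h0 hJN hD (hN σ) (T σ) b)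
    (fun σ j b => row_D h0 hJN hD (hN σ) (T σ) j b) (fun σ => row_e h0 hD (hN σ) (T σ))
    (fun σ M => row_frob hJ1 hA hD (hN σ) (T σ) M) (fun σ => (T σ).co (om (g σ))) (by
      have h1 : ∀ σ, ∑ a, row (T σ) a * exTL E ((T σ).co (om (g σ)) a) =
          J2 D (N σ) (map (exTl E) (om (g σ))) := fun σ =>
        row_val h0 hD (hN σ) (T σ) _ (GFL.WtD_of_Wt (m := 1) (by rw [mul_one]; exact om_Wt (hg σ)))
      simp only [h1]
      ext k
      rw [HahnSeries.coeff_sum]
      simp only [J2_om h0 hD (hN _)]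
      rw [HahnSeries.coeff_one]
      by_cases hk : 0 ≤ k
      · obtain ⟨j, rfl⟩ := Int.eq_ofNat_of_zero_le hk
        simp only [if_pos hk, Int.toNat_natCast]
        have h2 : ∀ σ, aN D (N σ) j (g σ) = IoQ (g σ * N σ ^ j) := fun σ =>
          aN_one hD j (g σ) (hg σ)
        rw [Finset.sum_congr rfl fun σ _ => h2 σ, hI j]
        by_cases hj : j = 0
        · subst hj; simp
        · rw [if_neg hj, if_neg (by exact_mod_cast hj)]
      · simp only [if_neg hk, Finset.sum_const_zero]
        rw [if_neg (by omega)])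
  by_contra hcon
  push Not at hcon
  refine zero_ne_one (α := E) ?_
  rw [← key]
  symm
  refine Finset.sum_eq_zero fun σ _ => ?_
  exact hcon σ (T σ) (u σ) (iu1 σ) (iu2 σ) (e' σ) (d σ) (v σ) (iv1 σ) (iv2 σ) (e'' σ) (d' σ)

end Pool.CM.EG
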