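import Pool.Agent.H63.CUBE.FinStmts
import Pool.Agent.H10.CM.T2C
import Pool.Agent.H74.CUBE.J_JJIOTA

set_option autoImplicit false
set_option linter.unusedSectionVars false
set_option linter.unusedVariables false

/-!
# MP_47888e_al, block E: THEOREM T2 in the form of the final step
-/

open Finset MvPolynomial Pool.CM

namespace Pool.CM.EG

open Pool.CM Pool.H93.Cube Pool.CUBE Pool.H44.Cube

/-! ### the pencil of a corner cell -/

theorem pk : PKStmt := by
  intro E _ n Kc
  unfold Psl Corner.P
  congr 1
  unfold P0s Corner.P0 NK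
  congr 1
  rw [map_sum]
  refine Finset.sum_congr rfl fun k _ => ?_
  rw [map_mul, map_C, MvPolynomial.map_map]
  congr 2
  rw [map_pow]
  rfl

theorem NK_hom {n : ℕ} {E : Type} [Field E] (Kc : Corner n E) :
    (NK Kc).IsHomogeneous Kc.D := by
  unfold NK
  refine IsHomogeneous.sum _ _ _ fun k _ => ?_
  have h := (isHomogeneous_C (Fin (n + 1)) ((RatFunc.X : RatFunc E) ^ k)).mul
    ((J_JJIOTA.G_homog Kc k).map (RatFunc.C (K := E)))
  rwa [zero_add] at h

/-! ### the value is additive -/

section
variable {E : Type} [Field E] {m u₁ u₂ : Type} [Fintype m] [DecidableEq m] [Fintype u₁]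
  [DecidableEq u₁] [Fintype u₂] [DecidableEq u₂] {G : Matrix m m (RatFunc (RatFunc E))}
  {G' : Matrix u₁ u₁ (RatFunc E)} (d₁ : LD0 G u₁) (d₂ : LD0 G' u₂)
  (chi : m → RatFunc (RatFunc E))

theorem val2_add (v w : m → RatFunc (RatFunc E)) :
    val2 d₁ d₂ chi (v + w) = val2 d₁ d₂ chi v + val2 d₁ d₂ chi w := by
  unfold val2
  rw [hvL_add, hvL_add, dotProduct_add]

end

/-- a numerator is zero, or all its monomials have the weight -/
theorem Wt_induction {R : Type} [CommRing R] {n D : ℕ} (p : Poly n R → Prop)
    (hadd : ∀ g h, p g → p h → p (g + h)) (h0 : p 0)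
    (hm : ∀ (a : Fin (n + 1) →₀ ℕ) (r : R), a.degree + (n + 1) = D → p (monomial a r))
    (g : Poly n R) (hg : Wt D g) : p g := by
  classical
  have h : ∀ s : Finset (Fin (n + 1) →₀ ℕ), s ⊆ g.support →
      p (∑ a ∈ s, monomial a (coeff a g)) := by
    intro s
    induction s using Finset.induction_on with
    | empty =>
      intro _
      rw [Finset.sum_empty]
      exact h0
    | insert a s ha ih =>
      intro hs
      rw [Finset.sum_insert ha]
      refine hadd _ _ (hm _ _ ?_) (ih fun x hx => hs (Finset.mem_insert_of_mem hx))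
      exact hg a (mem_support_iff.1 (hs (Finset.mem_insert_self _ _)))
  have h1 := h _ (Finset.Subset.refl _)
  rwa [← g.as_sum] at h1

/-- **THEOREM T2 for corner cells**, final form. -/
theorem t2cstmt (hJJ : Pool.CM.T2.JJFacts) (hF : Pool.CM.T2.FunStmt) : T2CStmt := by
  intro X E _ _ A hA hJ n Kc T u _ _ e' d v _ _ e'' d' g hg
  have c1 : CharZero (RatFunc E) := algebraRat.charZero _
  have hP : Psl Kc.D (NK Kc) = Kc.P := pk E n Kc
  have key : ∀ (P : Poly n (F3 E)) (hPP : P = Kc.P) (hom : P.IsHomogeneous Kc.D)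
      (T : TD A.ext.ext.ext n Kc.D P) (u : Type) [Fintype u] [DecidableEq u] (e' : u)
      (d : LD A.ext.ext (fun j => matG (A.ext.ext.ext.D j) P T.b T.co) none u e')
      (v : Type) [Fintype v] [DecidableEq v] (e'' : v) (d' : LD A.ext d.G' e' v e''),
      val2 d.toLD0 d'.toLD0 (fun a => if a = none then 1 else 0) (T.co (om g)) = 0 := by
    intro P hPP hom T u _ _ e' d v _ _ e'' d'
    subst hPP
    refine Wt_induction (D := Kc.D) (fun g => val2 d.toLD0 d'.toLD0
      (fun a => if a = none then 1 else 0) (T.co (om g)) = 0) ?_ ?_ ?_ g hg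
    · intro g h h1 h2
      rw [om_add, map_add, val2_add, h1, h2, add_zero]
    · have h := val2_add d.toLD0 d'.toLD0 (fun a => if a = none then 1 else 0)
        (T.co (om (0 : Poly n (RatFunc E)))) (T.co (om (0 : Poly n (RatFunc E))))
      rw [← map_add, ← om_add, add_zero] at h
      exact left_eq_add.mp h
    · intro a r ha
      have h1 := Pool.CM.T2.t2c hJJ hF A hA hJ Kc hom T.b T.l T.co T.b0
        (fun x => ⟨_, T.bs x⟩) T.isco T.pkg T.frob d d' r (monomial a 1) (by
          intro c hc
          rw [coeff_monomial] at hc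
          by_cases h : a = c
          · rw [← h]
            exact ha
          · rw [if_neg h] at hc
            exact absurd rfl hc)
      rw [← h1]
      congr 1
      rw [om_monomial]
      funext x
      have h2 : (monomial a (sVar (RatFunc E) * cc2 (RatFunc E) r) : Poly n (F3 E)) =
          (sVar (RatFunc E) * cc2 (RatFunc E) r) • monomial a 1 := by
        rw [MvPolynomial.smul_monomial, smul_eq_mul, mul_one]
      have h3 : (MvPolynomial.map (Corner.cF E) (monomial a (1 : E))) =
          (monomial a 1 : Poly n (F3 E)) := by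
        rw [map_monomial, map_one]
      rw [h2, map_smul T.co, h3, Pi.smul_apply, smul_eq_mul, mul_assoc]
      rfl
  have hom : (Psl Kc.D (NK Kc)).IsHomogeneous Kc.D := by
    rw [hP]
    exact J_JJIOTA.P_homog Kc
  exact key _ hP hom T u e' d v e'' d'

end Pool.CM.EG
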