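import Pool.Agent.H63.CUBE.T1e
import Pool.Agent.H41.CUBE.JStmts
import Pool.Agent.H7.CUBE.GFL
import Pool.Agent.H19.CUBE.LIFT

set_option autoImplicit false
set_option linter.unusedSectionVars false
set_option linter.unusedVariables false

/-!
# MP_47888e_al, block E: the rows of the functional at infinity of a tame package
-/

open Finset MvPolynomial Pool.CM

namespace Pool.CM.EG

open Pool.CM Pool.H93.Cube Pool.CUBE

/-- the data of block TAME for a form `P` -/
structure TD {X : Idx} {F : Type} [Field F] (B : PF X F) (n D : ℕ) (P : Poly n F) where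
  N : Finset (Fin (n + 1) →₀ ℕ)
  co : Poly n F →ₗ[F] (Option N → F)
  b : Option N → Poly n F
  l : Option N → ℕ
  b0 : b none = eP D n P
  bs : ∀ a : N, b (some a) = monomial a.1 1
  red : ∀ a ∈ N, (∀ i, a i < D) ∧ a.degree + (n + 1) ≤ D * n
  isco : IsCo P D b l co
  chi0 : ∀ c : Fin (n + 1) →₀ ℕ, c.degree + (n + 1) ≤ D * n → co (monomial c 1) none = 0
  pkg : Pkg B (fun j => matG (B.D j) P b co) (fun a => if a = none then 1 else 0) none n
  frob : ∀ M M', M + 2 * n + 1 ≤ M' → ∃ C, X.Ev fun i =>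
    ∃ Phi : Matrix (Option N) (Option N) F,
      Frob B (fun j => matG (B.D j) P b co) (fun a => if a = none then 1 else 0)
        none n i M C Phi (matB (X.p i) D M' (B.phi i) P b co).transpose

theorem exists_TD (hT : TAMEStmt) {X : Idx} {F : Type} [Field F] [CharZero F] (B : PF X F)
    (hB : B.Ax) {n D : ℕ} (hD : 0 < D) {P : Poly n F} (hP : P.IsHomogeneous D)
    (hR : ∀ m ≤ n + 1, RedAt P D ⊤ m) (he : eP D n P ∉ Rel P) : Nonempty (TD B n D P) := by
  obtain ⟨N, co, b, l, h1, h2, h3, h4, h5, h6, h7⟩ := hT X F B hB n D hD P hP hR he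
  exact ⟨⟨N, co, b, l, h1, h2, h3, h4, h5, h6, h7⟩⟩

/-- the generic pencil has tame data -/
theorem exists_TDf (hT : TAMEStmt) (hF : TFERMStmt) {X : Idx} {F : Type} [Field F] [CharZero F]
    (B : PF X (RatFunc F)) (hB : B.Ax) {n D : ℕ} (hD : 0 < D) {P0 : Poly n F}
    (hP : P0.IsHomogeneous D) : Nonempty (TD B n D (ferm D P0)) := by
  obtain ⟨h1, h2, h3⟩ := hF F n D hD P0 hP
  have : CharZero (RatFunc F) := algebraRat.charZero _
  exact exists_TD hT B hB hD h1 (fun m _ => h2 m) h3

section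
variable {X : Idx} {E : Type} [Field E] [CharZero E] {A : PF X E} {n D : ℕ} {N : Poly n E}

theorem exTl_eq (x : RatFunc (RatFunc E)) : exTl E x = exTL E x := rfl

/-- the row of the functional at infinity -/
noncomputable def row (T : TD A.ext.ext n D (Psl D N)) (j : Option T.N) :
    LaurentSeries (LaurentSeries E) := J2 D N (map (exTl E) (T.b j))

theorem J2_Rel (h0 : JT0Stmt) (hD : 0 < D) (hN : N.IsHomogeneous D)
    (g : Poly n (RatFunc (RatFunc E))) (hg : g ∈ Rel (Psl D N)) :
    J2 D N (map (exTl E) g) = 0 := by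
  obtain ⟨-, h2, -, -⟩ := h0 E n D hD N hN
  obtain ⟨h, rfl⟩ := LIFT.mem_Rel_sum _ _ hg
  rw [map_sum, map_sum]
  exact Finset.sum_eq_zero fun k _ => by rw [LIFT.map_Dop, h2]

theorem J2_smul (c : RatFunc (RatFunc E)) (g : Poly n (RatFunc (RatFunc E))) :
    J2 D N (map (exTl E) (c • g)) = exTl E c * J2 D N (map (exTl E) g) := by
  rw [MvPolynomial.smul_eq_C_mul, map_mul, map_C, ← MvPolynomial.smul_eq_C_mul, map_smul,
    smul_eq_mul]

/-- the functional in coordinates -/
theorem row_val (h0 : JT0Stmt) (hD : 0 < D) (hN : N.IsHomogeneous D)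
    (T : TD A.ext.ext n D (Psl D N)) (g : Poly n (RatFunc (RatFunc E))) (hg : WtD D g) :
    ∑ j, row T j * exTL E (T.co g j) = J2 D N (map (exTl E) g) := by
  have h1 := J2_Rel h0 hD hN _ (T.isco.span g hg)
  rw [map_sub, map_sub, sub_eq_zero, map_sum, map_sum] at h1
  rw [h1]
  refine Finset.sum_congr rfl fun j _ => ?_
  rw [J2_smul, mul_comm]
  rfl

theorem row_e (h0 : JT0Stmt) (hD : 0 < D) (hN : N.IsHomogeneous D)
    (T : TD A.ext.ext n D (Psl D N)) : row T none = 1 := by
  rw [row, T.b0]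
  exact (h0 E n D hD N hN).2.2.1

theorem Psl_hom (hN : N.IsHomogeneous D) : (Psl D N).IsHomogeneous D := by
  have h1 : (P0s D N).IsHomogeneous D := by
    unfold P0s
    refine IsHomogeneous.sub ?_ (hN.map _)
    have h2 : (Sg n (RatFunc E)).IsHomogeneous 1 := by
      unfold Sg
      exact IsHomogeneous.sum _ _ _ fun i _ => isHomogeneous_X _ i
    have h3 := h2.pow D
    rw [one_mul] at h3
    have h4 := (isHomogeneous_C (Fin (n + 1)) (RatFunc.X : RatFunc E)).mul h3
    rwa [zero_add] at h4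
  unfold Psl ferm
  refine IsHomogeneous.add (h1.map _) ?_
  have h5 : (∑ i, (X i : Poly n (RatFunc (RatFunc E))) ^ D).IsHomogeneous D := by
    refine IsHomogeneous.sum _ _ _ fun i _ => ?_
    have := (isHomogeneous_X (RatFunc (RatFunc E)) i).pow D
    rwa [one_mul] at this
  have h6 := (isHomogeneous_C (Fin (n + 1)) (RatFunc.X : RatFunc (RatFunc E))).mul h5
  rwa [zero_add] at h6

/-- the derivatives of the row -/
theorem row_der (h0 : JT0Stmt) (hD : 0 < D) (hN : N.IsHomogeneous D)
    (T : TD A.ext.ext n D (Psl D N)) (j : Option (Option A.J)) (b : Option T.N) :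
    J2 D N (map (exTl E) (nab0 (A.ext.ext.D j) (Psl D N) (T.b b))) =
      ∑ a, row T a * exTL E (matG (A.ext.ext.D j) (Psl D N) T.b T.co a b) := by
  rw [← row_val h0 hD hN T _ (GFL.nab0_WtD _ (Psl_hom hN) (GFL.WtD_of_Wt (T.isco.lb b)))]
  rfl

theorem coeff_int_mul {K : Type} [Field K] (z : ℤ) (f : LaurentSeries K) (k : ℤ) :
    ((z : LaurentSeries K) * f).coeff k = (z : K) * f.coeff k := by
  have h : (z : LaurentSeries K) = HahnSeries.C (z : K) := (map_intCast _ z).symm
  rw [h, coeff_C_mul']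

theorem row_lam (h0 : JT0Stmt) (hJN : JTNStmt) (hD : 0 < D) (hN : N.IsHomogeneous D)
    (T : TD A.ext.ext n D (Psl D N)) (b : Option T.N) :
    nab (row T b) = ∑ a, row T a * exTL E (matG (A.ext.ext.D none) (Psl D N) T.b T.co a b) := by
  refine Eq.trans ?_ (row_der h0 hD hN T none b)
  ext k k'
  rw [nab_coeff, coeff_int_mul]
  exact ((hJN X E A n D hD N hN (T.b b)).1 k k').symm

theorem row_D (h0 : JT0Stmt) (hJN : JTNStmt) (hD : 0 < D) (hN : N.IsHomogeneous D)
    (T : TD A.ext.ext n D (Psl D N)) (j : Option A.J) (b : Option T.N) :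
    cmap (dInf A j) (row T b) =
      ∑ a, row T a * exTL E (matG (A.ext.ext.D (some j)) (Psl D N) T.b T.co a b) := by
  refine Eq.trans ?_ (row_der h0 hD hN T (some j) b)
  obtain ⟨-, h2, h3⟩ := hJN X E A n D hD N hN (T.b b)
  cases j with
  | none =>
    ext k k'
    rw [cmap_coeff, dInf_none, HahnSeries.coeff_neg, nab_coeff, ← neg_mul]
    exact (h2 k k').symm
  | some j =>
    ext k k'
    rw [cmap_coeff, dInf_some, cmap_coeff]
    exact (h3 j k k').symm

end

end Pool.CM.EG
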